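import Pool.Agent.H9.KR.Gnp

/-!
Sum-of-squares refutations of the statement that a graph has a clique with `k` vertices: definitions.
-/

set_option autoImplicit false
set_option linter.unusedSectionVars false

open Finset MvPolynomial

namespace Pool.Agent.H9.SQ

open Pool.Agent.H9.KR

/-! ## The statement -/

/-- The product of the `X v` (`v` in `t.1`) and of the `1 - X v` (`v` in `t.2`). -/
noncomputable def mon {N : ℕ} (t : Finset (Fin N) × Finset (Fin N)) : MvPolynomial (Fin N) ℝ :=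
  (∏ v ∈ t.1, X v) * ∏ v ∈ t.2, (1 - X v)

/-- The linear combination of the monomials in `M` with the coefficients `α`. -/
noncomputable def lin {N : ℕ} (M : Finset (Finset (Fin N) × Finset (Fin N)))
    (α : Finset (Fin N) × Finset (Fin N) → ℝ) : MvPolynomial (Fin N) ℝ := ∑ t ∈ M, C (α t) * mon t

/-- A sum-of-squares refutation of `G has a clique with k vertices` (a Boolean variable `X v` for every vertex, `∑ X v = k`,
`X u * X v = 0` for non-adjacent `u ≠ v`): `-1 = ∑ q i ^ 2 + a (∑ X v - k) + ∑ b u v X u X v + ∑ c v (X v ^ 2 - X v)`, with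
`u ≠ v` not adjacent in the third sum.  The `q i`, `a` and the `b u v` are linear combinations, with any real coefficients,
of the monomials in `M` (products of variables `X v` and negated variables `1 - X v`); the polynomials `c v` are arbitrary. -/
def SosRefutation {N : ℕ} (G : SimpleGraph (Fin N)) (k : ℕ) (M : Finset (Finset (Fin N) × Finset (Fin N))) :
    Prop :=
  ∃ (m : ℕ) (q : Fin m → Finset (Fin N) × Finset (Fin N) → ℝ) (a : Finset (Fin N) × Finset (Fin N) → ℝ)
    (b : Fin N → Fin N → Finset (Fin N) × Finset (Fin N) → ℝ) (c : Fin N → MvPolynomial (Fin N) ℝ),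
    (∀ u v, (u = v ∨ G.Adj u v) → b u v = 0) ∧
    ∑ i, lin M (q i) ^ 2 + lin M a * (∑ v, X v - (k : MvPolynomial (Fin N) ℝ)) +
      ∑ u, ∑ v, lin M (b u v) * (X u * X v) + ∑ v, c v * (X v ^ 2 - X v) = -1

/-! ## Cliques -/

section graph

variable {V : Type} [Fintype V] [DecidableEq V]

/-- `C` is a clique. -/
def IsCl (G : SimpleGraph V) (C : Finset V) : Prop := ∀ u ∈ C, ∀ v ∈ C, u ≠ v → G.Adj u v

open Classical in
/-- The cliques with `a` vertices inside `D`. -/
noncomputable def Cl (G : SimpleGraph V) (D : Finset V) (a : ℕ) : Finset (Finset V) :=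
  (D.powersetCard a).filter (fun C => IsCl G C)

/-- The expected number of cliques with `a` vertices in the common neighbourhood of `z` vertices. -/
noncomputable def Fz (n : ℕ) (p : ℝ) (a z : ℕ) : ℝ :=
  (n : ℝ) ^ a * p ^ (a * z + a.choose 2) / (a.factorial : ℝ)

/-- The factor in the pseudo-moments. -/
noncomputable def kap (k d : ℕ) (Nd : ℝ) (m : ℕ) : ℝ :=
  (k.choose m : ℝ) / ((d.choose m : ℝ) * Nd)

open Classical in
/-- The pseudo-moments: proportional to the number of cliques with `d` vertices in `U` that contain `S`. -/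
noncomputable def Ez (G : SimpleGraph V) (U : Finset V) (k d : ℕ) (S : Finset V) : ℝ :=
  if S ⊆ U ∧ IsCl G S ∧ S.card ≤ d then
    kap k d ((Cl G U d).card : ℝ) S.card * ((Cl G (nb G U S) (d - S.card)).card : ℝ) else 0

/-- The typical value of the moment of the union of two cliques with `r` vertices and `s` common vertices, averaged over the
pairs between them. -/
noncomputable def bz (n : ℕ) (p : ℝ) (k r : ℕ) (Nd : ℝ) (s : ℕ) : ℝ :=
  kap k (2 * r) Nd (2 * r - s) * Fz n p s (2 * r - s) * p ^ ((r - s) ^ 2)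

open Classical in
/-- The normalised moment of `R ∪ S ∪ T` (`R` with `s`, `S` and `T` with `r - s` vertices). -/
noncomputable def gz (G : SimpleGraph V) (U : Finset V) (n : ℕ) (p : ℝ) (r s : ℕ) (R S T : Finset V) : ℝ :=
  if IsCl G (R ∪ S ∪ T) then
    ((Cl G (nb G U (R ∪ S ∪ T)) s).card : ℝ) / (Fz n p s (2 * r - s) * p ^ ((r - s) ^ 2)) else 0

open Classical in
/-- The centred normalised moment. -/
noncomputable def ez (G : SimpleGraph V) (U : Finset V) (n : ℕ) (p : ℝ) (r s : ℕ) (R S T : Finset V) : ℝ :=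
  if Disjoint S T then gz G U n p r s R S T - 1 else 0

/-- All sets of at most `z` vertices of `U` have about the expected number of common neighbours in `U`. -/
structure Reg (G : SimpleGraph V) (U : Finset V) (n : ℕ) (p ε : ℝ) (z : ℕ) : Prop where
  up : ∀ Z ⊆ U, Z.card ≤ z → ((nb G U Z).card : ℝ) ≤ (1 + ε) * (n * p ^ Z.card)
  lo : ∀ Z ⊆ U, Z.card ≤ z → (1 - ε) * (n * p ^ Z.card) ≤ ((nb G U Z).card : ℝ)

/-- The numbers. -/
structure Num (n r k : ℕ) (p ε τ χ : ℝ) : Prop where
  p_pos : 0 < p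
  p_le : p ≤ 1
  r_pos : 1 ≤ r
  k_ge : 2 * r ≤ k
  n_pos : 1 ≤ n
  ε_pos : 0 < ε
  cut : 4 * (r : ℝ) ≤ ε * (n * p ^ (4 * r))
  τ_ge : 8 * (r : ℝ) * ε ≤ τ
  τ_le : τ ≤ 1 / 64
  χ_ge : (r : ℝ) ^ 2 / (n * p ^ (3 * r)) ≤ χ
  χ_le : χ ≤ 1 / 64
  ρ_le : (r : ℝ) * (k / (n * p ^ r)) ≤ 1 / 16
  big : (k.choose r : ℝ) ^ 4 * (16 * (100 * τ ^ 2 + 30 * χ)) ≤ 1

end graph

end Pool.Agent.H9.SQ
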