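import Pool.Agent.H9.SQ.Cou
import Pool.Agent.H9.SQ.Defs

/-!
Module Avg.  Averaging over the sets `U` with `n` vertices.
`Avg_markov`: `∑_G w(G) #{U : P G U} = ∑_U pr (P · U) ≤ C(N,n) δ` (exchange the sums; `pr w P = ∑ o, if P o then w o else 0`), and Markov.
-/

set_option autoImplicit false
set_option linter.unusedSectionVars false

open Finset

namespace Pool.Agent.H9.SQ

open Pool.Agent.H9.KR

open Classical in
theorem Avg_markov {Ω : Type} [Fintype Ω] (w : Ω → ℝ) (hw : ∀ o, 0 ≤ w o) {N n : ℕ} (hn : n ≤ N)
    (P : Ω → Finset (Fin N) → Prop) (δ : ℝ)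
    (h : ∀ U : Finset (Fin N), U.card = n → pr w (fun o => P o U) ≤ δ) :
    pr w (fun o => N.choose n ≤
      2 * ((powersetCard n (univ : Finset (Fin N))).filter (fun U => P o U)).card) ≤ 2 * δ := by
  have hC : 0 < N.choose n := Nat.choose_pos hn
  have hC' : (0 : ℝ) < (N.choose n : ℝ) := by exact_mod_cast hC
  have hcardC : (powersetCard n (univ : Finset (Fin N))).card = N.choose n := by
    rw [card_powersetCard, card_univ, Fintype.card_fin]
  -- exchange the sums
  have hex : ∑ o, w o *
      (((powersetCard n (univ : Finset (Fin N))).filter (fun U => P o U)).card : ℝ) =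
      ∑ U ∈ powersetCard n (univ : Finset (Fin N)), pr w (fun o => P o U) := by
    unfold pr
    rw [Finset.sum_comm]
    refine Finset.sum_congr rfl fun o _ => ?_
    rw [Finset.card_filter]
    push_cast
    rw [Finset.mul_sum]
    refine Finset.sum_congr rfl fun U _ => ?_
    split_ifs <;> simp
  have hle : ∑ U ∈ powersetCard n (univ : Finset (Fin N)), pr w (fun o => P o U) ≤
      (N.choose n : ℝ) * δ := by
    calc ∑ U ∈ powersetCard n (univ : Finset (Fin N)), pr w (fun o => P o U)
        ≤ ∑ _U ∈ powersetCard n (univ : Finset (Fin N)), δ :=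
          Finset.sum_le_sum fun U hU => h U (mem_powersetCard.1 hU).2
      _ = (N.choose n : ℝ) * δ := by rw [Finset.sum_const, hcardC, nsmul_eq_mul]
  have hmk : (N.choose n : ℝ) * pr w (fun o => N.choose n ≤
      2 * ((powersetCard n (univ : Finset (Fin N))).filter (fun U => P o U)).card) ≤
      2 * ∑ o, w o *
      (((powersetCard n (univ : Finset (Fin N))).filter (fun U => P o U)).card : ℝ) := by
    unfold pr
    rw [Finset.mul_sum, Finset.mul_sum]
    refine Finset.sum_le_sum fun o _ => ?_
    have h0 := hw o
    split_ifs with hP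
    · have hP' : (N.choose n : ℝ) ≤ 2 *
          (((powersetCard n (univ : Finset (Fin N))).filter (fun U => P o U)).card : ℝ) := by
        exact_mod_cast hP
      nlinarith
    · rw [mul_zero]
      positivity
  rw [hex] at hmk
  have h2 : (N.choose n : ℝ) * pr w (fun o => N.choose n ≤
      2 * ((powersetCard n (univ : Finset (Fin N))).filter (fun U => P o U)).card) ≤
      (N.choose n : ℝ) * (2 * δ) := by linarith
  exact le_of_mul_le_mul_left h2 hC'

end Pool.Agent.H9.SQ
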