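import Pool.Agent.H9.SQ.Pic

/-!
Module Pix.  Choosing `U`: only the monomials with few positive variables need to have few negated variables.
-/

set_option autoImplicit false
set_option linter.unusedSectionVars false

open Finset

namespace Pool.Agent.H9.SQ

open Pool.Agent.H9.KR

theorem Pix_num {N n r e b a : ℕ} (he : 1 ≤ e) (hr : 1 ≤ r) (hn : n ^ (2 * e) ≤ N) (hN : 2 ^ (4 * e) < N)
    (hb : b ^ (4 * e) ≤ N ^ r) (ha : r ≤ a * e) : 2 * b * n ^ a ≤ N ^ a := by
  have hN1 : 1 ≤ N := le_trans Nat.one_le_two_pow hN.le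
  have ha1 : 1 ≤ a := by
    rcases Nat.eq_zero_or_pos a with h | h
    · rw [h] at ha
      omega
    · exact h
  refine le_of_pow_le_pow_left₀ (n := 4 * e) (by omega) (Nat.zero_le _) ?_
  calc (2 * b * n ^ a) ^ (4 * e) = 2 ^ (4 * e) * b ^ (4 * e) * (n ^ (2 * e)) ^ (2 * a) := by
        rw [mul_pow, mul_pow, ← pow_mul, ← pow_mul]
        congr 2
        ring
    _ ≤ N * N ^ (a * e) * N ^ (2 * a) := by
        exact Nat.mul_le_mul (Nat.mul_le_mul hN.le (hb.trans (Nat.pow_le_pow_right hN1 ha)))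
          (Nat.pow_le_pow_left hn _)
    _ = N ^ (1 + a * e + 2 * a) := by
        rw [pow_add, pow_add, pow_one]
    _ ≤ N ^ (a * (4 * e)) := by
        refine Nat.pow_le_pow_right hN1 ?_
        nlinarith
    _ = (N ^ a) ^ (4 * e) := by rw [pow_mul]

open Classical in
theorem Pix_main {N n r e : ℕ} (he : 1 ≤ e) (hr : 1 ≤ r) (hn : n ^ (2 * e) ≤ N) (hN : 2 ^ (4 * e) < N)
    (P : Finset (Fin N) → Prop)
    (hP : 2 * ((powersetCard n (univ : Finset (Fin N))).filter (fun U => P U)).card < N.choose n)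
    (M : Finset (Finset (Fin N) × Finset (Fin N)))
    (hQ : ∀ t ∈ M, t.1.card * e < r → t.2.card ^ e ≤ N ^ (e - 1))
    (hM : (M.filter (fun t => r ≤ (t.1 ∪ t.2).card)).card ^ (4 * e) ≤ N ^ r) :
    ∃ U : Finset (Fin N), U.card = n ∧ ¬ P U ∧ ∀ t ∈ M, t.1 ⊆ U → (t.1 ∪ (t.2 ∩ U)).card < r := by
  by_contra hcon
  push Not at hcon
  have hN1 : 1 ≤ N := le_trans Nat.one_le_two_pow hN.le
  have hnN : n ≤ N := by
    rcases Nat.eq_zero_or_pos n with h0 | h0
    · omega
    · calc n = n ^ 1 := (pow_one n).symm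
        _ ≤ n ^ (2 * e) := Nat.pow_le_pow_right h0 (by omega)
        _ ≤ N := hn
  set M' := M.filter (fun t => r ≤ (t.1 ∪ t.2).card) with hM'
  set S := powersetCard n (univ : Finset (Fin N)) with hS
  have hcover : S ⊆ S.filter (fun U => P U) ∪
      M'.biUnion (fun t => S.filter (fun W => t.1 ⊆ W ∧ r ≤ (t.1 ∪ (t.2 ∩ W)).card)) := by
    intro U hU
    have hUc : U.card = n := (Finset.mem_powersetCard.1 hU).2
    rw [Finset.mem_union]
    by_cases hPU : P U
    · left
      exact Finset.mem_filter.2 ⟨hU, hPU⟩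
    · right
      obtain ⟨t, ht, h1, h2⟩ := hcon U hUc hPU
      refine Finset.mem_biUnion.2 ⟨t, ?_, Finset.mem_filter.2 ⟨hU, h1, h2⟩⟩
      rw [hM']
      refine Finset.mem_filter.2 ⟨ht, le_trans h2 (Finset.card_le_card ?_)⟩
      exact Finset.union_subset_union_right Finset.inter_subset_left
  have hScard : S.card = N.choose n := by
    rw [hS, Finset.card_powersetCard, Finset.card_univ, Fintype.card_fin]
  have h1 : S.card ≤ (S.filter (fun U => P U)).card +
      ∑ t ∈ M', (S.filter (fun W => t.1 ⊆ W ∧ r ≤ (t.1 ∪ (t.2 ∩ W)).card)).card := by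
    refine le_trans (Finset.card_le_card hcover) (le_trans (Finset.card_union_le _ _) ?_)
    exact Nat.add_le_add_left Finset.card_biUnion_le _
  have hone : ∀ t ∈ M', 2 * M'.card * (S.filter (fun W => t.1 ⊆ W ∧ r ≤ (t.1 ∪ (t.2 ∩ W)).card)).card ≤
      N.choose n := by
    intro t ht
    have htM : t ∈ M := (Finset.mem_filter.1 ht).1
    by_cases hte : t.1.card * e < r
    · have hq := hQ t htM hte
      have hB : (max 1 t.2.card) ^ e ≤ N ^ (e - 1) := by
        rcases le_total t.2.card 1 with h | h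
        · rw [max_eq_left h, one_pow]
          exact Nat.one_le_pow _ _ hN1
        · rw [max_eq_right h]
          exact hq
      have h2 := Pic_one n r (max 1 t.2.card) hnN (le_max_left _ _) t.1 t.2 (le_max_right _ _)
      have h3 := Pic_num he hr hn hN hM hB
      have hNr : 0 < N ^ r := pow_pos (by omega) _
      refine le_of_mul_le_mul_right ?_ hNr
      calc 2 * M'.card * (S.filter (fun W => t.1 ⊆ W ∧ r ≤ (t.1 ∪ (t.2 ∩ W)).card)).card * N ^ r
          = 2 * M'.card * ((S.filter (fun W => t.1 ⊆ W ∧ r ≤ (t.1 ∪ (t.2 ∩ W)).card)).card * N ^ r) := by ring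
        _ ≤ 2 * M'.card * (N.choose n * ((max 1 t.2.card) ^ r * n ^ r)) := by
            refine Nat.mul_le_mul_left _ (le_trans (le_of_eq ?_) h2)
            congr 2
        _ = (2 * (M'.card * ((max 1 t.2.card) ^ r * n ^ r))) * N.choose n := by ring
        _ ≤ N ^ r * N.choose n := Nat.mul_le_mul_right _ h3.le
        _ = N.choose n * N ^ r := by ring
    · have h2 := Cou_sup n t.1.card hnN t.1 le_rfl
      have h3 := Pix_num he hr hn hN hM (a := t.1.card) (by omega)
      have hNr : 0 < N ^ t.1.card := pow_pos (by omega) _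
      refine le_of_mul_le_mul_right ?_ hNr
      calc 2 * M'.card * (S.filter (fun W => t.1 ⊆ W ∧ r ≤ (t.1 ∪ (t.2 ∩ W)).card)).card * N ^ t.1.card
          ≤ 2 * M'.card * ((S.filter (fun W => t.1 ⊆ W)).card * N ^ t.1.card) := by
            rw [mul_assoc]
            refine Nat.mul_le_mul_left _ (Nat.mul_le_mul_right _ (card_le_card ?_))
            intro W hW
            rw [mem_filter] at hW ⊢
            exact ⟨hW.1, hW.2.1⟩
        _ ≤ 2 * M'.card * (N.choose n * n ^ t.1.card) := by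
            refine Nat.mul_le_mul_left _ (le_trans (le_of_eq ?_) h2)
            congr 2
        _ = (2 * M'.card * n ^ t.1.card) * N.choose n := by ring
        _ ≤ N ^ t.1.card * N.choose n := Nat.mul_le_mul_right _ h3
        _ = N.choose n * N ^ t.1.card := by ring
  have h4 : 2 * (∑ t ∈ M', (S.filter (fun W => t.1 ⊆ W ∧ r ≤ (t.1 ∪ (t.2 ∩ W)).card)).card) ≤ N.choose n := by
    rcases Nat.eq_zero_or_pos M'.card with h0 | h0
    · rw [Finset.card_eq_zero] at h0
      rw [h0]
      simp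
    · refine le_of_mul_le_mul_left ?_ h0
      calc M'.card * (2 * ∑ t ∈ M', (S.filter (fun W => t.1 ⊆ W ∧ r ≤ (t.1 ∪ (t.2 ∩ W)).card)).card)
          = ∑ t ∈ M', 2 * M'.card * (S.filter (fun W => t.1 ⊆ W ∧ r ≤ (t.1 ∪ (t.2 ∩ W)).card)).card := by
            rw [← Finset.mul_sum]
            ring
        _ ≤ M'.card • (N.choose n) := Finset.sum_le_card_nsmul M' _ _ hone
        _ = M'.card * N.choose n := by rw [smul_eq_mul]
  rw [hScard] at h1
  omega

end Pool.Agent.H9.SQ
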