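import Pool.Agent.H9.SQ.Defs

/-!
Module Hom.  Homogenisation (abstract linear algebra, no graphs).
One step: for `|S| < r`, `|T| ≤ r`: `(k - |S|) E (S ∪ T) = ∑ v ∉ S, E (insert v S ∪ T)`: the `v ∈ T \ S` give `|T \ S| E (S ∪ T)`, the other `v` give `(k - |S ∪ T|) E (S ∪ T)` by `hlin`.
So replace `c` by `c'`: `c' S = 0` for the sets of size `j` and `c' R = c R + ∑ v ∈ R, c (R.erase v) / (k - j)` for `|R| = j + 1`: `∑ S, c' S * E (S ∪ T) = ∑ S, c S * E (S ∪ T)` for all `T` with `|T| ≤ r`.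
Induction: for `j ≤ r` and `c` supported on sets of size in `[j, r]` there is `c'` supported on the sets of size `r` with `∀ T, |T| ≤ r → ∑ S, c' S * E (S ∪ T) = ∑ S, c S * E (S ∪ T)`.
Then `∑∑ c c E = ∑∑ c' c E = ∑∑ c' c' E ≥ 0` (symmetry `S ∪ T = T ∪ S`).
-/

set_option autoImplicit false
set_option linter.unusedSectionVars false

open Finset

namespace Pool.Agent.H9.SQ

open Pool.Agent.H9.KR

variable {V : Type} [Fintype V] [DecidableEq V]

theorem Hom_step (E : Finset V → ℝ) (k r : ℕ)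
    (hlin : ∀ S : Finset V, S.card < 2 * r → ∑ v ∈ univ \ S, E (insert v S) = ((k : ℝ) - S.card) * E S)
    (S T : Finset V) (hS : S.card < r) (hT : T.card ≤ r) :
    ∑ v ∈ univ \ S, E (insert v S ∪ T) = ((k : ℝ) - S.card) * E (S ∪ T) := by
  have hcard : (S ∪ T).card < 2 * r := by
    have h := Finset.card_union_le S T
    omega
  have hl := hlin (S ∪ T) hcard
  have hsplit : (univ : Finset V) \ S = (T \ S) ∪ (univ \ (S ∪ T)) := by
    ext v
    simp only [mem_sdiff, mem_univ, true_and, mem_union]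
    tauto
  have hdisj : Disjoint (T \ S) ((univ : Finset V) \ (S ∪ T)) := by
    rw [Finset.disjoint_left]
    intro v hv hv'
    simp only [mem_sdiff, mem_univ, true_and, mem_union] at hv hv'
    tauto
  rw [hsplit, Finset.sum_union hdisj]
  have h1 : ∑ v ∈ T \ S, E (insert v S ∪ T) = ((T \ S).card : ℝ) * E (S ∪ T) := by
    rw [← nsmul_eq_mul, ← Finset.sum_const]
    refine Finset.sum_congr rfl fun v hv => ?_
    have hvT : v ∈ T := (mem_sdiff.1 hv).1
    have : insert v S ∪ T = S ∪ T := by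
      ext w
      simp only [mem_union, mem_insert]
      constructor
      · rintro ((rfl | h) | h)
        · exact Or.inr hvT
        · exact Or.inl h
        · exact Or.inr h
      · rintro (h | h)
        · exact Or.inl (Or.inr h)
        · exact Or.inr h
    rw [this]
  have h2 : ∑ v ∈ (univ : Finset V) \ (S ∪ T), E (insert v S ∪ T) =
      ((k : ℝ) - (S ∪ T).card) * E (S ∪ T) := by
    rw [← hl]
    refine Finset.sum_congr rfl fun v _ => ?_
    rw [Finset.insert_union]
  have hc : ((S ∪ T).card : ℝ) = S.card + (T \ S).card := by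
    have h := Finset.card_sdiff_add_card T S
    rw [Finset.union_comm S T, ← h]
    push_cast
    ring
  rw [h1, h2, hc]
  ring

theorem Hom_one (E : Finset V → ℝ) (k r : ℕ) (hk : 2 * r ≤ k)
    (hlin : ∀ S : Finset V, S.card < 2 * r → ∑ v ∈ univ \ S, E (insert v S) = ((k : ℝ) - S.card) * E S) :
    ∀ (m : ℕ) (S : Finset V), S.card + m = r →
      ∃ c' : Finset V → ℝ, (∀ R, R.card ≠ r → c' R = 0) ∧
        ∀ T, T.card ≤ r → ∑ R, c' R * E (R ∪ T) = E (S ∪ T) := by
  intro m
  induction m with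
  | zero =>
    intro S hS
    refine ⟨fun R => if R = S then 1 else 0, fun R hR => ?_, fun T _ => ?_⟩
    · have : R ≠ S := by
        rintro rfl
        exact hR (by omega)
      simp [this]
    · simp
  | succ m ih =>
    intro S hS
    have hex : ∀ v : V, v ∉ S → ∃ c' : Finset V → ℝ, (∀ R, R.card ≠ r → c' R = 0) ∧
        ∀ T, T.card ≤ r → ∑ R, c' R * E (R ∪ T) = E (insert v S ∪ T) := by
      intro v hv
      refine ih (insert v S) ?_
      rw [Finset.card_insert_of_notMem hv]
      omega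
    choose! f hf using hex
    have hSr : S.card < r := by omega
    have hpos : (0 : ℝ) < (k : ℝ) - S.card := by
      have : S.card < k := by omega
      have : ((S.card : ℕ) : ℝ) < (k : ℝ) := by exact_mod_cast this
      linarith
    refine ⟨fun R => (∑ v ∈ univ \ S, f v R) / ((k : ℝ) - S.card), fun R hR => ?_, fun T hT => ?_⟩
    · have : ∑ v ∈ univ \ S, f v R = 0 := by
        refine Finset.sum_eq_zero fun v hv => ?_
        exact (hf v (mem_sdiff.1 hv).2).1 R hR
      simp [this]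
    · have h1 : ∑ R, (∑ v ∈ univ \ S, f v R) / ((k : ℝ) - S.card) * E (R ∪ T) =
          (∑ v ∈ univ \ S, ∑ R, f v R * E (R ∪ T)) / ((k : ℝ) - S.card) := by
        rw [Finset.sum_comm, Finset.sum_div]
        refine Finset.sum_congr rfl fun R _ => ?_
        rw [div_mul_eq_mul_div, Finset.sum_mul]
      rw [h1]
      have h2 : ∑ v ∈ univ \ S, ∑ R, f v R * E (R ∪ T) = ∑ v ∈ univ \ S, E (insert v S ∪ T) := by
        refine Finset.sum_congr rfl fun v hv => ?_
        exact (hf v (mem_sdiff.1 hv).2).2 T hT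
      rw [h2, Hom_step E k r hlin S T hSr hT, mul_div_assoc, mul_comm, div_mul_cancel₀ _ hpos.ne']

theorem Hom_all (E : Finset V → ℝ) (k r : ℕ) (hk : 2 * r ≤ k)
    (hlin : ∀ S : Finset V, S.card < 2 * r → ∑ v ∈ univ \ S, E (insert v S) = ((k : ℝ) - S.card) * E S)
    (c : Finset V → ℝ) (hc : ∀ S, r < S.card → c S = 0) :
    ∃ c' : Finset V → ℝ, (∀ R, R.card ≠ r → c' R = 0) ∧
      ∀ T, T.card ≤ r → ∑ R, c' R * E (R ∪ T) = ∑ S, c S * E (S ∪ T) := by
  have hex : ∀ S : Finset V, S.card ≤ r → ∃ c' : Finset V → ℝ, (∀ R, R.card ≠ r → c' R = 0) ∧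
      ∀ T, T.card ≤ r → ∑ R, c' R * E (R ∪ T) = E (S ∪ T) := by
    intro S hS
    exact Hom_one E k r hk hlin (r - S.card) S (by omega)
  choose! g hg using hex
  refine ⟨fun R => ∑ S, c S * g S R, fun R hR => ?_, fun T hT => ?_⟩
  · refine Finset.sum_eq_zero fun S _ => ?_
    rcases Nat.lt_or_ge r S.card with h | h
    · rw [hc S h, zero_mul]
    · rw [(hg S h).1 R hR, mul_zero]
  · have h1 : ∑ R, (∑ S, c S * g S R) * E (R ∪ T) = ∑ S, c S * ∑ R, g S R * E (R ∪ T) := by
      simp only [Finset.sum_mul, Finset.mul_sum]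
      rw [Finset.sum_comm]
      refine Finset.sum_congr rfl fun S _ => Finset.sum_congr rfl fun R _ => ?_
      ring
    rw [h1]
    refine Finset.sum_congr rfl fun S _ => ?_
    rcases Nat.lt_or_ge r S.card with h | h
    · rw [hc S h, zero_mul, zero_mul]
    · rw [(hg S h).2 T hT]

theorem Hom_main (E : Finset V → ℝ) (k r : ℕ) (hk : 2 * r ≤ k)
    (hlin : ∀ S : Finset V, S.card < 2 * r → ∑ v ∈ univ \ S, E (insert v S) = ((k : ℝ) - S.card) * E S)
    (hpsd : ∀ c : Finset V → ℝ, (∀ S, S.card ≠ r → c S = 0) → 0 ≤ ∑ S, ∑ T, c S * c T * E (S ∪ T))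
    (c : Finset V → ℝ) (hc : ∀ S, r < S.card → c S = 0) :
    0 ≤ ∑ S, ∑ T, c S * c T * E (S ∪ T) := by
  obtain ⟨c', hc', h⟩ := Hom_all E k r hk hlin c hc
  have e1 : ∑ S, ∑ T, c S * c T * E (S ∪ T) = ∑ S, ∑ T, c' S * c T * E (S ∪ T) := by
    have l : ∑ S, ∑ T, c S * c T * E (S ∪ T) = ∑ T, c T * ∑ S, c S * E (S ∪ T) := by
      rw [Finset.sum_comm]
      refine Finset.sum_congr rfl fun T _ => ?_
      rw [Finset.mul_sum]
      refine Finset.sum_congr rfl fun S _ => ?_
      ring
    have l' : ∑ S, ∑ T, c' S * c T * E (S ∪ T) = ∑ T, c T * ∑ S, c' S * E (S ∪ T) := by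
      rw [Finset.sum_comm]
      refine Finset.sum_congr rfl fun T _ => ?_
      rw [Finset.mul_sum]
      refine Finset.sum_congr rfl fun S _ => ?_
      ring
    rw [l, l']
    refine Finset.sum_congr rfl fun T _ => ?_
    rcases Nat.lt_or_ge r T.card with hT | hT
    · rw [hc T hT, zero_mul, zero_mul]
    · rw [h T hT]
  have e2 : ∑ S, ∑ T, c' S * c T * E (S ∪ T) = ∑ S, ∑ T, c' S * c' T * E (S ∪ T) := by
    refine Finset.sum_congr rfl fun S _ => ?_
    by_cases hS : S.card = r
    · have l : ∑ T, c' S * c T * E (S ∪ T) = c' S * ∑ T, c T * E (T ∪ S) := by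
        rw [Finset.mul_sum]
        refine Finset.sum_congr rfl fun T _ => ?_
        rw [Finset.union_comm]
        ring
      have l' : ∑ T, c' S * c' T * E (S ∪ T) = c' S * ∑ T, c' T * E (T ∪ S) := by
        rw [Finset.mul_sum]
        refine Finset.sum_congr rfl fun T _ => ?_
        rw [Finset.union_comm]
        ring
      rw [l, l', h S hS.le]
    · rw [hc' S hS]
      simp
  rw [e1, e2]
  exact hpsd c' hc'

end Pool.Agent.H9.SQ
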