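import Pool.Agent.H9.SQ.Cnt

/-!
Module Lin.  The pseudo-moments `Ez` satisfy `∑ x_v = k` exactly.
`Lin_main`: if `S` is no clique or not inside `U`, both sides are `0`.  Otherwise only `v ∈ nb G U S` contribute on the left (`IsCl G (insert v S) ↔ IsCl G S ∧ ∀ u ∈ S, Adj u v`, `v ∉ S`), the term is
`kap (|S|+1) * card (Cl (nb G U (insert v S)) (d-|S|-1))`; use `Cnt_rec` with `X = ∅`, `a = d - |S| - 1`, and `kap (s+1) (d-s) = kap s (k-s)` for `s < d ≤ k` (`C(k,s+1)(s+1) = C(k,s)(k-s)`; also true if the number `Nd` is `0`).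
`Lin_one`: `nb G U ∅ = U`, `kap 0 = 1 / Nd`.
-/

set_option autoImplicit false
set_option linter.unusedSectionVars false

open Finset

namespace Pool.Agent.H9.SQ

open Pool.Agent.H9.KR

variable {V : Type} [Fintype V] [DecidableEq V]

theorem Lin_kap (k d : ℕ) (N : ℝ) (s : ℕ) (hs : s < d) (hd : d ≤ k) :
    kap k d N (s + 1) * ((d : ℝ) - s) = ((k : ℝ) - s) * kap k d N s := by
  unfold kap
  have h1 : ((k.choose (s + 1) : ℕ) : ℝ) * ((s : ℝ) + 1) = (k.choose s : ℝ) * ((k : ℝ) - s) := by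
    have h := Nat.choose_succ_right_eq k s
    have h' : ((k.choose (s + 1) * (s + 1) : ℕ) : ℝ) = ((k.choose s * (k - s) : ℕ) : ℝ) := by
      rw [h]
    rw [Nat.cast_mul, Nat.cast_mul, Nat.cast_sub (by omega)] at h'
    push_cast at h'
    exact h'
  have h2 : ((d.choose (s + 1) : ℕ) : ℝ) * ((s : ℝ) + 1) = (d.choose s : ℝ) * ((d : ℝ) - s) := by
    have h := Nat.choose_succ_right_eq d s
    have h' : ((d.choose (s + 1) * (s + 1) : ℕ) : ℝ) = ((d.choose s * (d - s) : ℕ) : ℝ) := by
      rw [h]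
    rw [Nat.cast_mul, Nat.cast_mul, Nat.cast_sub (by omega)] at h'
    push_cast at h'
    exact h'
  have hs1 : (0 : ℝ) < (s : ℝ) + 1 := by positivity
  have hc1 : (0 : ℝ) < (d.choose (s + 1) : ℝ) := by
    exact_mod_cast Nat.choose_pos (by omega)
  have hc2 : (0 : ℝ) < (d.choose s : ℝ) := by
    exact_mod_cast Nat.choose_pos (by omega)
  by_cases hN : N = 0
  · simp [hN]
  have hds : (d : ℝ) - s ≠ 0 := by
    have : (s : ℝ) < d := by exact_mod_cast hs
    linarith
  have e1 : (k.choose (s + 1) : ℝ) = (k.choose s : ℝ) * ((k : ℝ) - s) / ((s : ℝ) + 1) := by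
    rw [eq_div_iff hs1.ne']; exact h1
  have e2 : (d.choose (s + 1) : ℝ) = (d.choose s : ℝ) * ((d : ℝ) - s) / ((s : ℝ) + 1) := by
    rw [eq_div_iff hs1.ne']; exact h2
  rw [e1, e2]
  field_simp

theorem Lin_main (G : SimpleGraph V) (U : Finset V) (k d : ℕ) (hd : d ≤ k) (S : Finset V) (hS : S.card < d) :
    ∑ v ∈ univ \ S, Ez G U k d (insert v S) = ((k : ℝ) - S.card) * Ez G U k d S := by
  classical
  by_cases hc : S ⊆ U ∧ IsCl G S
  · have hE : Ez G U k d S =
        kap k d ((Cl G U d).card : ℝ) S.card * ((Cl G (nb G U S) (d - S.card)).card : ℝ) := by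
      unfold Ez
      rw [if_pos ⟨hc.1, hc.2, hS.le⟩]
    have hnbS : ∀ v ∈ nb G U S, v ∉ S := by
      intro v hv hvS
      rw [mem_nb] at hv
      exact G.loopless.irrefl v (hv.2 v hvS)
    have hsub : nb G U S ⊆ univ \ S := by
      intro v hv
      exact mem_sdiff.mpr ⟨mem_univ v, hnbS v hv⟩
    have hzero : ∀ v ∈ univ \ S, v ∉ nb G U S → Ez G U k d (insert v S) = 0 := by
      intro v hv hvn
      have hvS : v ∉ S := (mem_sdiff.mp hv).2
      unfold Ez
      rw [if_neg]
      rintro ⟨h1, h2, _⟩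
      apply hvn
      rw [mem_nb]
      refine ⟨h1 (mem_insert_self v S), fun u hu => ?_⟩
      exact h2 u (mem_insert_of_mem hu) v (mem_insert_self v S) (fun h => hvS (h ▸ hu))
    rw [← Finset.sum_subset hsub hzero]
    have hterm : ∀ v ∈ nb G U S, Ez G U k d (insert v S) =
        kap k d ((Cl G U d).card : ℝ) (S.card + 1) *
          ((Cl G (nb G U (insert v S) \ ∅) (d - S.card - 1)).card : ℝ) := by
      intro v hv
      have hvS := hnbS v hv
      have hv' := hv
      rw [mem_nb] at hv'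
      have hcard : (insert v S).card = S.card + 1 := card_insert_of_notMem hvS
      have hcl : IsCl G (insert v S) := by
        intro a ha b hb hab
        rcases mem_insert.mp ha with ha1 | ha1
        · rcases mem_insert.mp hb with hb1 | hb1
          · exact absurd (ha1.trans hb1.symm) hab
          · rw [ha1]; exact (hv'.2 b hb1).symm
        · rcases mem_insert.mp hb with hb1 | hb1
          · rw [hb1]; exact hv'.2 a ha1
          · exact hc.2 a ha1 b hb1 hab
      unfold Ez
      rw [if_pos ⟨insert_subset hv'.1 hc.1, hcl, by omega⟩, hcard, sdiff_empty, Nat.sub_sub]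
    rw [Finset.sum_congr rfl hterm, ← Finset.mul_sum, hE]
    have hrec := Cnt_rec G U S ∅ (d - S.card - 1)
    have hds : d - S.card - 1 + 1 = d - S.card := by omega
    rw [hds] at hrec
    have hrec' : ((d : ℝ) - S.card) * ((Cl G (nb G U S) (d - S.card)).card : ℝ) =
        ∑ v ∈ nb G U S, ((Cl G (nb G U (insert v S) \ ∅) (d - S.card - 1)).card : ℝ) := by
      have h := congrArg (fun n : ℕ => (n : ℝ)) hrec
      simp only [Nat.cast_mul, Nat.cast_sum, sdiff_empty] at h
      rw [Nat.cast_sub hS.le] at h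
      simp only [sdiff_empty]
      exact h
    rw [← hrec', ← mul_assoc, Lin_kap k d _ S.card hS hd, mul_assoc]
  · have h0 : ∀ T : Finset V, S ⊆ T → Ez G U k d T = 0 := by
      intro T hT
      unfold Ez
      rw [if_neg]
      rintro ⟨h1, h2, _⟩
      exact hc ⟨hT.trans h1, fun a ha b hb hab => h2 a (hT ha) b (hT hb) hab⟩
    rw [h0 S (Subset.refl S), mul_zero]
    exact Finset.sum_eq_zero fun v _ => h0 _ (subset_insert v S)

theorem Lin_one (G : SimpleGraph V) (U : Finset V) (k d : ℕ) (h : 0 < (Cl G U d).card) :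
    Ez G U k d ∅ = 1 := by
  classical
  have hn : nb G U ∅ = U := by
    ext v
    rw [mem_nb]
    simp
  unfold Ez
  rw [if_pos ⟨empty_subset U, fun a ha => absurd ha (notMem_empty a), by simp⟩, hn]
  unfold kap
  have h' : (0 : ℝ) < ((Cl G U d).card : ℝ) := by exact_mod_cast h
  simp only [card_empty, Nat.choose_zero_right, Nat.cast_one, one_mul, Nat.sub_zero]
  rw [one_div, inv_mul_cancel₀ h'.ne']

theorem Lin_adj (G : SimpleGraph V) (U : Finset V) (k d : ℕ) (S : Finset V) (u v : V) (hu : u ∈ S)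
    (hv : v ∈ S) (huv : u ≠ v) (h : ¬ G.Adj u v) : Ez G U k d S = 0 := by
  unfold Ez
  rw [if_neg]
  rintro ⟨_, h2, _⟩
  exact h (h2 u hu v hv huv)

theorem Lin_out (G : SimpleGraph V) (U : Finset V) (k d : ℕ) (S : Finset V) (h : ¬ S ⊆ U) :
    Ez G U k d S = 0 := by
  unfold Ez
  rw [if_neg]
  rintro ⟨h1, _⟩
  exact h h1

theorem Lin_cl (G : SimpleGraph V) (U : Finset V) (k d : ℕ) (S : Finset V) (h : S ∉ Cl G U S.card) :
    Ez G U k d S = 0 := by
  unfold Ez
  rw [if_neg]
  rintro ⟨h1, h2, _⟩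
  apply h
  classical
  simp only [Cl, mem_filter, mem_powersetCard]
  exact ⟨⟨h1, trivial⟩, h2⟩

end Pool.Agent.H9.SQ
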