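import Pool.Agent.H9.SQ.Psc
import Pool.Agent.H9.SQ.Lin
import Pool.Agent.H9.SQ.Hom

/-!
Module Psd.  Use only the STATEMENTS of the imported modules.
`Psd_r`: replace `c` by its restriction to `Cl G U r` (`Lin_cl`: `Ez (S ∪ T) = 0` if `S` or `T` (of size `r`) is no clique inside `U`: then `S ∪ T` is none; `|S ∪ T|` is arbitrary, use `Lin_cl` for `S ∪ T`).   `Psd_main`: `Hom_main`, `Lin_main` (`d = 2r ≤ k`), `Psd_r`.
-/

set_option autoImplicit false
set_option linter.unusedSectionVars false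

open Finset

namespace Pool.Agent.H9.SQ

open Pool.Agent.H9.KR

variable {V : Type} [Fintype V] [DecidableEq V]

/-- If the union of two sets is a clique in `U`, then so is each of them. -/
theorem Psd_sub {G : SimpleGraph V} {U : Finset V} {r a : ℕ} {S W : Finset V} (hS : S.card = r) (hSW : S ⊆ W)
    (h : W ∈ Cl G U a) : S ∈ Cl G U r := by
  classical
  rw [Cl, mem_filter, mem_powersetCard] at h ⊢
  exact ⟨⟨hSW.trans h.1.1, hS⟩, fun u hu v hv huv => h.2 u (hSW hu) v (hSW hv) huv⟩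

theorem Psd_r {G : SimpleGraph V} {U : Finset V} {n r k : ℕ} {p ε τ χ : ℝ} (H : Num n r k p ε τ χ)
    (h : Reg G U n p ε (4 * r)) (c : Finset V → ℝ) (hc : ∀ S, S.card ≠ r → c S = 0) :
    0 ≤ ∑ S, ∑ T, c S * c T * Ez G U k (2 * r) (S ∪ T) := by
  classical
  have key := Psd_cl (k := k) H h (fun S => if S ∈ Cl G U r then c S else 0)
    (fun S hS => if_neg hS)
  have e : ∑ S, ∑ T, c S * c T * Ez G U k (2 * r) (S ∪ T) =
      ∑ S, ∑ T, (if S ∈ Cl G U r then c S else 0) * (if T ∈ Cl G U r then c T else 0) *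
        Ez G U k (2 * r) (S ∪ T) := by
    refine sum_congr rfl fun S _ => sum_congr rfl fun T _ => ?_
    by_cases hS : S ∈ Cl G U r
    · by_cases hT : T ∈ Cl G U r
      · rw [if_pos hS, if_pos hT]
      · rw [if_neg hT]
        by_cases hTc : T.card = r
        · have h0 : Ez G U k (2 * r) (S ∪ T) = 0 :=
            Lin_cl G U k (2 * r) (S ∪ T) fun hW => hT (Psd_sub hTc subset_union_right hW)
          rw [h0]; ring
        · rw [hc T hTc]; ring
    · rw [if_neg hS]
      by_cases hSc : S.card = r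
      · have h0 : Ez G U k (2 * r) (S ∪ T) = 0 :=
          Lin_cl G U k (2 * r) (S ∪ T) fun hW => hS (Psd_sub hSc subset_union_left hW)
        rw [h0]; ring
      · rw [hc S hSc]; ring
  rw [e]
  exact key

theorem Psd_main {G : SimpleGraph V} {U : Finset V} {n r k : ℕ} {p ε τ χ : ℝ} (H : Num n r k p ε τ χ)
    (h : Reg G U n p ε (4 * r)) (c : Finset V → ℝ) (hc : ∀ S, r < S.card → c S = 0) :
    0 ≤ ∑ S, ∑ T, c S * c T * Ez G U k (2 * r) (S ∪ T) :=
  Hom_main (Ez G U k (2 * r)) k r H.k_ge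
    (fun S hS => Lin_main G U k (2 * r) H.k_ge S hS)
    (fun c' hc' => Psd_r H h c' hc') c hc

end Pool.Agent.H9.SQ
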