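import Pool.Agent.H9.SQ.Chg
import Pool.Agent.H9.SQ.Defs

/-!
Module Rgp.  The random graph is `Reg` on a fixed set `U`.   Use only the STATEMENTS of Chf, Chg; `rsub_gnp` (KR/Gnp.lean), `pr_exists_le_card`, `pr_mono` (KR/Defs.lean).
For `Z ⊆ U` with `j ≤ z` elements: `I = U \ Z`, `A v = Z.image (fun u => s(u, v))` (`j` pairs, disjoint for different `v ∉ Z`, inside `pairs V`), and `nb G U Z = (U \ Z).filter (A v ⊆ ed G)`; `q = p^j`, `|I| = n - j ≥ n/2` (as `2 z ≤ ε n ≤ n`).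
Failure of `up`: `(1+ε) q |I| ≤ (1+ε) n q < X`: `Chf_up`, exponent `ε² q |I| / 4 ≥ ε² n p^z / 32`.  Failure of `lo`: `X < (1-ε) n q ≤ (1-ε/2) q |I|` (as `2 z ≤ ε n`): `Chf_lo` with `ε/2`, exponent `ε² q |I| / 16 ≥ ε² n p^z / 32`.
The number of sets `Z ⊆ U` with at most `z` elements is `≤ (n+1)^z`.
-/

set_option autoImplicit false
set_option linter.unusedSectionVars false

open Finset

namespace Pool.Agent.H9.SQ

open Pool.Agent.H9.KR

theorem Rgp_count {V : Type} [Fintype V] [DecidableEq V] (U : Finset V) (z : ℕ) :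
    (((U.powerset).filter (fun Z => Z.card ≤ z)).card : ℝ) ≤ ((U.card : ℝ) + 1) ^ z := by
  induction z with
  | zero =>
    have h : (U.powerset).filter (fun Z => Z.card ≤ 0) ⊆ {∅} := by
      intro Z hZ
      have h1 := (mem_filter.1 hZ).2
      rw [mem_singleton]
      exact card_eq_zero.1 (Nat.le_zero.1 h1)
    have h2 := card_le_card h
    rw [card_singleton] at h2
    rw [pow_zero]
    exact_mod_cast h2
  | succ z ih =>
    have h : (U.powerset).filter (fun Z => Z.card ≤ z + 1) ⊆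
        ((U.powerset).filter (fun Z => Z.card ≤ z)) ∪
        ((((U.powerset).filter (fun Z => Z.card ≤ z)) ×ˢ U).image (fun x => insert x.2 x.1)) := by
      intro Z hZ
      obtain ⟨h1, h2⟩ := mem_filter.1 hZ
      rw [mem_powerset] at h1
      rw [mem_union]
      by_cases h3 : Z.card ≤ z
      · exact Or.inl (mem_filter.2 ⟨mem_powerset.2 h1, h3⟩)
      · right
        obtain ⟨u, hu⟩ : Z.Nonempty := by
          rw [← card_pos]
          omega
        rw [mem_image]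
        refine ⟨(Z.erase u, u), mem_product.2 ⟨mem_filter.2 ⟨mem_powerset.2
          ((erase_subset u Z).trans h1), ?_⟩, h1 hu⟩, insert_erase hu⟩
        rw [card_erase_of_mem hu]
        omega
    have h2 := (card_le_card h).trans ((card_union_le _ _).trans
      (Nat.add_le_add_left (card_image_le.trans (card_product _ _).le) _))
    have h3 : (((U.powerset).filter (fun Z => Z.card ≤ z + 1)).card : ℝ) ≤
        (((U.powerset).filter (fun Z => Z.card ≤ z)).card : ℝ) +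
        (((U.powerset).filter (fun Z => Z.card ≤ z)).card : ℝ) * (U.card : ℝ) := by
      exact_mod_cast h2
    refine h3.trans ?_
    rw [pow_succ]
    have h4 := mul_le_mul_of_nonneg_right ih (show (0 : ℝ) ≤ (U.card : ℝ) + 1 by positivity)
    linarith

/-- The common neighbours in `U` of `Z`. -/
theorem Rgp_nb {V : Type} [Fintype V] [DecidableEq V] (G : SimpleGraph V) (U Z : Finset V) :
    nb G U Z = (U \ Z).filter (fun v => Z.image (fun u => s(u, v)) ⊆ ed G) := by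
  classical
  ext v
  unfold nb
  rw [mem_filter, mem_filter, mem_sdiff]
  constructor
  · rintro ⟨h1, h2⟩
    refine ⟨⟨h1, fun hv => (h2 v hv).ne rfl⟩, ?_⟩
    intro e he
    obtain ⟨u, hu, rfl⟩ := mem_image.1 he
    exact mem_ed.2 (h2 u hu)
  · rintro ⟨⟨h1, _⟩, h2⟩
    exact ⟨h1, fun u hu => mem_ed.1 (h2 (mem_image_of_mem _ hu))⟩

theorem Rgp_one {V : Type} [Fintype V] [DecidableEq V] (p : unitInterval) (U : Finset V) (n z : ℕ)
    (hU : U.card = n) (ε : ℝ) (hε : 0 < ε) (hε1 : ε ≤ 1) (hz : 2 * (z : ℝ) ≤ ε * n)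
    (Z : Finset V) (hZU : Z ⊆ U) (hZ : Z.card ≤ z) :
    pr (fun G : SimpleGraph V => (SimpleGraph.binomialRandom V p).real {G})
      (fun G => (1 + ε) * (n * (p : ℝ) ^ Z.card) < ((nb G U Z).card : ℝ) ∨
        ((nb G U Z).card : ℝ) < (1 - ε) * (n * (p : ℝ) ^ Z.card)) ≤
      2 * Real.exp (-(ε ^ 2 * (n * (p : ℝ) ^ z) / 32)) := by
  classical
  have hp0 : 0 ≤ (p : ℝ) := p.2.1
  have hp1 : (p : ℝ) ≤ 1 := p.2.2
  have hR := rsub_gnp (V := V) p
  have hA : ∀ v ∈ U \ Z, Z.image (fun u => s(u, v)) ⊆ pairs V := by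
    intro v hv e he
    obtain ⟨u, hu, rfl⟩ := mem_image.1 he
    rw [mem_pairs]
    rintro rfl
    exact (mem_sdiff.1 hv).2 hu
  have hdis : ∀ v ∈ U \ Z, ∀ w ∈ U \ Z, v ≠ w →
      Disjoint (Z.image (fun u => s(u, v))) (Z.image (fun u => s(u, w))) := by
    intro v hv w hw hvw
    rw [Finset.disjoint_left]
    intro e he he'
    obtain ⟨u, hu, rfl⟩ := mem_image.1 he
    obtain ⟨u', hu', h⟩ := mem_image.1 he'
    rcases Sym2.eq_iff.1 h with ⟨_, h2⟩ | ⟨h1, _⟩
    · exact hvw h2.symm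
    · rw [h1] at hu'
      exact (mem_sdiff.1 hv).2 hu'
  have hq : ∀ v ∈ U \ Z, (p : ℝ) ^ (Z.image (fun u => s(u, v))).card = (p : ℝ) ^ Z.card := by
    intro v _
    rw [card_image_of_injective]
    intro a b hab
    exact Sym2.congr_left.1 hab
  have hq0 : 0 ≤ (p : ℝ) ^ Z.card := pow_nonneg hp0 _
  have hI1 : ((U \ Z).card : ℝ) ≤ n := by
    rw [← hU]
    exact_mod_cast card_le_card sdiff_subset
  have hI2 : (n : ℝ) - z ≤ ((U \ Z).card : ℝ) := by
    rw [card_sdiff_of_subset hZU, hU, Nat.cast_sub (by rw [← hU]; exact card_le_card hZU)]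
    have : (Z.card : ℝ) ≤ z := by exact_mod_cast hZ
    linarith
  have hn : (0 : ℝ) ≤ n := Nat.cast_nonneg n
  have hεn : ε * n ≤ n := by nlinarith
  have hI3 : (n : ℝ) / 2 ≤ ((U \ Z).card : ℝ) := by linarith
  have hpz : (p : ℝ) ^ z ≤ (p : ℝ) ^ Z.card := pow_le_pow_of_le_one hp0 hp1 hZ
  have hnp : (n : ℝ) * (p : ℝ) ^ z ≤ 2 * ((p : ℝ) ^ Z.card * ((U \ Z).card : ℝ)) := by
    have h1 := mul_le_mul_of_nonneg_left hpz hn
    have h2 := mul_le_mul_of_nonneg_left hI3 hq0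
    linarith
  have hnp0 : 0 ≤ (n : ℝ) * (p : ℝ) ^ z := mul_nonneg hn (pow_nonneg hp0 _)
  have hε2 : 0 < ε ^ 2 := pow_pos hε 2
  have hup := Chf_up hR (U \ Z) (fun v => Z.image (fun u => s(u, v))) hA hdis ((p : ℝ) ^ Z.card)
    hq0 hq ε hε hε1
  have hlo := Chf_lo hR (U \ Z) (fun v => Z.image (fun u => s(u, v))) hA hdis ((p : ℝ) ^ Z.card)
    hq0 hq (ε / 2) (by linarith) (by linarith)
  refine (pr_or_le hR.nonneg _ _).trans ?_
  rw [two_mul]
  refine add_le_add ?_ ?_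
  · refine (pr_mono hR.nonneg (fun G hG => ?_)).trans (hup.trans (Real.exp_le_exp.2 ?_))
    · rw [← Rgp_nb]
      refine le_trans ?_ hG.le
      have h1 := mul_le_mul_of_nonneg_left hI1 hq0
      have h2 : (0 : ℝ) ≤ 1 + ε := by linarith
      refine mul_le_mul_of_nonneg_left ?_ h2
      linarith
    · have h1 := mul_le_mul_of_nonneg_left hnp hε2.le
      have h2 := mul_nonneg hε2.le hnp0
      linarith
  · refine (pr_mono hR.nonneg (fun G hG => ?_)).trans (hlo.trans (Real.exp_le_exp.2 ?_))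
    · rw [← Rgp_nb]
      refine hG.le.trans ?_
      have h1 : (1 - ε) * (n : ℝ) ≤ (1 - ε / 2) * ((U \ Z).card : ℝ) := by
        have h2 : (1 - ε / 2) * (n : ℝ) ≤ ((U \ Z).card : ℝ) := by linarith
        have h3 := mul_le_mul_of_nonneg_left h2 (show (0 : ℝ) ≤ 1 - ε / 2 by linarith)
        have h4 := mul_nonneg hε2.le hn
        nlinarith
      have h2 := mul_le_mul_of_nonneg_right h1 hq0
      calc (1 - ε) * (n * (p : ℝ) ^ Z.card) = (1 - ε) * n * (p : ℝ) ^ Z.card := by ring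
        _ ≤ (1 - ε / 2) * ((U \ Z).card : ℝ) * (p : ℝ) ^ Z.card := h2
        _ = (1 - ε / 2) * ((p : ℝ) ^ Z.card * ((U \ Z).card : ℝ)) := by ring
    · have h1 := mul_le_mul_of_nonneg_left hnp hε2.le
      nlinarith

theorem Rgp_main {V : Type} [Fintype V] [DecidableEq V] (p : unitInterval) (U : Finset V) (n z : ℕ)
    (hU : U.card = n) (ε : ℝ) (hε : 0 < ε) (hε1 : ε ≤ 1) (hz : 2 * (z : ℝ) ≤ ε * n) :
    pr (fun G : SimpleGraph V => (SimpleGraph.binomialRandom V p).real {G})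
      (fun G => ¬ Reg G U n (p : ℝ) ε z) ≤
      2 * ((n : ℝ) + 1) ^ z * Real.exp (-(ε ^ 2 * (n * (p : ℝ) ^ z) / 32)) := by
  classical
  have hR := rsub_gnp (V := V) p
  have h1 := pr_exists_le_card hR.nonneg ((U.powerset).filter (fun Z => Z.card ≤ z))
    (fun Z G => (1 + ε) * (n * (p : ℝ) ^ Z.card) < ((nb G U Z).card : ℝ) ∨
        ((nb G U Z).card : ℝ) < (1 - ε) * (n * (p : ℝ) ^ Z.card))
    (2 * Real.exp (-(ε ^ 2 * (n * (p : ℝ) ^ z) / 32)))
    (fun Z hZ => Rgp_one p U n z hU ε hε hε1 hz Z (mem_powerset.1 (mem_filter.1 hZ).1)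
      (mem_filter.1 hZ).2)
  refine (pr_mono hR.nonneg (fun G hG => ?_)).trans (h1.trans ?_)
  · by_contra hcon
    push Not at hcon
    refine hG ⟨fun Z hZ hZc => ?_, fun Z hZ hZc => ?_⟩
    · exact (hcon Z (mem_filter.2 ⟨mem_powerset.2 hZ, hZc⟩)).1
    · exact (hcon Z (mem_filter.2 ⟨mem_powerset.2 hZ, hZc⟩)).2
  · have h2 := Rgp_count U z
    rw [hU] at h2
    have h3 := mul_le_mul_of_nonneg_right h2
      (show (0 : ℝ) ≤ 2 * Real.exp (-(ε ^ 2 * (n * (p : ℝ) ^ z) / 32)) by positivity)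
    linarith

end Pool.Agent.H9.SQ
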