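import Pool.Agent.H9.SQ.Stmt

/-!
Module Sem.  A pseudo-expectation excludes refutations (semantic version).
-/

set_option autoImplicit false
set_option linter.unusedSectionVars false

open Finset

namespace Pool.Agent.H9.SQ

/-- indicator -/
noncomputable def Sem_i {N : ℕ} (S K : Finset (Fin N)) : ℝ := if S ⊆ K then 1 else 0

/-- the weight of `K` -/
noncomputable def Sem_w {N : ℕ} (E : Finset (Fin N) → ℝ) (K : Finset (Fin N)) : ℝ :=
  ∑ S, (if K ⊆ S then (-1 : ℝ) ^ (S \ K).card * E S else 0)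

theorem Sem_alt {N : ℕ} (S T : Finset (Fin N)) :
    ∑ K : Finset (Fin N), (if S ⊆ K ∧ K ⊆ T then (-1 : ℝ) ^ (T \ K).card else 0) = if S = T then 1 else 0 := by
  by_cases hST : S ⊆ T
  · have h1 : ∑ K : Finset (Fin N), (if S ⊆ K ∧ K ⊆ T then (-1 : ℝ) ^ (T \ K).card else 0) =
        ∑ J ∈ (T \ S).powerset, (-1 : ℝ) ^ J.card := by
      rw [← Finset.sum_filter]
      refine Finset.sum_bij' (fun K _ => T \ K) (fun J _ => T \ J) ?_ ?_ ?_ ?_ ?_
      · intro K hK
        rw [mem_filter] at hK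
        rw [mem_powerset]
        exact sdiff_subset_sdiff (Subset.refl _) hK.2.1
      · intro J hJ
        rw [mem_powerset] at hJ
        rw [mem_filter]
        refine ⟨mem_univ _, ?_, sdiff_subset⟩
        intro x hx
        rw [mem_sdiff]
        exact ⟨hST hx, fun h => (mem_sdiff.1 (hJ h)).2 hx⟩
      · intro K hK
        rw [mem_filter] at hK
        rw [Finset.sdiff_sdiff_eq_self hK.2.2]
      · intro J hJ
        rw [mem_powerset] at hJ
        rw [Finset.sdiff_sdiff_eq_self (hJ.trans sdiff_subset)]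
      · intro K hK
        rfl
    rw [h1]
    have h2 := Finset.sum_powerset_neg_one_pow_card (x := T \ S)
    have h3 : ∑ J ∈ (T \ S).powerset, (-1 : ℝ) ^ J.card = ((∑ J ∈ (T \ S).powerset, (-1 : ℤ) ^ J.card : ℤ) : ℝ) := by
      push_cast
      rfl
    rw [h3, h2]
    by_cases h4 : S = T
    · subst h4
      simp
    · rw [if_neg h4, if_neg]
      · simp
      · intro h5
        rw [sdiff_eq_empty_iff_subset] at h5
        exact h4 (Subset.antisymm hST h5)
  · have h4 : S ≠ T := fun h => hST (h ▸ Subset.refl _)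
    rw [if_neg h4]
    refine Finset.sum_eq_zero fun K _ => if_neg ?_
    exact fun h => hST (h.1.trans h.2)

theorem Sem_inv {N : ℕ} (E : Finset (Fin N) → ℝ) (S : Finset (Fin N)) :
    ∑ K, Sem_w E K * Sem_i S K = E S := by
  have h1 : ∀ K, Sem_w E K * Sem_i S K = ∑ T, (if S ⊆ K ∧ K ⊆ T then (-1 : ℝ) ^ (T \ K).card else 0) * E T := by
    intro K
    unfold Sem_w Sem_i
    rw [Finset.sum_mul]
    refine Finset.sum_congr rfl fun T _ => ?_
    by_cases h1 : K ⊆ T <;> by_cases h2 : S ⊆ K <;> simp [h1, h2]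
  rw [Finset.sum_congr rfl fun K _ => h1 K, Finset.sum_comm]
  have h2 : ∀ T, ∑ K, (if S ⊆ K ∧ K ⊆ T then (-1 : ℝ) ^ (T \ K).card else 0) * E T =
      if S = T then E T else 0 := by
    intro T
    rw [← Finset.sum_mul, Sem_alt]
    split_ifs <;> simp
  rw [Finset.sum_congr rfl fun T _ => h2 T, Finset.sum_ite_eq]
  simp

theorem Sem_mul {N : ℕ} (S T K : Finset (Fin N)) : Sem_i S K * Sem_i T K = Sem_i (S ∪ T) K := by
  unfold Sem_i
  by_cases h1 : S ⊆ K <;> by_cases h2 : T ⊆ K <;> simp [h1, h2, union_subset_iff]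

theorem Sem_card {N : ℕ} (K : Finset (Fin N)) : (K.card : ℝ) = ∑ v, Sem_i {v} K := by
  unfold Sem_i
  simp only [singleton_subset_iff]
  rw [Finset.sum_ite_mem, univ_inter]
  simp

theorem Sem_val {N : ℕ} (U : Finset (Fin N)) (t : Finset (Fin N) × Finset (Fin N)) (K : Finset (Fin N))
    (hK : K ⊆ U) : val t K = if t.1 ⊆ U then
      ∑ J ∈ (t.2 ∩ U).powerset, (-1 : ℝ) ^ J.card * Sem_i (t.1 ∪ J) K else 0 := by
  classical
  split_ifs with h1
  · have h2 : ∀ J, Sem_i (t.1 ∪ J) K = Sem_i t.1 K * Sem_i J K := fun J => (Sem_mul _ _ _).symm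
    have h3 : ∑ J ∈ (t.2 ∩ U).powerset, (-1 : ℝ) ^ J.card * Sem_i J K = ∑ J ∈ (t.2 ∩ K).powerset, (-1 : ℝ) ^ J.card := by
      unfold Sem_i
      have h4 : ∀ J : Finset (Fin N), (-1 : ℝ) ^ J.card * (if J ⊆ K then 1 else 0) = if J ⊆ K then (-1 : ℝ) ^ J.card else 0 := by
        intro J
        split_ifs <;> simp
      rw [Finset.sum_congr rfl fun J _ => h4 J, ← Finset.sum_filter]
      refine Finset.sum_congr ?_ fun _ _ => rfl
      ext J
      rw [mem_filter, mem_powerset, mem_powerset, subset_inter_iff, subset_inter_iff]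
      constructor
      · exact fun h => ⟨h.1.1, h.2⟩
      · exact fun h => ⟨⟨h.1, h.2.trans hK⟩, h.2⟩
    have h5 : ∑ J ∈ (t.2 ∩ U).powerset, (-1 : ℝ) ^ J.card * Sem_i (t.1 ∪ J) K =
        Sem_i t.1 K * ∑ J ∈ (t.2 ∩ U).powerset, (-1 : ℝ) ^ J.card * Sem_i J K := by
      rw [Finset.mul_sum]
      refine Finset.sum_congr rfl fun J _ => ?_
      rw [h2]
      ring
    rw [h5, h3]
    have h6 := Finset.sum_powerset_neg_one_pow_card (x := t.2 ∩ K)
    have h7 : ∑ J ∈ (t.2 ∩ K).powerset, (-1 : ℝ) ^ J.card = ((∑ J ∈ (t.2 ∩ K).powerset, (-1 : ℤ) ^ J.card : ℤ) : ℝ) := by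
      push_cast
      rfl
    rw [h7, h6]
    unfold val Sem_i
    by_cases h8 : t.1 ⊆ K <;> by_cases h9 : Disjoint t.2 K
    · rw [if_pos ⟨h8, h9⟩, if_pos h8, if_pos (disjoint_iff_inter_eq_empty.1 h9)]
      simp
    · rw [if_neg (fun h => h9 h.2), if_neg (fun h => h9 (disjoint_iff_inter_eq_empty.2 h))]
      simp
    · rw [if_neg (fun h => h8 h.1), if_neg h8]
      simp
    · rw [if_neg (fun h => h8 h.1), if_neg h8]
      simp
  · unfold val
    rw [if_neg]
    exact fun h => h1 (h.1.trans hK)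

theorem Sem_lin {N : ℕ} (r : ℕ) (U : Finset (Fin N)) (M : Finset (Finset (Fin N) × Finset (Fin N)))
    (hM : ∀ t ∈ M, t.1 ⊆ U → (t.1 ∪ (t.2 ∩ U)).card < r) (α : Finset (Fin N) × Finset (Fin N) → ℝ) :
    ∃ c : Finset (Fin N) → ℝ, (∀ S, r ≤ S.card → c S = 0) ∧
      ∀ K ⊆ U, ∑ t ∈ M, α t * val t K = ∑ S, c S * Sem_i S K := by
  classical
  refine ⟨fun S => ∑ t ∈ M, if t.1 ⊆ U then α t * ∑ J ∈ (t.2 ∩ U).powerset,
    (if t.1 ∪ J = S then (-1 : ℝ) ^ J.card else 0) else 0, fun S hS => ?_, fun K hK => ?_⟩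
  · refine Finset.sum_eq_zero fun t ht => ?_
    split_ifs with h1
    · rw [Finset.sum_eq_zero, mul_zero]
      intro J hJ
      rw [if_neg]
      intro h2
      rw [mem_powerset] at hJ
      have h3 := hM t ht h1
      have h4 : S.card ≤ (t.1 ∪ (t.2 ∩ U)).card := by
        rw [← h2]
        exact card_le_card (union_subset_union (Subset.refl _) hJ)
      omega
    · rfl
  · have h1 : ∀ S, (∑ t ∈ M, if t.1 ⊆ U then α t * ∑ J ∈ (t.2 ∩ U).powerset,
        (if t.1 ∪ J = S then (-1 : ℝ) ^ J.card else 0) else 0) * Sem_i S K =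
        ∑ t ∈ M, if t.1 ⊆ U then α t * ∑ J ∈ (t.2 ∩ U).powerset,
        (if t.1 ∪ J = S then (-1 : ℝ) ^ J.card * Sem_i S K else 0) else 0 := by
      intro S
      rw [Finset.sum_mul]
      refine Finset.sum_congr rfl fun t _ => ?_
      split_ifs with h2
      · rw [mul_assoc, Finset.sum_mul]
        congr 1
        refine Finset.sum_congr rfl fun J _ => ?_
        split_ifs <;> simp
      · simp
    rw [Finset.sum_congr rfl fun S _ => h1 S, Finset.sum_comm]
    refine Finset.sum_congr rfl fun t _ => ?_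
    rw [Sem_val U t K hK]
    split_ifs with h2
    · rw [← Finset.mul_sum, Finset.sum_comm]
      congr 1
      refine Finset.sum_congr rfl fun J _ => ?_
      rw [Finset.sum_ite_eq]
      simp
    · simp

theorem Sem_main {N : ℕ} (G : SimpleGraph (Fin N)) (k r : ℕ) (hr : 1 ≤ r) (U : Finset (Fin N))
    (E : Finset (Fin N) → ℝ) (h1 : E ∅ = 1)
    (hlin : ∀ S : Finset (Fin N), S.card < 2 * r → ∑ v ∈ univ \ S, E (insert v S) = ((k : ℝ) - S.card) * E S)
    (hadj : ∀ (S : Finset (Fin N)) (u v : Fin N), u ∈ S → v ∈ S → u ≠ v → ¬ G.Adj u v → E S = 0)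
    (hout : ∀ S : Finset (Fin N), ¬ S ⊆ U → E S = 0)
    (hpsd : ∀ c : Finset (Fin N) → ℝ, (∀ S, r < S.card → c S = 0) → 0 ≤ ∑ S, ∑ T, c S * c T * E (S ∪ T))
    (M : Finset (Finset (Fin N) × Finset (Fin N)))
    (hM : ∀ t ∈ M, t.1 ⊆ U → (t.1 ∪ (t.2 ∩ U)).card < r) : ¬ SumOfSquares G k M := by
  classical
  rintro ⟨m, q, a, h⟩
  have hw1 : ∀ K, ¬ K ⊆ U → Sem_w E K = 0 := by
    intro K hK
    unfold Sem_w
    refine Finset.sum_eq_zero fun S _ => ?_
    split_ifs with h2
    · rw [hout S (fun h3 => hK (h2.trans h3)), mul_zero]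
    · rfl
  have hw2 : ∀ K : Finset (Fin N), ¬ G.IsClique (K : Set (Fin N)) → Sem_w E K = 0 := by
    intro K hK
    rw [SimpleGraph.isClique_iff, Set.Pairwise] at hK
    push Not at hK
    obtain ⟨u, hu, v, hv, huv, hadj'⟩ := hK
    unfold Sem_w
    refine Finset.sum_eq_zero fun S _ => ?_
    split_ifs with h2
    · rw [hadj S u v (h2 (mem_coe.1 hu)) (h2 (mem_coe.1 hv)) huv hadj', mul_zero]
    · rfl
  have hfun : ∀ c : Finset (Fin N) → ℝ, ∑ K, Sem_w E K * ∑ S, c S * Sem_i S K = ∑ S, c S * E S := by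
    intro c
    have h2 : ∀ K, Sem_w E K * ∑ S, c S * Sem_i S K = ∑ S, c S * (Sem_w E K * Sem_i S K) := by
      intro K
      rw [Finset.mul_sum]
      exact Finset.sum_congr rfl fun S _ => by ring
    rw [Finset.sum_congr rfl fun K _ => h2 K, Finset.sum_comm]
    refine Finset.sum_congr rfl fun S _ => ?_
    rw [← Finset.mul_sum, Sem_inv]
  -- the squares
  have hsq : ∀ i, 0 ≤ ∑ K, Sem_w E K * (∑ t ∈ M, q i t * val t K) ^ 2 := by
    intro i
    obtain ⟨c, hc, hcK⟩ := Sem_lin r U M hM (q i)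
    have h2 : ∀ K, Sem_w E K * (∑ t ∈ M, q i t * val t K) ^ 2 =
        ∑ S, ∑ T, c S * c T * (Sem_w E K * Sem_i (S ∪ T) K) := by
      intro K
      by_cases hK : K ⊆ U
      · rw [hcK K hK, sq, Finset.sum_mul_sum, Finset.mul_sum]
        refine Finset.sum_congr rfl fun S _ => ?_
        rw [Finset.mul_sum]
        refine Finset.sum_congr rfl fun T _ => ?_
        rw [← Sem_mul]
        ring
      · rw [hw1 K hK]
        simp
    rw [Finset.sum_congr rfl fun K _ => h2 K, Finset.sum_comm]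
    have h3 : ∀ S, ∑ K, ∑ T, c S * c T * (Sem_w E K * Sem_i (S ∪ T) K) = ∑ T, c S * c T * E (S ∪ T) := by
      intro S
      rw [Finset.sum_comm]
      refine Finset.sum_congr rfl fun T _ => ?_
      rw [← Finset.mul_sum, Sem_inv]
    rw [Finset.sum_congr rfl fun S _ => h3 S]
    exact hpsd c (fun S hS => hc S hS.le)
  -- the linear constraint
  have hli : ∑ K, Sem_w E K * ((∑ t ∈ M, a t * val t K) * ((K.card : ℝ) - k)) = 0 := by
    obtain ⟨c, hc, hcK⟩ := Sem_lin r U M hM a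
    have h2 : ∀ K, Sem_w E K * ((∑ t ∈ M, a t * val t K) * ((K.card : ℝ) - k)) =
        ∑ S, c S * (∑ v, Sem_w E K * Sem_i (insert v S) K - k * (Sem_w E K * Sem_i S K)) := by
      intro K
      by_cases hK : K ⊆ U
      · rw [hcK K hK, Finset.sum_mul, Finset.mul_sum]
        refine Finset.sum_congr rfl fun S _ => ?_
        have h3 : ∑ v, Sem_w E K * Sem_i (insert v S) K = Sem_w E K * (Sem_i S K * K.card) := by
          rw [Sem_card K, Finset.mul_sum, Finset.mul_sum]
          refine Finset.sum_congr rfl fun v _ => ?_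
          rw [Sem_mul, union_comm, ← insert_eq]
        rw [h3]
        ring
      · rw [hw1 K hK]
        simp
    rw [Finset.sum_congr rfl fun K _ => h2 K, Finset.sum_comm]
    refine Finset.sum_eq_zero fun S _ => ?_
    rw [← Finset.mul_sum]
    by_cases hS : r ≤ S.card
    · rw [hc S hS, zero_mul]
    · rw [Finset.sum_sub_distrib, Finset.sum_comm, ← Finset.mul_sum, Sem_inv]
      have h4 : ∀ v, ∑ K, Sem_w E K * Sem_i (insert v S) K = E (insert v S) := fun v => Sem_inv E _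
      rw [Finset.sum_congr rfl fun v _ => h4 v]
      have h5 : ∑ v, E (insert v S) = S.card * E S + ∑ v ∈ univ \ S, E (insert v S) := by
        rw [← Finset.sum_sdiff (subset_univ S), add_comm]
        congr 1
        have h6 : ∀ v ∈ S, E (insert v S) = E S := fun v hv => by rw [insert_eq_of_mem hv]
        rw [Finset.sum_congr rfl h6, Finset.sum_const, nsmul_eq_mul]
      rw [h5, hlin S (by omega)]
      ring
  have hall : ∑ K, Sem_w E K * (∑ i, (∑ t ∈ M, q i t * val t K) ^ 2 +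
      (∑ t ∈ M, a t * val t K) * ((K.card : ℝ) - k)) = ∑ K, Sem_w E K * (-1) := by
    refine Finset.sum_congr rfl fun K _ => ?_
    by_cases hK : G.IsClique (K : Set (Fin N))
    · rw [h K hK]
    · rw [hw2 K hK]
      simp
  have hone : ∑ K, Sem_w E K = 1 := by
    have h2 := Sem_inv E ∅
    rw [h1] at h2
    rw [← h2]
    refine Finset.sum_congr rfl fun K _ => ?_
    simp [Sem_i]
  have hexp : ∑ K, Sem_w E K * (∑ i, (∑ t ∈ M, q i t * val t K) ^ 2 +
      (∑ t ∈ M, a t * val t K) * ((K.card : ℝ) - k)) =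
      ∑ i, ∑ K, Sem_w E K * (∑ t ∈ M, q i t * val t K) ^ 2 +
      ∑ K, Sem_w E K * ((∑ t ∈ M, a t * val t K) * ((K.card : ℝ) - k)) := by
    rw [Finset.sum_comm, ← Finset.sum_add_distrib]
    refine Finset.sum_congr rfl fun K _ => ?_
    rw [mul_add, Finset.mul_sum]
  rw [hexp, hli, add_zero] at hall
  have h9 : 0 ≤ ∑ i, ∑ K, Sem_w E K * (∑ t ∈ M, q i t * val t K) ^ 2 := Finset.sum_nonneg fun i _ => hsq i
  rw [← Finset.sum_mul, hone] at hall
  linarith

end Pool.Agent.H9.SQ
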