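import Pool.Agent.H9.SQ.Fzn

/-!
Module Bzn.  The numbers `bz`.  No graphs.   Use only the STATEMENTS of Fzn.
`bz_succ`: with `m = 2r-s`: `C(k,m) m = C(k,m-1)(k-m+1)`, the same for `C(2r,m)` (so `kap m = kap (m-1) (k-m+1)/(s+1)`), `Fz_succ` for `Fz (s+1) (m-1)`, and `(r-s)^2 = (r-s-1)^2 + 2(r-s) - 1`, `m - 1 = 2(r-s) - 1 + s`;
so `b_s n p^s = b_(s+1) (k-2r+s+1)`.  `bz_mul`: downward induction on `s` from `bz_succ` and `Fz_succ`, `C(k-r,j+1)(j+1) = C(k-r,j)(k-r-j)`, `j = r - s - 1`.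
-/

set_option autoImplicit false
set_option linter.unusedSectionVars false

open Finset

namespace Pool.Agent.H9.SQ

open Pool.Agent.H9.KR

theorem bz_pos {n : ℕ} {p : ℝ} (hn : 1 ≤ n) (hp : 0 < p) {k r : ℕ} (hk : 2 * r ≤ k) {Nd : ℝ} (hN : 0 < Nd)
    (s : ℕ) (hs : s ≤ r) : 0 < bz n p k r Nd s := by
  unfold bz kap
  have h1 : 0 < Fz n p s (2 * r - s) := Fz_pos hn hp _ _
  have h2 : (0 : ℝ) < (k.choose (2 * r - s) : ℝ) := by
    exact_mod_cast Nat.choose_pos (by omega)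
  have h3 : (0 : ℝ) < ((2 * r).choose (2 * r - s) : ℝ) := by
    exact_mod_cast Nat.choose_pos (by omega)
  have h4 : 0 < p ^ ((r - s) ^ 2) := pow_pos hp _
  exact mul_pos (mul_pos (div_pos h2 (mul_pos h3 hN)) h1) h4

theorem Bzn_choose (N j : ℕ) (hj : j ≤ N) :
    (N.choose (j + 1) : ℝ) * ((j : ℝ) + 1) = (N.choose j : ℝ) * ((N : ℝ) - j) := by
  have h := Nat.choose_succ_right_eq N j
  have h2 : ((N.choose (j + 1) * (j + 1) : ℕ) : ℝ) = ((N.choose j * (N - j) : ℕ) : ℝ) := by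
    rw [h]
  rw [Nat.cast_mul, Nat.cast_mul, Nat.cast_add, Nat.cast_one, Nat.cast_sub hj] at h2
  exact h2

theorem Bzn_kap {k r : ℕ} (hk : 2 * r ≤ k) {Nd : ℝ} (hN : 0 < Nd) (m : ℕ) (hm : m < 2 * r) :
    kap k (2 * r) Nd (m + 1) * (2 * (r : ℝ) - m) = kap k (2 * r) Nd m * ((k : ℝ) - m) := by
  unfold kap
  have h1 := Bzn_choose k m (by omega)
  have h2 := Bzn_choose (2 * r) m (by omega)
  have h3 : (0 : ℝ) < ((2 * r).choose (m + 1) : ℝ) := by
    exact_mod_cast Nat.choose_pos (by omega)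
  have h4 : (0 : ℝ) < ((2 * r).choose m : ℝ) := by
    exact_mod_cast Nat.choose_pos (by omega)
  have h5 : (0 : ℝ) < (m : ℝ) + 1 := by positivity
  rw [Nat.cast_mul, Nat.cast_ofNat] at h2
  rw [div_mul_eq_mul_div, div_mul_eq_mul_div, div_eq_div_iff (by positivity) (by positivity)]
  have h6 : ((k.choose (m + 1) : ℝ) * (2 * (r : ℝ) - m) * (((2 * r).choose m : ℝ) * Nd)) * ((m : ℝ) + 1) =
      ((k.choose m : ℝ) * ((k : ℝ) - m) * (((2 * r).choose (m + 1) : ℝ) * Nd)) * ((m : ℝ) + 1) := by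
    calc ((k.choose (m + 1) : ℝ) * (2 * (r : ℝ) - m) * (((2 * r).choose m : ℝ) * Nd)) * ((m : ℝ) + 1)
        = ((k.choose (m + 1) : ℝ) * ((m : ℝ) + 1)) * ((((2 * r).choose m : ℝ)) * (2 * (r : ℝ) - m)) * Nd := by
          ring
      _ = ((k.choose m : ℝ) * ((k : ℝ) - m)) * ((((2 * r).choose (m + 1) : ℝ)) * ((m : ℝ) + 1)) * Nd := by
          rw [h1, ← h2]
      _ = _ := by ring
  exact mul_right_cancel₀ h5.ne' h6

theorem bz_succ {n : ℕ} {p : ℝ} (hn : 1 ≤ n) (hp : 0 < p) {k r : ℕ} (hk : 2 * r ≤ k) {Nd : ℝ} (hN : 0 < Nd)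
    (s : ℕ) (hs : s < r) :
    bz n p k r Nd s * (n * p ^ s) = bz n p k r Nd (s + 1) * ((k : ℝ) - 2 * r + s + 1) := by
  obtain ⟨m, hm⟩ : ∃ m, 2 * r - s = m + 1 := ⟨2 * r - s - 1, by omega⟩
  have hm' : 2 * r - (s + 1) = m := by omega
  have hmr : (m : ℝ) = 2 * (r : ℝ) - s - 1 := by
    have h : m + 1 + s = 2 * r := by omega
    have h' : ((m + 1 + s : ℕ) : ℝ) = ((2 * r : ℕ) : ℝ) := by rw [h]
    push_cast at h'
    linarith
  have hexp : (r - s) ^ 2 + s = (r - (s + 1)) ^ 2 + m := by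
    obtain ⟨a, ha⟩ : ∃ a, r = s + 1 + a := ⟨r - (s + 1), by omega⟩
    have h1 : r - s = a + 1 := by omega
    have h2 : r - (s + 1) = a := by omega
    have h3 : m = s + 1 + 2 * a := by omega
    rw [h1, h2, h3]
    ring
  have hpow : p ^ ((r - s) ^ 2) * p ^ s = p ^ ((r - (s + 1)) ^ 2) * p ^ m := by
    rw [← pow_add, ← pow_add, hexp]
  have hF := Fz_succ n p s m
  have hK := Bzn_kap hk hN m (by omega)
  have hs1 : (0 : ℝ) < (s : ℝ) + 1 := by positivity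
  have e1 : 2 * (r : ℝ) - m = (s : ℝ) + 1 := by rw [hmr]; ring
  have e2 : (k : ℝ) - m = (k : ℝ) - 2 * r + s + 1 := by rw [hmr]; ring
  rw [e1, e2] at hK
  unfold bz
  rw [hm, hm']
  have key : (kap k (2 * r) Nd (m + 1) * Fz n p s (m + 1) * p ^ ((r - s) ^ 2) * (n * p ^ s)) * ((s : ℝ) + 1) =
      (kap k (2 * r) Nd m * Fz n p (s + 1) m * p ^ ((r - (s + 1)) ^ 2) * ((k : ℝ) - 2 * r + s + 1)) *
        ((s : ℝ) + 1) := by
    calc (kap k (2 * r) Nd (m + 1) * Fz n p s (m + 1) * p ^ ((r - s) ^ 2) * (n * p ^ s)) * ((s : ℝ) + 1)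
        = (kap k (2 * r) Nd (m + 1) * ((s : ℝ) + 1)) * Fz n p s (m + 1) * n *
            (p ^ ((r - s) ^ 2) * p ^ s) := by ring
      _ = (kap k (2 * r) Nd m * ((k : ℝ) - 2 * r + s + 1)) * Fz n p s (m + 1) * n *
            (p ^ ((r - (s + 1)) ^ 2) * p ^ m) := by rw [hK, hpow]
      _ = kap k (2 * r) Nd m * ((k : ℝ) - 2 * r + s + 1) * p ^ ((r - (s + 1)) ^ 2) *
            (n * p ^ m * Fz n p s (m + 1)) := by ring
      _ = kap k (2 * r) Nd m * ((k : ℝ) - 2 * r + s + 1) * p ^ ((r - (s + 1)) ^ 2) *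
            (((s : ℝ) + 1) * Fz n p (s + 1) m) := by rw [← hF]
      _ = _ := by ring
  exact mul_right_cancel₀ hs1.ne' key

theorem bz_le {n : ℕ} {p : ℝ} (hn : 1 ≤ n) (hp : 0 < p) (hp1 : p ≤ 1) {k r : ℕ} (hk : 2 * r ≤ k) {Nd : ℝ}
    (hN : 0 < Nd) (s : ℕ) (hs : s < r) :
    bz n p k r Nd s ≤ (k / (n * p ^ r)) * bz n p k r Nd (s + 1) := by
  have hn' : (0 : ℝ) < n := by exact_mod_cast hn
  have h1 := bz_succ hn hp hk hN s hs
  have h2 : 0 < bz n p k r Nd (s + 1) := bz_pos hn hp hk hN (s + 1) (by omega)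
  have h3 : 0 < bz n p k r Nd s := bz_pos hn hp hk hN s (by omega)
  have hpr : p ^ r ≤ p ^ s := pow_le_pow_of_le_one hp.le hp1 (by omega)
  have hpr0 : 0 < p ^ r := pow_pos hp r
  have hsr : (s : ℝ) + 1 ≤ r := by
    have : s + 1 ≤ r := by omega
    exact_mod_cast this
  have hr0 : (0 : ℝ) ≤ r := by positivity
  have h4 : bz n p k r Nd s * (n * p ^ r) ≤ bz n p k r Nd (s + 1) * k := by
    calc bz n p k r Nd s * (n * p ^ r) ≤ bz n p k r Nd s * (n * p ^ s) :=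
          mul_le_mul_of_nonneg_left (mul_le_mul_of_nonneg_left hpr hn'.le) h3.le
      _ = bz n p k r Nd (s + 1) * ((k : ℝ) - 2 * r + s + 1) := h1
      _ ≤ bz n p k r Nd (s + 1) * k := mul_le_mul_of_nonneg_left (by linarith) h2.le
  have h5 : 0 < (n : ℝ) * p ^ r := mul_pos hn' hpr0
  rw [div_mul_eq_mul_div, le_div_iff₀ h5]
  linarith

theorem Bzn_mul {n : ℕ} {p : ℝ} (hn : 1 ≤ n) (hp : 0 < p) {k r : ℕ} (hk : 2 * r ≤ k) {Nd : ℝ} (hN : 0 < Nd)
    (j : ℕ) (hj : j ≤ r) :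
    bz n p k r Nd (r - j) * Fz n p j (r - j) = bz n p k r Nd r * ((k - r).choose j : ℝ) := by
  induction j with
  | zero => simp [Fz_zero]
  | succ j ih =>
    have ih' := ih (by omega)
    obtain ⟨s, hs⟩ : ∃ s, r - (j + 1) = s := ⟨_, rfl⟩
    have hs1 : r - j = s + 1 := by omega
    rw [hs1] at ih'
    rw [hs]
    have h1 := bz_succ hn hp hk hN s (by omega)
    have h2 := Fz_succ n p j s
    have h3 := Bzn_choose (k - r) j (by omega)
    have hkr : ((k - r : ℕ) : ℝ) = (k : ℝ) - r := by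
      rw [Nat.cast_sub (by omega)]
    have hsr : (s : ℝ) = (r : ℝ) - j - 1 := by
      have h : s + j + 1 = r := by omega
      have h' : ((s + j + 1 : ℕ) : ℝ) = (r : ℝ) := by rw [h]
      push_cast at h'
      linarith
    have e1 : (k : ℝ) - 2 * r + s + 1 = (k : ℝ) - r - j := by rw [hsr]; ring
    rw [hkr] at h3
    rw [e1] at h1
    have hj1 : (0 : ℝ) < (j : ℝ) + 1 := by positivity
    have key : (bz n p k r Nd s * Fz n p (j + 1) s) * ((j : ℝ) + 1) =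
        (bz n p k r Nd r * ((k - r).choose (j + 1) : ℝ)) * ((j : ℝ) + 1) := by
      calc (bz n p k r Nd s * Fz n p (j + 1) s) * ((j : ℝ) + 1)
          = bz n p k r Nd s * (((j : ℝ) + 1) * Fz n p (j + 1) s) := by ring
        _ = bz n p k r Nd s * (n * p ^ s * Fz n p j (s + 1)) := by rw [h2]
        _ = (bz n p k r Nd s * (n * p ^ s)) * Fz n p j (s + 1) := by ring
        _ = (bz n p k r Nd (s + 1) * Fz n p j (s + 1)) * ((k : ℝ) - r - j) := by rw [h1]; ring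
        _ = bz n p k r Nd r * (((k - r).choose j : ℝ) * ((k : ℝ) - r - j)) := by rw [ih']; ring
        _ = bz n p k r Nd r * (((k - r).choose (j + 1) : ℝ) * ((j : ℝ) + 1)) := by rw [← h3]
        _ = _ := by ring
    exact mul_right_cancel₀ hj1.ne' key

theorem bz_mul {n : ℕ} {p : ℝ} (hn : 1 ≤ n) (hp : 0 < p) {k r : ℕ} (hk : 2 * r ≤ k) {Nd : ℝ} (hN : 0 < Nd)
    (s : ℕ) (hs : s ≤ r) :
    bz n p k r Nd s * Fz n p (r - s) s = bz n p k r Nd r * ((k - r).choose (r - s) : ℝ) := by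
  have h := Bzn_mul hn hp hk hN (r - s) (by omega)
  have h1 : r - (r - s) = s := by omega
  rw [h1] at h
  exact h

end Pool.Agent.H9.SQ
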