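import Pool.Agent.H9.KR.Gnp

/-!
Module Chf.  Two-sided Chernoff bound for disjoint sets in a random subset (model: `Pool/Agent/H9/KR/Lo.lean`, `Lo_gen`, `Lo_markov`, `lower`, and `KR.Bern`).
`Chf_gen`: copy the proof of `KR.Lo_gen` with `1 + c * [A i ⊆ R o]` in place of `1 - [A i ⊆ R o]/2`.   So `E ∏ (1 + c [A i ⊆ R]) = (1 + c q)^m ≤ exp (c q m)`, `m = I.card`, and `∏ = (1+c)^X`, `X` the number of `i` with `A i ⊆ R`.
`Chf_up`: `c = ε/2`: `P(X ≥ y) (1+c)^y ≤ exp (c q m)`, `log (1+c) ≥ c - c²/2`: exponent `≤ q m (-ε c + c²) = - ε² q m / 4`.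
`Chf_lo`: `c = -ε/2`: `P(X ≤ y) (1-ε/2)^y ≤ exp (-(ε/2) q m)`, `-log (1-x) ≤ x + x²` for `0 ≤ x ≤ 1/2`: exponent `≤ - ε² q m / 4`.
-/

set_option autoImplicit false
set_option linter.unusedSectionVars false

open Finset

namespace Pool.Agent.H9.SQ

open Pool.Agent.H9.KR

theorem Chf_gen {Ω E : Type} [Fintype Ω] [DecidableEq E] {w : Ω → ℝ} {R : Ω → Finset E} {E₀ : Finset E}
    {p : ℝ} (h : RSub w R E₀ p) (c : ℝ) {ι : Type} (A : ι → Finset E) (I : Finset ι)
    (hA : ∀ i ∈ I, A i ⊆ E₀) (hdis : ∀ i ∈ I, ∀ j ∈ I, i ≠ j → Disjoint (A i) (A j))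
    (B : Finset E) (hB : B ⊆ E₀) (hBA : ∀ i ∈ I, Disjoint B (A i)) :
    ∑ o, w o * (if B ⊆ R o then 1 else 0) * ∏ i ∈ I, (1 + c * (if A i ⊆ R o then (1 : ℝ) else 0)) =
      p ^ B.card * ∏ i ∈ I, (1 + c * p ^ (A i).card) := by
  classical
  induction I using Finset.induction_on generalizing B with
  | empty =>
    have h1 := h.hit B hB
    unfold pr at h1
    simp only [Finset.prod_empty, mul_one]
    rw [← h1]
    refine Finset.sum_congr rfl fun o _ => ?_
    split_ifs <;> simp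
  | insert i I hi ih =>
    have hA' : ∀ j ∈ I, A j ⊆ E₀ := fun j hj => hA j (mem_insert_of_mem hj)
    have hdis' : ∀ j ∈ I, ∀ l ∈ I, j ≠ l → Disjoint (A j) (A l) :=
      fun j hj l hl => hdis j (mem_insert_of_mem hj) l (mem_insert_of_mem hl)
    have hne : ∀ j ∈ I, i ≠ j := by
      rintro j hj rfl
      exact hi hj
    have e1 := ih hA' hdis' B hB (fun j hj => hBA j (mem_insert_of_mem hj))
    have e2 := ih hA' hdis' (B ∪ A i) (union_subset hB (hA i (mem_insert_self i I)))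
      (fun j hj => by
        rw [Finset.disjoint_union_left]
        exact ⟨hBA j (mem_insert_of_mem hj),
          hdis i (mem_insert_self i I) j (mem_insert_of_mem hj) (hne j hj)⟩)
    rw [card_union_of_disjoint (hBA i (mem_insert_self i I)), pow_add] at e2
    rw [Finset.prod_insert hi]
    have e3 : ∀ o, w o * (if B ⊆ R o then 1 else 0) *
        ∏ j ∈ insert i I, (1 + c * (if A j ⊆ R o then (1 : ℝ) else 0)) =
        w o * (if B ⊆ R o then 1 else 0) * ∏ j ∈ I, (1 + c * (if A j ⊆ R o then (1 : ℝ) else 0)) +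
        c * (w o * (if B ∪ A i ⊆ R o then 1 else 0) *
          ∏ j ∈ I, (1 + c * (if A j ⊆ R o then (1 : ℝ) else 0))) := by
      intro o
      rw [Finset.prod_insert hi]
      by_cases h1 : B ⊆ R o <;> by_cases h2 : A i ⊆ R o
      · rw [if_pos h1, if_pos h2, if_pos (union_subset h1 h2)]
        ring
      · rw [if_pos h1, if_neg h2, if_neg (fun h3 => h2 (subset_union_right.trans h3))]
        ring
      · rw [if_neg h1, if_neg (fun h3 => h1 (subset_union_left.trans h3))]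
        ring
      · rw [if_neg h1, if_neg (fun h3 => h1 (subset_union_left.trans h3))]
        ring
    rw [Finset.sum_congr rfl fun o _ => e3 o, Finset.sum_add_distrib, ← Finset.mul_sum, e1, e2]
    ring

/-- `log (1 + c) ≥ c - c ^ 2 / 2`. -/
theorem Chf_log {c : ℝ} (hc : 0 ≤ c) : c - c ^ 2 / 2 ≤ Real.log (1 + c) := by
  refine le_trans ?_ (Real.le_log_one_add_of_nonneg hc)
  rw [le_div_iff₀ (by linarith)]
  have h1 : 0 ≤ c ^ 3 := by positivity
  nlinarith

theorem Chf_markov {Ω E : Type} [Fintype Ω] [DecidableEq E] {w : Ω → ℝ} {R : Ω → Finset E}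
    (hw : ∀ o, 0 ≤ w o) {c : ℝ} (hc : 0 ≤ c) {ι : Type} (A : ι → Finset E) (I : Finset ι) (y : ℝ) :
    pr w (fun o => y ≤ ((I.filter (fun i => A i ⊆ R o)).card : ℝ)) *
      Real.exp (y * Real.log (1 + c)) ≤
      ∑ o, w o * ∏ i ∈ I, (1 + c * (if A i ⊆ R o then (1 : ℝ) else 0)) := by
  classical
  unfold pr
  rw [Finset.sum_mul]
  refine Finset.sum_le_sum fun o _ => ?_
  have e : ∏ i ∈ I, (1 + c * (if A i ⊆ R o then (1 : ℝ) else 0)) =
      Real.exp (((I.filter (fun i => A i ⊆ R o)).card : ℝ) * Real.log (1 + c)) := by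
    have e1 : ∀ i ∈ I, (1 + c * (if A i ⊆ R o then (1 : ℝ) else 0)) =
        if A i ⊆ R o then (1 + c : ℝ) else 1 := by
      intro i _
      split_ifs
      · ring
      · ring
    rw [Finset.prod_congr rfl e1, Finset.prod_ite, Finset.prod_const, Finset.prod_const_one, mul_one,
      Real.exp_nat_mul, Real.exp_log (by linarith)]
  rw [e]
  split_ifs with hy
  · refine mul_le_mul_of_nonneg_left (Real.exp_le_exp.2 ?_) (hw o)
    exact mul_le_mul_of_nonneg_right hy (Real.log_nonneg (by linarith))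
  · rw [zero_mul]
    exact mul_nonneg (hw o) (Real.exp_pos _).le

theorem Chf_up {Ω E : Type} [Fintype Ω] [DecidableEq E] {w : Ω → ℝ} {R : Ω → Finset E} {E₀ : Finset E}
    {p : ℝ} (h : RSub w R E₀ p) {ι : Type} (I : Finset ι) (A : ι → Finset E)
    (hA : ∀ i ∈ I, A i ⊆ E₀) (hdis : ∀ i ∈ I, ∀ j ∈ I, i ≠ j → Disjoint (A i) (A j))
    (q : ℝ) (hq0 : 0 ≤ q) (hq : ∀ i ∈ I, p ^ (A i).card = q) (ε : ℝ) (hε : 0 < ε) (hε1 : ε ≤ 1) :
    pr w (fun o => (1 + ε) * (q * I.card) ≤ ((I.filter (fun i => A i ⊆ R o)).card : ℝ)) ≤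
      Real.exp (-(ε ^ 2 * (q * I.card) / 4)) := by
  have hc : 0 ≤ ε / 2 := by linarith
  have hgen := Chf_gen h (ε / 2) A I hA hdis ∅ (by simp) (fun i _ => by simp)
  simp only [Finset.empty_subset, if_true, mul_one, Finset.card_empty, pow_zero, one_mul] at hgen
  have hM := Chf_markov h.nonneg hc A I (R := R) ((1 + ε) * (q * I.card))
  rw [hgen] at hM
  obtain ⟨S, hS⟩ : ∃ S : ℝ, S = q * I.card := ⟨_, rfl⟩
  have hS0 : 0 ≤ S := by
    rw [hS]
    exact mul_nonneg hq0 (Nat.cast_nonneg _)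
  have hbd : ∏ i ∈ I, (1 + ε / 2 * p ^ (A i).card) ≤ Real.exp (ε / 2 * S) := by
    calc ∏ i ∈ I, (1 + ε / 2 * p ^ (A i).card) ≤ ∏ _i ∈ I, Real.exp (ε / 2 * q) := by
          refine Finset.prod_le_prod (fun i hi => ?_) (fun i hi => ?_)
          · rw [hq i hi]
            positivity
          · rw [hq i hi]
            have h2 := Real.add_one_le_exp (ε / 2 * q)
            linarith
      _ = Real.exp (ε / 2 * S) := by
          rw [Finset.prod_const, ← Real.exp_nat_mul, hS]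
          congr 1
          ring
  rw [← hS] at hM ⊢
  have h4 := hM.trans hbd
  have h5 := mul_le_mul_of_nonneg_left h4 (Real.exp_pos (-((1 + ε) * S * Real.log (1 + ε / 2)))).le
  have h6 : pr w (fun o => (1 + ε) * S ≤ ((I.filter (fun i => A i ⊆ R o)).card : ℝ)) ≤
      Real.exp (-((1 + ε) * S * Real.log (1 + ε / 2))) * Real.exp (ε / 2 * S) := by
    refine le_trans (le_of_eq ?_) h5
    rw [mul_comm (pr w _), ← mul_assoc, ← Real.exp_add]
    simp
  refine h6.trans ?_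
  rw [← Real.exp_add]
  refine Real.exp_le_exp.2 ?_
  have h7 := Chf_log hc
  have h8 : (1 + ε) * S * (ε / 2 - (ε / 2) ^ 2 / 2) ≤ (1 + ε) * S * Real.log (1 + ε / 2) :=
    mul_le_mul_of_nonneg_left h7 (by positivity)
  have h9 : 0 ≤ S * ε ^ 2 * (1 - ε) := by
    have : 0 ≤ 1 - ε := by linarith
    positivity
  nlinarith

end Pool.Agent.H9.SQ
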