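import Pool.Agent.H9.SQ.Chf

/-!
Module Chg (only `Chf_lo`).   Use only the STATEMENTS of Chf.  Two-sided Chernoff bound for disjoint sets in a random subset (model: `Pool/Agent/H9/KR/Lo.lean`, `Lo_gen`, `Lo_markov`, `lower`, and `KR.Bern`).
`Chf_gen`: copy the proof of `KR.Lo_gen` with `1 + c * [A i ⊆ R o]` in place of `1 - [A i ⊆ R o]/2`.   So `E ∏ (1 + c [A i ⊆ R]) = (1 + c q)^m ≤ exp (c q m)`, `m = I.card`, and `∏ = (1+c)^X`, `X` the number of `i` with `A i ⊆ R`.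
`Chf_up`: `c = ε/2`: `P(X ≥ y) (1+c)^y ≤ exp (c q m)`, `log (1+c) ≥ c - c²/2`: exponent `≤ q m (-ε c + c²) = - ε² q m / 4`.
`Chf_lo`: `c = -ε/2`: `P(X ≤ y) (1-ε/2)^y ≤ exp (-(ε/2) q m)`, `-log (1-x) ≤ x + x²` for `0 ≤ x ≤ 1/2`: exponent `≤ - ε² q m / 4`.
-/

set_option autoImplicit false
set_option linter.unusedSectionVars false

open Finset

namespace Pool.Agent.H9.SQ

open Pool.Agent.H9.KR

theorem Chg_markov {Ω E : Type} [Fintype Ω] [DecidableEq E] {w : Ω → ℝ} {R : Ω → Finset E}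
    (hw : ∀ o, 0 ≤ w o) {c : ℝ} (hc : 0 ≤ c) (hc1 : c < 1) {ι : Type} (A : ι → Finset E)
    (I : Finset ι) (y : ℝ) :
    pr w (fun o => ((I.filter (fun i => A i ⊆ R o)).card : ℝ) ≤ y) *
      Real.exp (y * Real.log (1 - c)) ≤
      ∑ o, w o * ∏ i ∈ I, (1 + (-c) * (if A i ⊆ R o then (1 : ℝ) else 0)) := by
  classical
  unfold pr
  rw [Finset.sum_mul]
  refine Finset.sum_le_sum fun o _ => ?_
  have e : ∏ i ∈ I, (1 + (-c) * (if A i ⊆ R o then (1 : ℝ) else 0)) =
      Real.exp (((I.filter (fun i => A i ⊆ R o)).card : ℝ) * Real.log (1 - c)) := by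
    have e1 : ∀ i ∈ I, (1 + (-c) * (if A i ⊆ R o then (1 : ℝ) else 0)) =
        if A i ⊆ R o then (1 - c : ℝ) else 1 := by
      intro i _
      split_ifs
      · ring
      · ring
    rw [Finset.prod_congr rfl e1, Finset.prod_ite, Finset.prod_const, Finset.prod_const_one, mul_one,
      Real.exp_nat_mul, Real.exp_log (by linarith)]
  rw [e]
  split_ifs with hy
  · refine mul_le_mul_of_nonneg_left (Real.exp_le_exp.2 ?_) (hw o)
    exact mul_le_mul_of_nonpos_right hy (Real.log_nonpos (by linarith) (by linarith))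
  · rw [zero_mul]
    exact mul_nonneg (hw o) (Real.exp_pos _).le

theorem Chg_exp {ε S : ℝ} (hε : 0 < ε) (hε1 : ε ≤ 1) (hS : 0 ≤ S) :
    -((1 - ε) * S * Real.log (1 - ε / 2)) + -(ε / 2) * S ≤ -(ε ^ 2 * S / 4) := by
  have hx : 0 < 1 - ε / 2 := by linarith
  have h1 := Real.one_sub_inv_le_log_of_pos hx
  have h2 : (1 - ε) * (1 - ε / 2)⁻¹ ≤ (1 - ε) + (ε / 2 - ε ^ 2 / 4) := by
    rw [← div_eq_mul_inv, div_le_iff₀ hx]
    nlinarith [pow_pos hε 2, pow_pos hε 3]
  have h3 : (1 - ε) * S * (1 - (1 - ε / 2)⁻¹) ≤ (1 - ε) * S * Real.log (1 - ε / 2) :=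
    mul_le_mul_of_nonneg_left h1 (mul_nonneg (by linarith) hS)
  have h4 := mul_le_mul_of_nonneg_left h2 hS
  nlinarith

theorem Chf_lo {Ω E : Type} [Fintype Ω] [DecidableEq E] {w : Ω → ℝ} {R : Ω → Finset E} {E₀ : Finset E}
    {p : ℝ} (h : RSub w R E₀ p) {ι : Type} (I : Finset ι) (A : ι → Finset E)
    (hA : ∀ i ∈ I, A i ⊆ E₀) (hdis : ∀ i ∈ I, ∀ j ∈ I, i ≠ j → Disjoint (A i) (A j))
    (q : ℝ) (hq0 : 0 ≤ q) (hq : ∀ i ∈ I, p ^ (A i).card = q) (ε : ℝ) (hε : 0 < ε) (hε1 : ε ≤ 1) :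
    pr w (fun o => ((I.filter (fun i => A i ⊆ R o)).card : ℝ) ≤ (1 - ε) * (q * I.card)) ≤
      Real.exp (-(ε ^ 2 * (q * I.card) / 4)) := by
  have hc : 0 ≤ ε / 2 := by linarith
  have hgen := Chf_gen h (-(ε / 2)) A I hA hdis ∅ (by simp) (fun i _ => by simp)
  simp only [Finset.empty_subset, if_true, mul_one, Finset.card_empty, pow_zero, one_mul] at hgen
  have hM := Chg_markov h.nonneg hc (by linarith) A I (R := R) ((1 - ε) * (q * I.card))
  rw [hgen] at hM
  obtain ⟨S, hS⟩ : ∃ S : ℝ, S = q * I.card := ⟨_, rfl⟩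
  have hS0 : 0 ≤ S := by
    rw [hS]
    exact mul_nonneg hq0 (Nat.cast_nonneg _)
  have hbd : ∏ i ∈ I, (1 + -(ε / 2) * p ^ (A i).card) ≤ Real.exp (-(ε / 2) * S) := by
    calc ∏ i ∈ I, (1 + -(ε / 2) * p ^ (A i).card) ≤ ∏ _i ∈ I, Real.exp (-(ε / 2) * q) := by
          refine Finset.prod_le_prod (fun i hi => ?_) (fun i hi => ?_)
          · have h1 := h.hit (A i) (hA i hi)
            have h2 : pr w (fun o => A i ⊆ R o) ≤ 1 := by
              rw [← h.total]
              unfold pr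
              refine Finset.sum_le_sum fun o _ => ?_
              split_ifs
              · exact le_rfl
              · exact h.nonneg o
            rw [h1] at h2
            nlinarith
          · rw [hq i hi]
            have h2 := Real.add_one_le_exp (-(ε / 2) * q)
            linarith
      _ = Real.exp (-(ε / 2) * S) := by
          rw [Finset.prod_const, ← Real.exp_nat_mul, hS]
          congr 1
          ring
  rw [← hS] at hM ⊢
  have h4 := hM.trans hbd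
  have h5 := mul_le_mul_of_nonneg_left h4 (Real.exp_pos (-((1 - ε) * S * Real.log (1 - ε / 2)))).le
  have h6 : pr w (fun o => ((I.filter (fun i => A i ⊆ R o)).card : ℝ) ≤ (1 - ε) * S) ≤
      Real.exp (-((1 - ε) * S * Real.log (1 - ε / 2))) * Real.exp (-(ε / 2) * S) := by
    refine le_trans (le_of_eq ?_) h5
    rw [mul_comm (pr w _), ← mul_assoc, ← Real.exp_add]
    simp
  refine h6.trans ?_
  rw [← Real.exp_add]
  exact Real.exp_le_exp.2 (Chg_exp hε hε1 hS0)

end Pool.Agent.H9.SQ
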