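import Pool.Agent.H9.SQ.Fzn

/-!
Module Cnt.  Counting cliques with `a` vertices in `nb G U Z` minus `X`.
`Cnt_rec`: count the pairs `(C, v)`, `v ∈ C`: `C ↦ (v, C.erase v)`, inverse `(v, C') ↦ insert v C'` (`v ∉ C'`, since the vertices of `C'` are adjacent to `v`); e.g. `Finset.card_eq_sum_card_fiberwise`,
`Finset.sum_card`-like double counting, or `Finset.card_sigma` and `Finset.card_bij`.  (`nb G D x = D.filter (fun v => ∀ u ∈ x, G.Adj u v)`, `mem_nb`.)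
`Cnt_up`, `Cnt_lo`: induction on `a` with `Cnt_rec` and `Fz_succ`: `(a+1) Fz (a+1) z = n p^z Fz a (z+1)`, and `Reg` for the number of terms.
`Cnt_le`, `Cnt_ge`: `(1+ε)^a ≤ 1 + 2 a ε ≤ 1 + τ`, `(1-2ε)^a ≥ 1 - 2 a ε ≥ 1 - τ` (`one_add_mul_le_pow`), `a ≤ 4 r`; `|X| ≤ 4 r ≤ ε n p^(4r) ≤ ε n p^|Z|`.
-/

set_option autoImplicit false
set_option linter.unusedSectionVars false

open Finset

namespace Pool.Agent.H9.SQ

open Pool.Agent.H9.KR

variable {V : Type} [Fintype V] [DecidableEq V]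

theorem Cnt_mem_Cl {G : SimpleGraph V} {D : Finset V} {a : ℕ} {C : Finset V} :
    C ∈ Cl G D a ↔ (C ⊆ D ∧ C.card = a) ∧ IsCl G C := by
  classical
  unfold Cl
  rw [Finset.mem_filter, Finset.mem_powersetCard]

theorem Cnt_mem_nb {G : SimpleGraph V} {D x : Finset V} {v : V} :
    v ∈ nb G D x ↔ v ∈ D ∧ ∀ u ∈ x, G.Adj u v := by
  classical
  unfold nb
  rw [Finset.mem_filter]

theorem Cnt_fib (G : SimpleGraph V) (U Z X : Finset V) (a : ℕ) {v : V} (hv : v ∈ nb G U Z \ X) :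
    ((Cl G (nb G U Z \ X) (a + 1)).filter (fun C => v ∈ C)).card =
      (Cl G (nb G U (insert v Z) \ X) a).card := by
  rw [Finset.mem_sdiff, Cnt_mem_nb] at hv
  obtain ⟨⟨hvU, hvZ⟩, hvX⟩ := hv
  apply Finset.card_nbij' (i := fun C => C.erase v) (j := fun C' => insert v C')
  · intro C hC
    rw [Finset.mem_coe, Finset.mem_filter, Cnt_mem_Cl] at hC
    obtain ⟨⟨⟨hCD, hCc⟩, hCl⟩, hvC⟩ := hC
    rw [Finset.mem_coe, Cnt_mem_Cl]
    refine ⟨⟨?_, ?_⟩, ?_⟩
    · intro u hu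
      obtain ⟨huv, huC⟩ := Finset.mem_erase.1 hu
      have h1 := hCD huC
      rw [Finset.mem_sdiff, Cnt_mem_nb] at h1
      rw [Finset.mem_sdiff, Cnt_mem_nb]
      refine ⟨⟨h1.1.1, fun w hw => ?_⟩, h1.2⟩
      rcases Finset.mem_insert.1 hw with rfl | hw
      · exact hCl w hvC u huC (Ne.symm huv)
      · exact h1.1.2 w hw
    · rw [Finset.card_erase_of_mem hvC, hCc, Nat.add_sub_cancel]
    · intro u hu w hw huw
      exact hCl u (Finset.mem_of_mem_erase hu) w (Finset.mem_of_mem_erase hw) huw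
  · intro C hC
    rw [Finset.mem_coe, Cnt_mem_Cl] at hC
    obtain ⟨⟨hCD, hCc⟩, hCl⟩ := hC
    have hadj : ∀ u ∈ C, G.Adj v u := by
      intro u hu
      have h1 := hCD hu
      rw [Finset.mem_sdiff, Cnt_mem_nb] at h1
      exact h1.1.2 v (Finset.mem_insert_self _ _)
    have hvC : v ∉ C := fun h => G.loopless.irrefl v (hadj v h)
    rw [Finset.mem_coe, Finset.mem_filter, Cnt_mem_Cl]
    refine ⟨⟨⟨?_, ?_⟩, ?_⟩, Finset.mem_insert_self _ _⟩
    · intro u hu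
      rcases Finset.mem_insert.1 hu with rfl | hu
      · rw [Finset.mem_sdiff, Cnt_mem_nb]
        exact ⟨⟨hvU, hvZ⟩, hvX⟩
      · have h1 := hCD hu
        rw [Finset.mem_sdiff, Cnt_mem_nb] at h1
        rw [Finset.mem_sdiff, Cnt_mem_nb]
        exact ⟨⟨h1.1.1, fun w hw => h1.1.2 w (Finset.mem_insert_of_mem hw)⟩, h1.2⟩
    · rw [Finset.card_insert_of_notMem hvC, hCc]
    · intro u hu w hw huw
      rcases Finset.mem_insert.1 hu with hu1 | hu1
      · rcases Finset.mem_insert.1 hw with hw1 | hw1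
        · exact absurd (hu1.trans hw1.symm) huw
        · rw [hu1]
          exact hadj w hw1
      · rcases Finset.mem_insert.1 hw with hw1 | hw1
        · rw [hw1]
          exact (hadj u hu1).symm
        · exact hCl u hu1 w hw1 huw
  · intro C hC
    rw [Finset.mem_coe, Finset.mem_filter] at hC
    exact Finset.insert_erase hC.2
  · intro C hC
    rw [Finset.mem_coe, Cnt_mem_Cl] at hC
    obtain ⟨⟨hCD, hCc⟩, hCl⟩ := hC
    have hvC : v ∉ C := by
      intro h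
      have h1 := hCD h
      rw [Finset.mem_sdiff, Cnt_mem_nb] at h1
      exact G.loopless.irrefl v (h1.1.2 v (Finset.mem_insert_self _ _))
    exact Finset.erase_insert hvC

theorem Cnt_rec (G : SimpleGraph V) (U Z X : Finset V) (a : ℕ) :
    (a + 1) * (Cl G (nb G U Z \ X) (a + 1)).card =
      ∑ v ∈ nb G U Z \ X, (Cl G (nb G U (insert v Z) \ X) a).card := by
  have h1 : ∑ v ∈ nb G U Z \ X, (Cl G (nb G U (insert v Z) \ X) a).card
      = ∑ v ∈ nb G U Z \ X,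
        ((Cl G (nb G U Z \ X) (a + 1)).filter (fun C => v ∈ C)).card :=
    Finset.sum_congr rfl (fun v hv => (Cnt_fib G U Z X a hv).symm)
  rw [h1]
  have h2 : ∀ v, ((Cl G (nb G U Z \ X) (a + 1)).filter (fun C => v ∈ C)).card
      = ∑ C ∈ Cl G (nb G U Z \ X) (a + 1), if v ∈ C then 1 else 0 := fun v => by
    rw [Finset.card_filter]
  rw [Finset.sum_congr rfl (fun v _ => h2 v), Finset.sum_comm]
  have h3 : ∀ C ∈ Cl G (nb G U Z \ X) (a + 1),
      (∑ v ∈ nb G U Z \ X, if v ∈ C then 1 else 0) = a + 1 := by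
    intro C hC
    rw [Cnt_mem_Cl] at hC
    rw [← Finset.card_filter]
    have h4 : (nb G U Z \ X).filter (fun v => v ∈ C) = C := by
      ext v
      rw [Finset.mem_filter]
      exact ⟨fun h => h.2, fun h => ⟨hC.1.1 h, h⟩⟩
    rw [h4, hC.1.2]
  rw [Finset.sum_congr rfl h3, Finset.sum_const, smul_eq_mul, mul_comm]

theorem Cnt_zero (G : SimpleGraph V) (D : Finset V) : (Cl G D 0).card = 1 := by
  have h : Cl G D 0 = {∅} := by
    ext C
    rw [Cnt_mem_Cl, Finset.mem_singleton]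
    constructor
    · rintro ⟨⟨_, h⟩, _⟩
      exact Finset.card_eq_zero.1 h
    · rintro rfl
      exact ⟨⟨Finset.empty_subset _, rfl⟩, fun u hu => absurd hu (Finset.notMem_empty u)⟩
  rw [h, Finset.card_singleton]

theorem Cnt_ins {G : SimpleGraph V} {U Z X : Finset V} (hZ : Z ⊆ U) {v : V}
    (hv : v ∈ nb G U Z \ X) : insert v Z ⊆ U ∧ (insert v Z).card = Z.card + 1 := by
  rw [Finset.mem_sdiff, Cnt_mem_nb] at hv
  have hvZ : v ∉ Z := fun h => G.loopless.irrefl v (hv.1.2 v h)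
  exact ⟨Finset.insert_subset hv.1.1 hZ, Finset.card_insert_of_notMem hvZ⟩

theorem Cnt_up {G : SimpleGraph V} {U : Finset V} {n z : ℕ} {p ε : ℝ} (h : Reg G U n p ε z) (hp : 0 ≤ p)
    (hε : 0 ≤ ε) (X : Finset V) (a : ℕ) (Z : Finset V) (hZ : Z ⊆ U) (ha : Z.card + a ≤ z + 1) :
    ((Cl G (nb G U Z \ X) a).card : ℝ) ≤ (1 + ε) ^ a * Fz n p a Z.card := by
  induction a generalizing Z with
  | zero => rw [Cnt_zero, Fz_zero]; simp
  | succ a ih =>
    have h1 : ((a : ℝ) + 1) * ((Cl G (nb G U Z \ X) (a + 1)).card : ℝ)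
        = ∑ v ∈ nb G U Z \ X, ((Cl G (nb G U (insert v Z) \ X) a).card : ℝ) := by
      exact_mod_cast Cnt_rec G U Z X a
    have h2 : ∀ v ∈ nb G U Z \ X, ((Cl G (nb G U (insert v Z) \ X) a).card : ℝ)
        ≤ (1 + ε) ^ a * Fz n p a (Z.card + 1) := by
      intro v hv
      obtain ⟨h3, h4⟩ := Cnt_ins hZ hv
      have h5 := ih (insert v Z) h3 (by rw [h4]; omega)
      rwa [h4] at h5
    have h6 := Finset.sum_le_sum h2
    rw [Finset.sum_const, nsmul_eq_mul] at h6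
    have h7 : ((nb G U Z \ X).card : ℝ) ≤ (1 + ε) * (n * p ^ Z.card) := by
      refine le_trans ?_ (h.up Z hZ (by omega))
      exact_mod_cast Finset.card_le_card Finset.sdiff_subset
    have h8 : 0 ≤ (1 + ε) ^ a * Fz n p a (Z.card + 1) :=
      mul_nonneg (pow_nonneg (by linarith) _) (Fz_nonneg hp _ _)
    have h9 := mul_le_mul_of_nonneg_right h7 h8
    have h10 := Fz_succ n p a Z.card
    have ha1 : (0 : ℝ) < (a : ℝ) + 1 := by positivity
    have h11 : (1 + ε) * (n * p ^ Z.card) * ((1 + ε) ^ a * Fz n p a (Z.card + 1))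
        = ((a : ℝ) + 1) * ((1 + ε) ^ (a + 1) * Fz n p (a + 1) Z.card) := by
      rw [pow_succ]
      linear_combination (-(1 + ε) ^ a * (1 + ε)) * h10
    rw [h11] at h9
    rw [← h1] at h6
    exact le_of_mul_le_mul_left (h6.trans h9) ha1

theorem Cnt_lo {G : SimpleGraph V} {U : Finset V} {n z : ℕ} {p ε : ℝ} (h : Reg G U n p ε z) (hp : 0 ≤ p)
    (hp1 : p ≤ 1) (hε : 0 ≤ ε) (hε1 : 2 * ε ≤ 1) (X : Finset V) (hX : (X.card : ℝ) ≤ ε * (n * p ^ z)) (a : ℕ)
    (Z : Finset V) (hZ : Z ⊆ U) (ha : Z.card + a ≤ z + 1) :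
    (1 - 2 * ε) ^ a * Fz n p a Z.card ≤ ((Cl G (nb G U Z \ X) a).card : ℝ) := by
  induction a generalizing Z with
  | zero => rw [Cnt_zero, Fz_zero]; simp
  | succ a ih =>
    have h1 : ((a : ℝ) + 1) * ((Cl G (nb G U Z \ X) (a + 1)).card : ℝ)
        = ∑ v ∈ nb G U Z \ X, ((Cl G (nb G U (insert v Z) \ X) a).card : ℝ) := by
      exact_mod_cast Cnt_rec G U Z X a
    have h2 : ∀ v ∈ nb G U Z \ X, (1 - 2 * ε) ^ a * Fz n p a (Z.card + 1)
        ≤ ((Cl G (nb G U (insert v Z) \ X) a).card : ℝ) := by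
      intro v hv
      obtain ⟨h3, h4⟩ := Cnt_ins hZ hv
      have h5 := ih (insert v Z) h3 (by rw [h4]; omega)
      rwa [h4] at h5
    have h6 := Finset.sum_le_sum h2
    rw [Finset.sum_const, nsmul_eq_mul] at h6
    have hpz : p ^ z ≤ p ^ Z.card := pow_le_pow_of_le_one hp hp1 (by omega)
    have h7 : (1 - 2 * ε) * (n * p ^ Z.card) ≤ ((nb G U Z \ X).card : ℝ) := by
      have h71 := h.lo Z hZ (by omega)
      have h72 : ((nb G U Z).card : ℝ) ≤ ((nb G U Z \ X).card : ℝ) + (X.card : ℝ) := by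
        have h73 : (nb G U Z).card ≤ (nb G U Z \ X).card + X.card := by
          have h74 := Finset.le_card_sdiff X (nb G U Z)
          omega
        exact_mod_cast h73
      have h75 : ε * (n * p ^ z) ≤ ε * (n * p ^ Z.card) :=
        mul_le_mul_of_nonneg_left (mul_le_mul_of_nonneg_left hpz (Nat.cast_nonneg _)) hε
      linarith
    have h8 : 0 ≤ (1 - 2 * ε) ^ a * Fz n p a (Z.card + 1) :=
      mul_nonneg (pow_nonneg (by linarith) _) (Fz_nonneg hp _ _)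
    have h9 := mul_le_mul_of_nonneg_right h7 h8
    have h10 := Fz_succ n p a Z.card
    have ha1 : (0 : ℝ) < (a : ℝ) + 1 := by positivity
    have h11 : (1 - 2 * ε) * (n * p ^ Z.card) * ((1 - 2 * ε) ^ a * Fz n p a (Z.card + 1))
        = ((a : ℝ) + 1) * ((1 - 2 * ε) ^ (a + 1) * Fz n p (a + 1) Z.card) := by
      rw [pow_succ]
      linear_combination (-(1 - 2 * ε) ^ a * (1 - 2 * ε)) * h10
    rw [h11] at h9
    rw [← h1] at h6
    exact le_of_mul_le_mul_left (h9.trans h6) ha1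

theorem Cnt_pow {a : ℕ} {ε : ℝ} (hε : 0 ≤ ε) (h : (a : ℝ) * ε ≤ 1 / 2) :
    (1 + ε) ^ a ≤ 1 + 2 * (a * ε) := by
  have h0 : ε ≤ 1 ∨ a = 0 := by
    rcases Nat.eq_zero_or_pos a with h1 | h1
    · exact Or.inr h1
    · left
      have h2 : (1 : ℝ) ≤ a := by exact_mod_cast h1
      nlinarith
  rcases h0 with h0 | rfl
  · have h1 : 1 + (a : ℝ) * (-ε) ≤ (1 + -ε) ^ a := one_add_mul_le_pow (by linarith) a
    have h2 : (1 + ε) ^ a * (1 + -ε) ^ a ≤ 1 := by
      rw [← mul_pow]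
      apply pow_le_one₀
      · nlinarith
      · nlinarith
    have h3 : 0 < (1 + ε) ^ a := pow_pos (by linarith) a
    have h4 : (1 + ε) ^ a * (1 - a * ε) ≤ 1 := by
      refine le_trans (mul_le_mul_of_nonneg_left ?_ h3.le) h2
      linarith
    have h5 : 0 ≤ (a : ℝ) * ε := mul_nonneg (Nat.cast_nonneg _) hε
    have h6 : 1 ≤ (1 + 2 * (a * ε)) * (1 - a * ε) := by nlinarith
    have h7 : (0 : ℝ) < 1 - a * ε := by linarith
    exact le_of_mul_le_mul_right (h4.trans h6) h7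
  · simp

theorem Cnt_nums {n r k : ℕ} {p ε τ χ : ℝ} (H : Num n r k p ε τ χ) {a : ℕ} (ha : a ≤ 4 * r) :
    2 * ((a : ℝ) * ε) ≤ τ ∧ (a : ℝ) * ε ≤ 1 / 2 ∧ 2 * ε ≤ 1 := by
  have h1 : (a : ℝ) ≤ 4 * r := by exact_mod_cast ha
  have h2 : (a : ℝ) * ε ≤ 4 * r * ε := mul_le_mul_of_nonneg_right h1 H.ε_pos.le
  have h3 := H.τ_ge
  have h4 := H.τ_le
  have h5 : (1 : ℝ) ≤ r := by exact_mod_cast H.r_pos
  have h6 := H.ε_pos
  have h7 : ε ≤ r * ε := by nlinarith
  refine ⟨by linarith, by linarith, by linarith⟩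

theorem Cnt_le {G : SimpleGraph V} {U : Finset V} {n r k : ℕ} {p ε τ χ : ℝ} (H : Num n r k p ε τ χ)
    (h : Reg G U n p ε (4 * r)) (X Z : Finset V) (hZ : Z ⊆ U) (a : ℕ) (ha : Z.card + a ≤ 4 * r) :
    ((Cl G (nb G U Z \ X) a).card : ℝ) ≤ (1 + τ) * Fz n p a Z.card := by
  obtain ⟨h1, h2, h3⟩ := Cnt_nums H (a := a) (by omega)
  refine (Cnt_up h H.p_pos.le H.ε_pos.le X a Z hZ (by omega)).trans ?_
  apply mul_le_mul_of_nonneg_right _ (Fz_nonneg H.p_pos.le _ _)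
  exact (Cnt_pow H.ε_pos.le h2).trans (by linarith)

theorem Cnt_ge {G : SimpleGraph V} {U : Finset V} {n r k : ℕ} {p ε τ χ : ℝ} (H : Num n r k p ε τ χ)
    (h : Reg G U n p ε (4 * r)) (X Z : Finset V) (hX : X.card ≤ 4 * r) (hZ : Z ⊆ U) (a : ℕ)
    (ha : Z.card + a ≤ 4 * r) :
    (1 - τ) * Fz n p a Z.card ≤ ((Cl G (nb G U Z \ X) a).card : ℝ) := by
  obtain ⟨h1, h2, h3⟩ := Cnt_nums H (a := a) (by omega)
  have hX' : (X.card : ℝ) ≤ ε * (n * p ^ (4 * r)) := by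
    refine le_trans ?_ H.cut
    exact_mod_cast hX
  refine le_trans ?_ (Cnt_lo h H.p_pos.le H.p_le H.ε_pos.le h3 X hX' a Z hZ (by omega))
  apply mul_le_mul_of_nonneg_right _ (Fz_nonneg H.p_pos.le _ _)
  have h4 : 1 + (a : ℝ) * (-(2 * ε)) ≤ (1 + -(2 * ε)) ^ a := one_add_mul_le_pow (by linarith) a
  have h5 : (1 + -(2 * ε)) ^ a = (1 - 2 * ε) ^ a := by rw [← sub_eq_add_neg]
  rw [h5] at h4
  linarith

end Pool.Agent.H9.SQ
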