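import Mathlib

/-!
Module Cou.  Subsets of size `n` of `Fin N` that contain `S`.
`Cou_choose`: induction on `s` (`Nat.succ_mul_choose_eq`/`Nat.choose_mul_succ_eq`: `C(N-s-1,n-s-1)(N-s) = C(N-s,n-s)(n-s)` and `(n-s) N ≤ n (N-s)`).
`Cou_sup`: the sets `W ∈ powersetCard n univ` with `S ⊆ W` correspond to `powersetCard (n-|S|) (univ \ S)` (0 if `|S| > n`), then `Cou_choose` with `s = |S|` and `n ≤ N`, `r ≤ |S|`: `N^r C' = N^r .. ≤ n^r C(N,n)`.
-/

set_option autoImplicit false
set_option linter.unusedSectionVars false

open Finset

namespace Pool.Agent.H9.SQ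

theorem Cou_choose (N n s : ℕ) (hs : s ≤ n) (hn : n ≤ N) :
    (N - s).choose (n - s) * N ^ s ≤ N.choose n * n ^ s := by
  induction s with
  | zero => simp
  | succ s ih =>
    have ih' := ih (by omega)
    obtain ⟨M, hM⟩ : ∃ M, N - s = M + 1 := ⟨N - s - 1, by omega⟩
    obtain ⟨m, hm⟩ : ∃ m, n - s = m + 1 := ⟨n - s - 1, by omega⟩
    have e1 : N - (s + 1) = M := by omega
    have e2 : n - (s + 1) = m := by omega
    rw [hM, hm] at ih'
    rw [e1, e2]
    have h1 : (M + 1) * M.choose m = (M + 1).choose (m + 1) * (m + 1) :=
      Nat.add_one_mul_choose_eq M m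
    have h2 : (m + 1) * N ≤ n * (M + 1) := by
      have hN : N = M + 1 + s := by omega
      have hn' : n = m + 1 + s := by omega
      have hMm : m ≤ M := by omega
      rw [hN, hn']
      have h3 : (m + 1) * s ≤ s * (M + 1) := by
        rw [mul_comm s]
        exact Nat.mul_le_mul_right s (by omega)
      calc (m + 1) * (M + 1 + s) = (m + 1) * (M + 1) + (m + 1) * s := by ring
        _ ≤ (m + 1) * (M + 1) + s * (M + 1) := Nat.add_le_add_left h3 _
        _ = (m + 1 + s) * (M + 1) := by ring
    have h4 : (M + 1) * (M.choose m * N ^ (s + 1)) ≤ (M + 1) * (N.choose n * n ^ (s + 1)) := by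
      calc (M + 1) * (M.choose m * N ^ (s + 1))
          = ((M + 1) * M.choose m) * N * N ^ s := by ring
        _ = (M + 1).choose (m + 1) * N ^ s * ((m + 1) * N) := by rw [h1]; ring
        _ ≤ (M + 1).choose (m + 1) * N ^ s * (n * (M + 1)) := Nat.mul_le_mul_left _ h2
        _ ≤ N.choose n * n ^ s * (n * (M + 1)) := Nat.mul_le_mul_right _ ih'
        _ = (M + 1) * (N.choose n * n ^ (s + 1)) := by ring
    exact Nat.le_of_mul_le_mul_left h4 (Nat.succ_pos M)

theorem Cou_sup {N : ℕ} (n r : ℕ) (hn : n ≤ N) (S : Finset (Fin N)) (hS : r ≤ S.card) :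
    ((powersetCard n (univ : Finset (Fin N))).filter (fun W => S ⊆ W)).card * N ^ r ≤
      N.choose n * n ^ r := by
  classical
  have hSN : S.card ≤ N := by
    have := Finset.card_le_univ S
    simpa using this
  by_cases hSn : S.card ≤ n
  · have hcard : ((powersetCard n (univ : Finset (Fin N))).filter (fun W => S ⊆ W)).card ≤
        (N - S.card).choose (n - S.card) := by
      have h1 : (powersetCard (n - S.card) (univ \ S)).card =
          (N - S.card).choose (n - S.card) := by
        rw [Finset.card_powersetCard, Finset.card_sdiff_of_subset (Finset.subset_univ S)]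
        simp
      rw [← h1]
      apply Finset.card_le_card_of_injOn (fun W => W \ S)
      · intro W hW
        have hW' := Finset.mem_filter.mp (Finset.mem_coe.mp hW)
        have hWn := (Finset.mem_powersetCard.mp hW'.1).2
        refine Finset.mem_coe.mpr (Finset.mem_powersetCard.mpr ⟨?_, ?_⟩)
        · exact Finset.sdiff_subset_sdiff (Finset.subset_univ W) (Finset.Subset.refl S)
        · rw [Finset.card_sdiff_of_subset hW'.2, hWn]
      · intro W hW W' hW' hEq
        have h2 := (Finset.mem_filter.mp (Finset.mem_coe.mp hW)).2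
        have h3 := (Finset.mem_filter.mp (Finset.mem_coe.mp hW')).2
        have h4 : W \ S = W' \ S := hEq
        rw [← Finset.sdiff_union_of_subset h2, ← Finset.sdiff_union_of_subset h3, h4]
    have hmain := Cou_choose N n S.card hSn hn
    rcases Nat.eq_zero_or_pos N with hN | hN
    · have hr : r = 0 := by omega
      subst hr
      rw [pow_zero, pow_zero, mul_one, mul_one]
      have hc0 : S.card = 0 := by omega
      rw [hc0] at hcard
      simpa using hcard
    · have hpos : 0 < N ^ (S.card - r) := Nat.pow_pos hN
      have h5 : N ^ (S.card - r) *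
          (((powersetCard n (univ : Finset (Fin N))).filter (fun W => S ⊆ W)).card * N ^ r) ≤
          N ^ (S.card - r) * (N.choose n * n ^ r) := by
        have e1 : N ^ S.card = N ^ (S.card - r) * N ^ r := by
          rw [← pow_add]; congr 1; omega
        have e2 : n ^ S.card = n ^ (S.card - r) * n ^ r := by
          rw [← pow_add]; congr 1; omega
        calc N ^ (S.card - r) *
            (((powersetCard n (univ : Finset (Fin N))).filter (fun W => S ⊆ W)).card * N ^ r)
            = ((powersetCard n (univ : Finset (Fin N))).filter (fun W => S ⊆ W)).card *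
              N ^ S.card := by rw [e1]; ring
          _ ≤ (N - S.card).choose (n - S.card) * N ^ S.card := Nat.mul_le_mul_right _ hcard
          _ ≤ N.choose n * n ^ S.card := hmain
          _ = N.choose n * n ^ r * n ^ (S.card - r) := by rw [e2]; ring
          _ ≤ N.choose n * n ^ r * N ^ (S.card - r) :=
              Nat.mul_le_mul_left _ (Nat.pow_le_pow_left hn _)
          _ = N ^ (S.card - r) * (N.choose n * n ^ r) := by ring
      exact Nat.le_of_mul_le_mul_left h5 hpos
  · have h0 : ((powersetCard n (univ : Finset (Fin N))).filter (fun W => S ⊆ W)) = ∅ := by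
      rw [Finset.filter_eq_empty_iff]
      intro W hW hSW
      have hWn := (Finset.mem_powersetCard.mp hW).2
      have := Finset.card_le_card hSW
      omega
    rw [h0]
    simp

end Pool.Agent.H9.SQ
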