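import Pool.Agent.H9.SQ.Defs

/-!
Module Csz.  Cauchy-Schwarz twice (abstract): `X = ∑_T y_T (∑_S y_S e(S,T))`, `X^2 ≤ (∑ y^2) ∑_T (∑_S y_S e(S,T))^2 = (∑ y^2) ∑_{S1,S2} y_{S1} y_{S2} K(S1,S2)`, `K(S1,S2) = ∑_T e(S1,T) e(S2,T)`,
and `(∑_{S1,S2} y y K)^2 ≤ (∑ y^2)^2 ∑ K^2`  (`Finset.sum_mul_sq_le_sq_mul_sq`, on `Y ×ˢ Y` for the second one).
-/

set_option autoImplicit false
set_option linter.unusedSectionVars false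

open Finset

namespace Pool.Agent.H9.SQ

open Pool.Agent.H9.KR

theorem Csz_main {α : Type} (Y : Finset α) (y : α → ℝ) (e : α → α → ℝ) :
    (∑ S ∈ Y, ∑ T ∈ Y, y S * y T * e S T) ^ 4 ≤
      (∑ S ∈ Y, y S ^ 2) ^ 4 * ∑ S₁ ∈ Y, ∑ S₂ ∈ Y, (∑ T ∈ Y, e S₁ T * e S₂ T) ^ 2 := by
  set P : ℝ := ∑ S ∈ Y, y S ^ 2 with hP
  set Q : ℝ := ∑ T ∈ Y, (∑ S ∈ Y, y S * e S T) ^ 2 with hQ
  set R : ℝ := ∑ S₁ ∈ Y, ∑ S₂ ∈ Y, (∑ T ∈ Y, e S₁ T * e S₂ T) ^ 2 with hR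
  set X : ℝ := ∑ S ∈ Y, ∑ T ∈ Y, y S * y T * e S T with hX
  have hP0 : 0 ≤ P := Finset.sum_nonneg fun S _ => sq_nonneg _
  have hQ0 : 0 ≤ Q := Finset.sum_nonneg fun S _ => sq_nonneg _
  have hX1 : X = ∑ T ∈ Y, y T * ∑ S ∈ Y, y S * e S T := by
    rw [hX, Finset.sum_comm]
    refine Finset.sum_congr rfl fun T _ => ?_
    rw [Finset.mul_sum]
    refine Finset.sum_congr rfl fun S _ => ?_
    ring
  have h1 : X ^ 2 ≤ P * Q := by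
    rw [hX1]
    exact Finset.sum_mul_sq_le_sq_mul_sq _ _ _
  have hQ1 : Q = ∑ p ∈ Y ×ˢ Y, (y p.1 * y p.2) * ∑ T ∈ Y, e p.1 T * e p.2 T := by
    rw [hQ, Finset.sum_product]
    have : ∀ T ∈ Y, (∑ S ∈ Y, y S * e S T) ^ 2 =
        ∑ S₁ ∈ Y, ∑ S₂ ∈ Y, (y S₁ * e S₁ T) * (y S₂ * e S₂ T) := by
      intro T _
      rw [sq, Finset.sum_mul_sum]
    rw [Finset.sum_congr rfl this, Finset.sum_comm]
    refine Finset.sum_congr rfl fun S₁ _ => ?_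
    rw [Finset.sum_comm]
    refine Finset.sum_congr rfl fun S₂ _ => ?_
    rw [Finset.mul_sum]
    refine Finset.sum_congr rfl fun T _ => ?_
    ring
  have hPP : ∑ p ∈ Y ×ˢ Y, (y p.1 * y p.2) ^ 2 = P ^ 2 := by
    rw [Finset.sum_product, hP, sq, Finset.sum_mul_sum]
    refine Finset.sum_congr rfl fun S₁ _ => Finset.sum_congr rfl fun S₂ _ => ?_
    ring
  have hRR : ∑ p ∈ Y ×ˢ Y, (∑ T ∈ Y, e p.1 T * e p.2 T) ^ 2 = R := by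
    rw [Finset.sum_product]
  have h2 : Q ^ 2 ≤ P ^ 2 * R := by
    have := Finset.sum_mul_sq_le_sq_mul_sq (Y ×ˢ Y) (fun p : α × α => y p.1 * y p.2)
      (fun p : α × α => ∑ T ∈ Y, e p.1 T * e p.2 T)
    rw [← hQ1, hPP, hRR] at this
    exact this
  have hX20 : 0 ≤ X ^ 2 := sq_nonneg _
  calc X ^ 4 = (X ^ 2) ^ 2 := by ring
    _ ≤ (P * Q) ^ 2 := pow_le_pow_left₀ hX20 h1 2
    _ = P ^ 2 * Q ^ 2 := by ring
    _ ≤ P ^ 2 * (P ^ 2 * R) := mul_le_mul_of_nonneg_left h2 (sq_nonneg _)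
    _ = P ^ 4 * R := by ring

end Pool.Agent.H9.SQ
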