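import Pool.Agent.H9.SQ.Pin

/-!
Module Pic.  Choosing `U`.   Use only the STATEMENT of Pin.
`Pic_main`: let `B` be the maximum of `1` and the `|t.2|`, so `B^e ≤ N^(e-1)`; `b = #{t ∈ M : r ≤ |t.1 ∪ t.2|}`, `b^(4e) ≤ N^r`.  The number of `U` with `t.1 ⊆ U` and `r ≤ |t.1 ∪ (t.2 ∩ U)|` for some `t ∈ M` (then `r ≤ |t.1 ∪ t.2|`)
is, times `N^r`, at most `b B^r n^r C(N,n)`, and `(2 b B^r n^r)^(4e) ≤ 2^(4e) N^r N^(4(e-1)r) N^(2r) = 2^(4e) N^((4e-1) r) < N^(4er)`; so it is less than half of `C(N,n)`, and some `U` is left.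
-/

set_option autoImplicit false
set_option linter.unusedSectionVars false

open Finset

namespace Pool.Agent.H9.SQ

open Pool.Agent.H9.KR

theorem Pic_num {N n r e b B : ℕ} (he : 1 ≤ e) (hr : 1 ≤ r) (hn : n ^ (2 * e) ≤ N) (hN : 2 ^ (4 * e) < N)
    (hb : b ^ (4 * e) ≤ N ^ r) (hB : B ^ e ≤ N ^ (e - 1)) : 2 * (b * (B ^ r * n ^ r)) < N ^ r := by
  have hN1 : 1 ≤ N := le_trans Nat.one_le_two_pow hN.le
  have h1 : (2 * (b * (B ^ r * n ^ r))) ^ (4 * e) < (N ^ r) ^ (4 * e) := by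
    have e1 : (2 * (b * (B ^ r * n ^ r))) ^ (4 * e)
        = 2 ^ (4 * e) * (b ^ (4 * e) * ((B ^ e) ^ (4 * r) * (n ^ (2 * e)) ^ (2 * r))) := by
      rw [mul_pow, mul_pow, mul_pow, ← pow_mul, ← pow_mul, ← pow_mul, ← pow_mul]
      have a1 : r * (4 * e) = e * (4 * r) := by ring
      have a2 : e * (4 * r) = 2 * e * (2 * r) := by ring
      rw [a1]
      congr 3
      rw [a2]
    rw [e1]
    have e2 : b ^ (4 * e) * ((B ^ e) ^ (4 * r) * (n ^ (2 * e)) ^ (2 * r))
        ≤ N ^ r * ((N ^ (e - 1)) ^ (4 * r) * N ^ (2 * r)) := by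
      gcongr
    have e3 : N ^ r * ((N ^ (e - 1)) ^ (4 * r) * N ^ (2 * r)) = N ^ (4 * e * r - r) := by
      rw [← pow_mul, ← pow_add, ← pow_add]
      congr 1
      obtain ⟨d, rfl⟩ : ∃ d, e = d + 1 := ⟨e - 1, by omega⟩
      have b1 : (d + 1 - 1) * (4 * r) = 4 * (d * r) := by
        rw [Nat.add_sub_cancel]; ring
      have b2 : 4 * (d + 1) * r = 4 * (d * r) + 4 * r := by ring
      rw [b1, b2]
      omega
    have e4 : (N ^ r) ^ (4 * e) = N ^ r * N ^ (4 * e * r - r) := by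
      rw [← pow_mul, ← pow_add]
      congr 1
      have c1 : r ≤ 4 * e * r := by nlinarith
      have c2 : r * (4 * e) = 4 * e * r := by ring
      rw [c2]
      omega
    have e5 : 2 ^ (4 * e) < N ^ r := by
      refine lt_of_lt_of_le hN ?_
      calc N = N ^ 1 := (pow_one N).symm
        _ ≤ N ^ r := Nat.pow_le_pow_right hN1 hr
    have e6 : 0 < N ^ (4 * e * r - r) := pow_pos (by omega) _
    calc 2 ^ (4 * e) * (b ^ (4 * e) * ((B ^ e) ^ (4 * r) * (n ^ (2 * e)) ^ (2 * r)))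
        ≤ 2 ^ (4 * e) * N ^ (4 * e * r - r) := by
          rw [← e3]; exact Nat.mul_le_mul_left _ e2
      _ < N ^ r * N ^ (4 * e * r - r) := Nat.mul_lt_mul_of_pos_right e5 e6
      _ = (N ^ r) ^ (4 * e) := e4.symm
  exact lt_of_pow_lt_pow_left₀ (4 * e) (Nat.zero_le _) h1

open Classical in
theorem Pic_main {N n r e : ℕ} (he : 1 ≤ e) (hr : 1 ≤ r) (hn : n ^ (2 * e) ≤ N) (hN : 2 ^ (4 * e) < N)
    (P : Finset (Fin N) → Prop)
    (hP : 2 * ((powersetCard n (univ : Finset (Fin N))).filter (fun U => P U)).card < N.choose n)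
    (M : Finset (Finset (Fin N) × Finset (Fin N))) (hQ : ∀ t ∈ M, t.2.card ^ e ≤ N ^ (e - 1))
    (hM : (M.filter (fun t => r ≤ (t.1 ∪ t.2).card)).card ^ (4 * e) ≤ N ^ r) :
    ∃ U : Finset (Fin N), U.card = n ∧ ¬ P U ∧ ∀ t ∈ M, t.1 ⊆ U → (t.1 ∪ (t.2 ∩ U)).card < r := by
  by_contra hcon
  push Not at hcon
  have hN1 : 1 ≤ N := le_trans Nat.one_le_two_pow hN.le
  have hnN : n ≤ N := by
    rcases Nat.eq_zero_or_pos n with h0 | h0
    · omega
    · calc n = n ^ 1 := (pow_one n).symm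
        _ ≤ n ^ (2 * e) := Nat.pow_le_pow_right h0 (by omega)
        _ ≤ N := hn
  obtain ⟨B, hB1, hBQ, hBe⟩ : ∃ B : ℕ, 1 ≤ B ∧ (∀ t ∈ M, t.2.card ≤ B) ∧ B ^ e ≤ N ^ (e - 1) := by
    refine ⟨max 1 (M.sup (fun t => t.2.card)), le_max_left _ _, ?_, ?_⟩
    · intro t ht
      exact le_trans (Finset.le_sup (f := fun t : Finset (Fin N) × Finset (Fin N) => t.2.card) ht) (le_max_right _ _)
    · rcases le_total (M.sup (fun t => t.2.card)) 1 with h | h
      · rw [max_eq_left h, one_pow]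
        exact Nat.one_le_pow _ _ hN1
      · rw [max_eq_right h]
        have hne : M.Nonempty := by
          by_contra hemp
          rw [Finset.not_nonempty_iff_eq_empty] at hemp
          subst hemp
          simp at h
        obtain ⟨t, ht, hts⟩ := Finset.exists_mem_eq_sup M hne (fun t => t.2.card)
        rw [hts]
        exact hQ t ht
  set M' := M.filter (fun t => r ≤ (t.1 ∪ t.2).card) with hM'
  set S := powersetCard n (univ : Finset (Fin N)) with hS
  have hcover : S ⊆ S.filter (fun U => P U) ∪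
      M'.biUnion (fun t => S.filter (fun W => t.1 ⊆ W ∧ r ≤ (t.1 ∪ (t.2 ∩ W)).card)) := by
    intro U hU
    have hUc : U.card = n := (Finset.mem_powersetCard.1 hU).2
    rw [Finset.mem_union]
    by_cases hPU : P U
    · left
      exact Finset.mem_filter.2 ⟨hU, hPU⟩
    · right
      obtain ⟨t, ht, h1, h2⟩ := hcon U hUc hPU
      refine Finset.mem_biUnion.2 ⟨t, ?_, Finset.mem_filter.2 ⟨hU, h1, h2⟩⟩
      rw [hM']
      refine Finset.mem_filter.2 ⟨ht, le_trans h2 (Finset.card_le_card ?_)⟩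
      exact Finset.union_subset_union_right Finset.inter_subset_left
  have hScard : S.card = N.choose n := by
    rw [hS, Finset.card_powersetCard, Finset.card_univ, Fintype.card_fin]
  have h1 : S.card ≤ (S.filter (fun U => P U)).card +
      ∑ t ∈ M', (S.filter (fun W => t.1 ⊆ W ∧ r ≤ (t.1 ∪ (t.2 ∩ W)).card)).card := by
    refine le_trans (Finset.card_le_card hcover) (le_trans (Finset.card_union_le _ _) ?_)
    exact Nat.add_le_add_left Finset.card_biUnion_le _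
  have h2 : (∑ t ∈ M', (S.filter (fun W => t.1 ⊆ W ∧ r ≤ (t.1 ∪ (t.2 ∩ W)).card)).card) * N ^ r
      ≤ M'.card * (N.choose n * (B ^ r * n ^ r)) := by
    rw [Finset.sum_mul]
    have := Finset.sum_le_card_nsmul M'
      (fun t => (S.filter (fun W => t.1 ⊆ W ∧ r ≤ (t.1 ∪ (t.2 ∩ W)).card)).card * N ^ r)
      (N.choose n * (B ^ r * n ^ r)) (by
        intro t ht
        have htM : t ∈ M := (Finset.mem_filter.1 ht).1
        have := Pic_one n r B hnN hB1 t.1 t.2 (hBQ t htM)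
        refine le_trans (le_of_eq ?_) this
        congr 2)
    rw [smul_eq_mul] at this
    exact this
  have h3 := Pic_num he hr hn hN hM hBe
  have hNr : 0 < N ^ r := pow_pos (by omega) _
  have h4 : 2 * (∑ t ∈ M', (S.filter (fun W => t.1 ⊆ W ∧ r ≤ (t.1 ∪ (t.2 ∩ W)).card)).card) ≤ N.choose n := by
    refine le_of_mul_le_mul_right ?_ hNr
    calc 2 * (∑ t ∈ M', (S.filter (fun W => t.1 ⊆ W ∧ r ≤ (t.1 ∪ (t.2 ∩ W)).card)).card) * N ^ r
        = 2 * ((∑ t ∈ M', (S.filter (fun W => t.1 ⊆ W ∧ r ≤ (t.1 ∪ (t.2 ∩ W)).card)).card) * N ^ r) := by ring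
      _ ≤ 2 * (M'.card * (N.choose n * (B ^ r * n ^ r))) := Nat.mul_le_mul_left _ h2
      _ = (2 * (M'.card * (B ^ r * n ^ r))) * N.choose n := by ring
      _ ≤ N ^ r * N.choose n := Nat.mul_le_mul_right _ h3.le
      _ = N.choose n * N ^ r := by ring
  rw [hScard] at h1
  omega

end Pool.Agent.H9.SQ
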