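import Pool.Agent.H9.SQ.Plb

/-!
Module Pol.  A pseudo-expectation excludes refutations (abstract).   Use only the STATEMENTS of Pla, Plb.
Apply `Lf E` to the identity.  `Lf E (-1) = -1` (`-1 = monomial 0 (-1)`).  For `q = lin M α` take `c` from `Lf_eq`:
`Lf (q²) = ∑ S, c S Lf (X_S q) = ∑ S, c S Lf (q X_S) = ∑ S, ∑ T, c S c T E (T ∪ S) ≥ 0` (`hpsd`).
`Lf (a (∑ X v - k)) = ∑ S, c S (∑ v, E (insert v S) - k E S)`, and this is `0` for `|S| < r` by `hlin`: the `v ∈ S` give `|S| E S`, the others `(k - |S|) E S`   (`X_S * X v`: `Lf_prod` with `T = {v}`).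
`Lf (b u v X u X v) = ∑ S, c S E (S ∪ {u, v}) = 0` for `u ≠ v` not adjacent (`hadj`; `X u * X v = ∏ w ∈ {u, v}, X w`); `b u v = 0` otherwise.   `Lf_bool` for the last sum.
-/

set_option autoImplicit false
set_option linter.unusedSectionVars false

open Finset MvPolynomial

namespace Pool.Agent.H9.SQ

open Pool.Agent.H9.KR

theorem Pol_neg_one {N : ℕ} (E : Finset (Fin N) → ℝ) (h1 : E ∅ = 1) :
    Lf E (-1 : MvPolynomial (Fin N) ℝ) = -1 := by
  have h : (-1 : MvPolynomial (Fin N) ℝ) = monomial 0 (-1 : ℝ) := by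
    rw [show (-1 : ℝ) = -(1 : ℝ) from rfl, ← C_apply, C_neg, C_1]
  rw [h, Lf_mono, Finsupp.support_zero, h1, mul_one]

theorem Pol_zero {N : ℕ} (E : Finset (Fin N) → ℝ) :
    Lf E (0 : MvPolynomial (Fin N) ℝ) = 0 := by
  have h := Lf_smul E 0 (0 : MvPolynomial (Fin N) ℝ)
  rw [mul_zero, zero_mul] at h
  exact h

theorem Pol_sub {N : ℕ} (E : Finset (Fin N) → ℝ) (q q' : MvPolynomial (Fin N) ℝ) :
    Lf E (q - q') = Lf E q - Lf E q' := by
  have h : q = (q - q') + q' := by ring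
  have h2 := Lf_add E (q - q') q'
  rw [← h] at h2
  linarith

theorem Pol_sq {N : ℕ} (r : ℕ) (U : Finset (Fin N))
    (E : Finset (Fin N) → ℝ)
    (hout : ∀ S : Finset (Fin N), ¬ S ⊆ U → E S = 0)
    (hpsd : ∀ c : Finset (Fin N) → ℝ, (∀ S, r < S.card → c S = 0) → 0 ≤ ∑ S, ∑ T, c S * c T * E (S ∪ T))
    (M : Finset (Finset (Fin N) × Finset (Fin N)))
    (hM : ∀ t ∈ M, t.1 ⊆ U → (t.1 ∪ (t.2 ∩ U)).card < r) (α : Finset (Fin N) × Finset (Fin N) → ℝ) :
    0 ≤ Lf E (lin M α ^ 2) := by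
  obtain ⟨c, hc, hg⟩ := Lf_eq r U E hout M hM α
  have h : Lf E (lin M α ^ 2) = ∑ S, ∑ T, c S * c T * E (S ∪ T) := by
    rw [sq, hg]
    refine Finset.sum_congr rfl fun S _ => ?_
    rw [mul_comm (∏ v ∈ S, X v) (lin M α), hg, Finset.mul_sum]
    refine Finset.sum_congr rfl fun T _ => ?_
    rw [Lf_prod, Finset.union_comm T S, mul_assoc]
  rw [h]
  exact hpsd c (fun S hS => hc S hS.le)

theorem Pol_lin {N : ℕ} (k r : ℕ) (U : Finset (Fin N))
    (E : Finset (Fin N) → ℝ)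
    (hlin : ∀ S : Finset (Fin N), S.card < 2 * r → ∑ v ∈ univ \ S, E (insert v S) = ((k : ℝ) - S.card) * E S)
    (hout : ∀ S : Finset (Fin N), ¬ S ⊆ U → E S = 0)
    (M : Finset (Finset (Fin N) × Finset (Fin N)))
    (hM : ∀ t ∈ M, t.1 ⊆ U → (t.1 ∪ (t.2 ∩ U)).card < r) (α : Finset (Fin N) × Finset (Fin N) → ℝ) :
    Lf E (lin M α * (∑ v, X v - (k : MvPolynomial (Fin N) ℝ))) = 0 := by
  obtain ⟨c, hc, hg⟩ := Lf_eq r U E hout M hM α
  rw [hg]
  refine Finset.sum_eq_zero fun S _ => ?_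
  rcases Nat.lt_or_ge S.card r with hS | hS
  · have hX : Lf E (∏ v ∈ S, X v) = E S := by
      have := Lf_prod E S ∅
      rwa [Finset.prod_empty, mul_one, Finset.union_empty] at this
    have hk : Lf E ((∏ v ∈ S, X v) * (k : MvPolynomial (Fin N) ℝ)) = k * E S := by
      have : (∏ v ∈ S, X v) * (k : MvPolynomial (Fin N) ℝ) = C (k : ℝ) * ∏ v ∈ S, X v := by
        rw [mul_comm]
        congr 1
      rw [this, Lf_smul, hX]
    have hv : ∀ v : Fin N, Lf E ((∏ w ∈ S, X w) * X v) = E (insert v S) := by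
      intro v
      have := Lf_prod E S {v}
      rw [Finset.prod_singleton] at this
      rw [this]
      congr 1
      ext w
      simp
    rw [mul_sub, Pol_sub, hk, Finset.mul_sum, Lf_sum]
    have h1 : ∑ v : Fin N, Lf E ((∏ w ∈ S, X w) * X v) = k * E S := by
      rw [Finset.sum_congr rfl (fun v _ => hv v), ← Finset.sum_sdiff (Finset.subset_univ S),
        hlin S (by omega)]
      have h2 : ∑ v ∈ S, E (insert v S) = ∑ v ∈ S, E S :=
        Finset.sum_congr rfl fun v hv => by rw [Finset.insert_eq_of_mem hv]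
      rw [h2, Finset.sum_const, nsmul_eq_mul]
      ring
    rw [h1, sub_self, mul_zero]
  · rw [hc S hS, zero_mul]

theorem Pol_adj {N : ℕ} (G : SimpleGraph (Fin N)) (r : ℕ) (U : Finset (Fin N))
    (E : Finset (Fin N) → ℝ)
    (hadj : ∀ (S : Finset (Fin N)) (u v : Fin N), u ∈ S → v ∈ S → u ≠ v → ¬ G.Adj u v → E S = 0)
    (hout : ∀ S : Finset (Fin N), ¬ S ⊆ U → E S = 0)
    (M : Finset (Finset (Fin N) × Finset (Fin N)))
    (hM : ∀ t ∈ M, t.1 ⊆ U → (t.1 ∪ (t.2 ∩ U)).card < r)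
    (b : Fin N → Fin N → Finset (Fin N) × Finset (Fin N) → ℝ)
    (hb : ∀ u v, (u = v ∨ G.Adj u v) → b u v = 0) (u v : Fin N) :
    Lf E (lin M (b u v) * (X u * X v)) = 0 := by
  by_cases h : u = v ∨ G.Adj u v
  · have h0 : lin M (b u v) = 0 := by
      rw [hb u v h]
      unfold lin
      refine Finset.sum_eq_zero fun t _ => ?_
      rw [Pi.zero_apply, C_0, zero_mul]
    rw [h0, zero_mul, Pol_zero]
  · rw [not_or] at h
    obtain ⟨c, hc, hg⟩ := Lf_eq r U E hout M hM (b u v)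
    rw [hg]
    refine Finset.sum_eq_zero fun S _ => ?_
    have h2 : (X u * X v : MvPolynomial (Fin N) ℝ) = ∏ w ∈ {u, v}, X w := by
      rw [Finset.prod_pair h.1]
    rw [h2, Lf_prod, hadj (S ∪ {u, v}) u v (by simp) (by simp) h.1 h.2, mul_zero]

theorem Pol_main {N : ℕ} (G : SimpleGraph (Fin N)) (k r : ℕ) (hr : 1 ≤ r) (U : Finset (Fin N))
    (E : Finset (Fin N) → ℝ) (h1 : E ∅ = 1)
    (hlin : ∀ S : Finset (Fin N), S.card < 2 * r → ∑ v ∈ univ \ S, E (insert v S) = ((k : ℝ) - S.card) * E S)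
    (hadj : ∀ (S : Finset (Fin N)) (u v : Fin N), u ∈ S → v ∈ S → u ≠ v → ¬ G.Adj u v → E S = 0)
    (hout : ∀ S : Finset (Fin N), ¬ S ⊆ U → E S = 0)
    (hpsd : ∀ c : Finset (Fin N) → ℝ, (∀ S, r < S.card → c S = 0) → 0 ≤ ∑ S, ∑ T, c S * c T * E (S ∪ T))
    (M : Finset (Finset (Fin N) × Finset (Fin N)))
    (hM : ∀ t ∈ M, t.1 ⊆ U → (t.1 ∪ (t.2 ∩ U)).card < r) : ¬ SosRefutation G k M := by
  rintro ⟨m, q, a, b, c, hb, heq⟩
  have h := congrArg (Lf E) heq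
  rw [Pol_neg_one E h1, Lf_add, Lf_add, Lf_add, Lf_sum, Lf_sum, Lf_sum,
    Pol_lin k r U E hlin hout M hM a] at h
  have h2 : ∑ i ∈ (Finset.univ : Finset (Fin m)), Lf E (lin M (q i) ^ 2) ≥ 0 :=
    Finset.sum_nonneg fun i _ => Pol_sq r U E hout hpsd M hM (q i)
  have h3 : ∑ u ∈ (Finset.univ : Finset (Fin N)),
      Lf E (∑ v, lin M (b u v) * (X u * X v)) = 0 := by
    refine Finset.sum_eq_zero fun u _ => ?_
    rw [Lf_sum]
    exact Finset.sum_eq_zero fun v _ => Pol_adj G r U E hadj hout M hM b hb u v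
  have h4 : ∑ v ∈ (Finset.univ : Finset (Fin N)), Lf E (c v * (X v ^ 2 - X v)) = 0 :=
    Finset.sum_eq_zero fun v _ => Lf_bool E (c v) v
  rw [h3, h4] at h
  linarith

end Pool.Agent.H9.SQ
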