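import Pool.Agent.H9.SQ.Nmb
import Pool.Agent.H9.SQ.Avg
import Pool.Agent.H9.SQ.Pic
import Pool.Agent.H9.SQ.Rgp
import Pool.Agent.H9.SQ.Pol
import Pool.Agent.H9.SQ.Psd

/-!
Module Fin.  The theorem.
-/

set_option autoImplicit false
set_option linter.unusedSectionVars false

open Finset

namespace Pool.Agent.H9.SQ

open Pool.Agent.H9.KR

theorem Fin_det {N : ℕ} (G : SimpleGraph (Fin N)) (n r k : ℕ) (p ε τ χ : ℝ) (H : Num n r k p ε τ χ)
    (U : Finset (Fin N)) (h : Reg G U n p ε (4 * r)) (M : Finset (Finset (Fin N) × Finset (Fin N)))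
    (hM : ∀ t ∈ M, t.1 ⊆ U → (t.1 ∪ (t.2 ∩ U)).card < r) : ¬ SosRefutation G k M :=
  Pol_main G k r H.r_pos U (Ez G U k (2 * r)) (Lin_one G U k (2 * r) (Psd_pos H h))
    (fun S hS => Lin_main G U k (2 * r) H.k_ge S hS)
    (fun S u v hu hv huv hadj => Lin_adj G U k (2 * r) S u v hu hv huv hadj)
    (fun S hS => Lin_out G U k (2 * r) S hS) (fun c hc => Psd_main H h c hc) M hM

theorem Fin_main (e r k N : ℕ) (p : unitInterval) (he : 1 ≤ e) (hr : 1 ≤ r) (hk : 2 * r ≤ k)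
    (hA : (e * k.choose r) ^ (100 * e) ≤ N) (hp : 1 ≤ N * (p : ℝ) ^ (100 * e * r)) :
    (SimpleGraph.binomialRandom (Fin N) p).real {G | ∃ M : Finset (Finset (Fin N) × Finset (Fin N)),
      (∀ t ∈ M, t.2.card ^ e ≤ N ^ (e - 1)) ∧ SosRefutation G k M ∧
      (M.filter (fun t => r ≤ (t.1 ∪ t.2).card)).card ^ (4 * e) ≤ N ^ r} ≤ 1 / N := by
  have hp0 : (0 : ℝ) ≤ (p : ℝ) := p.2.1
  have hp1 : (p : ℝ) ≤ 1 := p.2.2
  obtain ⟨n, ε, τ, χ, H, hn, hN, hε1, hz, hpr⟩ := Nmb_main N e r k p he hr hk hA hp0 hp1 hp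
  have hN0 : (0 : ℝ) < N := by
    have : 0 < N := lt_of_le_of_lt (Nat.zero_le _) hN
    exact_mod_cast this
  have hnN : n ≤ N := (Nat.le_self_pow (by omega) n).trans hn
  have hw : ∀ G : SimpleGraph (Fin N), 0 ≤ (SimpleGraph.binomialRandom (Fin N) p).real {G} :=
    fun G => MeasureTheory.measureReal_nonneg
  rw [real_eq_pr]
  have h1 := Avg_markov (fun G : SimpleGraph (Fin N) => (SimpleGraph.binomialRandom (Fin N) p).real {G}) hw hnN
    (fun G U => ¬ Reg G U n (p : ℝ) ε (4 * r)) (1 / (2 * N))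
    (fun U hU => (Rgp_main p U n (4 * r) hU ε H.ε_pos hε1 hz).trans hpr)
  have h2 : 2 * (1 / (2 * (N : ℝ))) = 1 / N := by
    field_simp
  rw [h2] at h1
  refine le_trans (pr_mono hw ?_) h1
  rintro G ⟨M, hQ, hR, hM⟩
  by_contra hcon
  push Not at hcon
  obtain ⟨U, hU, hreg, hUM⟩ := Pic_main he hr hn hN (fun U => ¬ Reg G U n (p : ℝ) ε (4 * r)) hcon M hQ hM
  exact Fin_det G n r k p ε τ χ H U (not_not.1 hreg) M hUM hR

end Pool.Agent.H9.SQ
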