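import Pool.Agent.H9.SQ.Defs

/-!
Module Fzn.  The numbers `Fz n p a z = n^a p^(a z + C(a,2)) / a!`.  No graphs.
`Fz_succ`: `(a+1) z + C(a+1,2) = z + a (z+1) + C(a,2)`.   `Fz_drop`: induction on `t`: `Fz (a-1) (z+1) = Fz a z * a / (n p^z) ≤ Fz a z * a / (n p^r)` (use `Fz_succ`).
-/

set_option autoImplicit false
set_option linter.unusedSectionVars false

open Finset

namespace Pool.Agent.H9.SQ

open Pool.Agent.H9.KR

theorem Fz_pos {n : ℕ} {p : ℝ} (hn : 1 ≤ n) (hp : 0 < p) (a z : ℕ) : 0 < Fz n p a z := by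
  unfold Fz
  have hn' : (0 : ℝ) < n := by exact_mod_cast hn
  positivity

theorem Fz_nonneg {n : ℕ} {p : ℝ} (hp : 0 ≤ p) (a z : ℕ) : 0 ≤ Fz n p a z := by
  unfold Fz
  positivity

theorem Fz_zero (n : ℕ) (p : ℝ) (z : ℕ) : Fz n p 0 z = 1 := by
  unfold Fz
  simp

theorem Fz_succ (n : ℕ) (p : ℝ) (a z : ℕ) :
    ((a : ℝ) + 1) * Fz n p (a + 1) z = n * p ^ z * Fz n p a (z + 1) := by
  unfold Fz
  have h1 : (a + 1) * z + (a + 1).choose 2 = z + (a * (z + 1) + a.choose 2) := by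
    have h2 : (a + 1).choose 2 = a + a.choose 2 := by
      rw [Nat.choose_succ_succ' a 1, Nat.choose_one_right]
    rw [h2]
    ring
  have h3 : ((a.factorial : ℕ) : ℝ) ≠ 0 := by
    exact_mod_cast Nat.factorial_ne_zero a
  have h4 : ((a : ℝ) + 1) ≠ 0 := by positivity
  rw [h1, Nat.factorial_succ, Nat.cast_mul, Nat.cast_add, Nat.cast_one, pow_add p z, pow_succ]
  field_simp

theorem Fz_shift (n : ℕ) (p : ℝ) (a z y : ℕ) : Fz n p a (z + y) = Fz n p a z * p ^ (a * y) := by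
  unfold Fz
  have h1 : a * (z + y) + a.choose 2 = (a * z + a.choose 2) + a * y := by ring
  rw [h1, pow_add p (a * z + a.choose 2)]
  ring

theorem Fz_drop {n : ℕ} {p : ℝ} (hn : 1 ≤ n) (hp : 0 < p) (hp1 : p ≤ 1) (a z t r : ℕ) (ht : t ≤ a)
    (hr : z + a ≤ r) : Fz n p (a - t) (z + t) ≤ Fz n p a z * ((a : ℝ) / (n * p ^ r)) ^ t := by
  have hn' : (0 : ℝ) < n := by exact_mod_cast hn
  induction t with
  | zero => simp
  | succ t ih =>
    have ih' := ih (by omega)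
    obtain ⟨b, hb⟩ : ∃ b, a - t = b + 1 := ⟨a - t - 1, by omega⟩
    have hb' : a - (t + 1) = b := by omega
    have h1 := Fz_succ n p b (z + t)
    rw [hb] at ih'
    rw [hb', show z + (t + 1) = z + t + 1 by ring]
    have hba : (b : ℝ) + 1 ≤ a := by
      have : b + 1 ≤ a := by omega
      exact_mod_cast this
    have hpr : p ^ r ≤ p ^ (z + t) := pow_le_pow_of_le_one hp.le hp1 (by omega)
    have hpr0 : 0 < p ^ r := pow_pos hp r
    have hpz0 : 0 < p ^ (z + t) := pow_pos hp _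
    have hF : 0 ≤ Fz n p (b + 1) (z + t) := Fz_nonneg hp.le _ _
    have h2 : Fz n p b (z + t + 1) = Fz n p (b + 1) (z + t) * (((b : ℝ) + 1) / (n * p ^ (z + t))) := by
      have h3 : (n : ℝ) * p ^ (z + t) ≠ 0 := by positivity
      rw [← mul_div_assoc, eq_div_iff h3]
      linear_combination -h1
    rw [h2]
    have h4 : ((b : ℝ) + 1) / (n * p ^ (z + t)) ≤ (a : ℝ) / (n * p ^ r) := by
      apply div_le_div₀ (by positivity) hba (by positivity)
      exact mul_le_mul_of_nonneg_left hpr hn'.le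
    calc Fz n p (b + 1) (z + t) * (((b : ℝ) + 1) / (n * p ^ (z + t)))
        ≤ (Fz n p a z * ((a : ℝ) / (n * p ^ r)) ^ t) * ((a : ℝ) / (n * p ^ r)) :=
          mul_le_mul ih' h4 (by positivity)
            (mul_nonneg (Fz_nonneg hp.le _ _) (by positivity))
      _ = Fz n p a z * ((a : ℝ) / (n * p ^ r)) ^ (t + 1) := by ring

end Pool.Agent.H9.SQ
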