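import Pool.Agent.H9.SQ.Sga

/-!
Module Grp.  Regrouping the pairs `(S, T)` of cliques with `r` vertices and `|S ∩ T| = s` as `R = S ∩ T`, `S' = S \ R`, `T' = T \ R`.
`Grp_sum`: `(S, T) ↦ (S ∩ T, S \ T, T \ S)` is a bijection from the pairs in `Cl G U r` with `|S ∩ T| = s` to the triples `R ∈ Cl G U s`, `S', T' ∈ Cl G (nb G U R) (r-s)` disjoint; `S ∪ T = R ∪ S' ∪ T'`; use `Sga_E` (`Use only its STATEMENT`).
For `S', T'` not disjoint `ez = 0`.  Outside `Cl G U r` the function `c` is `0`.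
-/

set_option autoImplicit false
set_option linter.unusedSectionVars false

open Finset

namespace Pool.Agent.H9.SQ

open Pool.Agent.H9.KR

variable {V : Type} [Fintype V] [DecidableEq V]

lemma Grp_mem {G : SimpleGraph V} {D : Finset V} {a : ℕ} {C : Finset V} :
    C ∈ Cl G D a ↔ C ⊆ D ∧ C.card = a ∧ IsCl G C := by
  classical
  unfold Cl
  rw [mem_filter, mem_powersetCard]
  tauto

lemma Grp_disj {G : SimpleGraph V} {U R S : Finset V} (h : S ⊆ nb G U R) : Disjoint R S := by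
  rw [Finset.disjoint_left]
  intro v hv hv'
  exact (mem_nb.1 (h hv')).2 v hv |>.ne rfl

lemma Grp_union {G : SimpleGraph V} {U R S : Finset V} {r s : ℕ} (hs : s < r) (hR : R ∈ Cl G U s)
    (hS : S ∈ Cl G (nb G U R) (r - s)) : R ∪ S ∈ Cl G U r := by
  rw [Grp_mem] at hR hS ⊢
  obtain ⟨hR1, hR2, hR3⟩ := hR
  obtain ⟨hS1, hS2, hS3⟩ := hS
  refine ⟨union_subset hR1 (hS1.trans (nb_sub G U R)), ?_, ?_⟩
  · rw [card_union_of_disjoint (Grp_disj hS1), hR2, hS2]
    omega
  · intro u hu v hv huv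
    rw [mem_union] at hu hv
    rcases hu with hu | hu <;> rcases hv with hv | hv
    · exact hR3 u hu v hv huv
    · exact (mem_nb.1 (hS1 hv)).2 u hu
    · exact ((mem_nb.1 (hS1 hu)).2 v hv).symm
    · exact hS3 u hu v hv huv

lemma Grp_sdiff {G : SimpleGraph V} {U S T : Finset V} {r s : ℕ} (hS : S ∈ Cl G U r)
    (hst : (S ∩ T).card = s) : S \ T ∈ Cl G (nb G U (S ∩ T)) (r - s) := by
  rw [Grp_mem] at hS ⊢
  obtain ⟨hS1, hS2, hS3⟩ := hS
  refine ⟨?_, ?_, ?_⟩
  · intro v hv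
    rw [mem_sdiff] at hv
    rw [mem_nb]
    refine ⟨hS1 hv.1, fun u hu => ?_⟩
    rw [mem_inter] at hu
    exact hS3 u hu.1 v hv.1 (fun h => hv.2 (h ▸ hu.2))
  · have := card_sdiff_add_card_inter S T
    omega
  · intro u hu v hv huv
    exact hS3 u (mem_sdiff.1 hu).1 v (mem_sdiff.1 hv).1 huv

lemma Grp_gen {G : SimpleGraph V} {U : Finset V} {r s : ℕ} (hs : s < r) (c : Finset V → ℝ)
    (hc : ∀ S, S ∉ Cl G U r → c S = 0) (F : Finset V → Finset V → ℝ) :
    (∑ S, ∑ T, (if (S ∩ T).card = s then c S * c T * F S T else 0)) =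
      ∑ R ∈ Cl G U s, ∑ S ∈ Cl G (nb G U R) (r - s), ∑ T ∈ Cl G (nb G U R) (r - s),
        (if Disjoint S T then c (R ∪ S) * c (R ∪ T) * F (R ∪ S) (R ∪ T) else 0) := by
  classical
  have h1 : (∑ S, ∑ T, (if (S ∩ T).card = s then c S * c T * F S T else 0)) =
      ∑ q ∈ (Cl G U r ×ˢ Cl G U r).filter (fun q => (q.1 ∩ q.2).card = s),
        c q.1 * c q.2 * F q.1 q.2 := by
    rw [sum_filter, sum_product]
    symm
    refine (sum_subset (subset_univ (Cl G U r)) ?_).trans ?_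
    · intro S _ hS
      refine sum_eq_zero fun T _ => ?_
      simp [hc S hS]
    · refine sum_congr rfl fun S _ => ?_
      refine sum_subset (subset_univ (Cl G U r)) ?_
      intro T _ hT
      simp [hc T hT]
  have h2 : (∑ R ∈ Cl G U s, ∑ S ∈ Cl G (nb G U R) (r - s), ∑ T ∈ Cl G (nb G U R) (r - s),
        (if Disjoint S T then c (R ∪ S) * c (R ∪ T) * F (R ∪ S) (R ∪ T) else 0)) =
      ∑ q ∈ ((Cl G U s).sigma
        (fun R => Cl G (nb G U R) (r - s) ×ˢ Cl G (nb G U R) (r - s))).filter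
          (fun q => Disjoint q.2.1 q.2.2),
        c (q.1 ∪ q.2.1) * c (q.1 ∪ q.2.2) * F (q.1 ∪ q.2.1) (q.1 ∪ q.2.2) := by
    rw [sum_filter, sum_sigma]
    refine sum_congr rfl fun R _ => ?_
    rw [sum_product]
  rw [h1, h2]
  symm
  refine sum_bij' (fun q _ => (q.1 ∪ q.2.1, q.1 ∪ q.2.2))
    (fun q _ => ⟨q.1 ∩ q.2, (q.1 \ q.2, q.2 \ q.1)⟩) ?_ ?_ ?_ ?_ ?_
  · rintro ⟨R, S, T⟩ hq
    rw [mem_filter, mem_sigma, mem_product] at hq
    obtain ⟨⟨hR, hS, hT⟩, hd⟩ := hq
    rw [mem_filter, mem_product]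
    refine ⟨⟨Grp_union hs hR hS, Grp_union hs hR hT⟩, ?_⟩
    have hd' : S ∩ T = ∅ := disjoint_iff_inter_eq_empty.1 hd
    have : (R ∪ S) ∩ (R ∪ T) = R := by
      rw [← union_inter_distrib_left, hd', union_empty]
    show ((R ∪ S) ∩ (R ∪ T)).card = s
    rw [this]
    exact (Grp_mem.1 hR).2.1
  · rintro ⟨S, T⟩ hq
    rw [mem_filter, mem_product] at hq
    obtain ⟨⟨hS, hT⟩, hst⟩ := hq
    change (S ∩ T).card = s at hst
    rw [mem_filter, mem_sigma, mem_product]
    have hst' : (T ∩ S).card = s := by rw [inter_comm]; exact hst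
    have hT2 := Grp_sdiff hT hst'
    rw [inter_comm T S] at hT2
    refine ⟨⟨?_, Grp_sdiff hS hst, hT2⟩, ?_⟩
    · show S ∩ T ∈ Cl G U s
      have hS' := Grp_mem.1 hS
      rw [Grp_mem]
      exact ⟨inter_subset_left.trans hS'.1, hst, fun u hu v hv huv =>
        hS'.2.2 u (mem_inter.1 hu).1 v (mem_inter.1 hv).1 huv⟩
    · show Disjoint (S \ T) (T \ S)
      rw [Finset.disjoint_left]
      intro v hv hv'
      exact (mem_sdiff.1 hv').2 (mem_sdiff.1 hv).1
  · rintro ⟨R, S, T⟩ hq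
    rw [mem_filter, mem_sigma, mem_product] at hq
    obtain ⟨⟨hR, hS, hT⟩, hd⟩ := hq
    have hRS : Disjoint R S := Grp_disj (Grp_mem.1 hS).1
    have hRT : Disjoint R T := Grp_disj (Grp_mem.1 hT).1
    have hd' : Disjoint S T := hd
    have e1 : (R ∪ S) ∩ (R ∪ T) = R := by
      rw [← union_inter_distrib_left, disjoint_iff_inter_eq_empty.1 hd', union_empty]
    have e2 : (R ∪ S) \ (R ∪ T) = S := by
      ext v
      simp only [mem_sdiff, mem_union]
      constructor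
      · rintro ⟨h | h, h'⟩
        · exact absurd (Or.inl h) h'
        · exact h
      · intro h
        refine ⟨Or.inr h, ?_⟩
        rintro (h' | h')
        · exact (Finset.disjoint_left.1 hRS) h' h
        · exact (Finset.disjoint_left.1 hd') h h'
    have e3 : (R ∪ T) \ (R ∪ S) = T := by
      ext v
      simp only [mem_sdiff, mem_union]
      constructor
      · rintro ⟨h | h, h'⟩
        · exact absurd (Or.inl h) h'
        · exact h
      · intro h
        refine ⟨Or.inr h, ?_⟩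
        rintro (h' | h')
        · exact (Finset.disjoint_left.1 hRT) h' h
        · exact (Finset.disjoint_left.1 hd') h' h
    show (⟨(R ∪ S) ∩ (R ∪ T), ((R ∪ S) \ (R ∪ T), (R ∪ T) \ (R ∪ S))⟩ :
      (_ : Finset V) × Finset V × Finset V) = ⟨R, (S, T)⟩
    rw [e1, e2, e3]
  · rintro ⟨S, T⟩ _
    have e1 : (S ∩ T) ∪ (S \ T) = S := by
      ext v
      simp only [mem_union, mem_inter, mem_sdiff]
      tauto
    have e2 : (S ∩ T) ∪ (T \ S) = T := by
      ext v
      simp only [mem_union, mem_inter, mem_sdiff]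
      tauto
    show ((S ∩ T) ∪ (S \ T), (S ∩ T) ∪ (T \ S)) = (S, T)
    rw [e1, e2]
  · rintro ⟨R, S, T⟩ _
    rfl

theorem Grp_sum {G : SimpleGraph V} {U : Finset V} {n r k : ℕ} {p ε τ χ : ℝ} (H : Num n r k p ε τ χ)
    (s : ℕ) (hs : s < r) (c : Finset V → ℝ) (hc : ∀ S, S ∉ Cl G U r → c S = 0) :
    (∑ S, ∑ T, (if (S ∩ T).card = s then c S * c T * Ez G U k (2 * r) (S ∪ T) else 0)) =
      bz n p k r ((Cl G U (2 * r)).card : ℝ) s *
        (∑ S, ∑ T, (if (S ∩ T).card = s then c S * c T else 0)) +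
      bz n p k r ((Cl G U (2 * r)).card : ℝ) s * ∑ R ∈ Cl G U s, ∑ S ∈ Cl G (nb G U R) (r - s),
        ∑ T ∈ Cl G (nb G U R) (r - s), c (R ∪ S) * c (R ∪ T) * ez G U n p r s R S T := by
  classical
  have hA := Grp_gen (G := G) (U := U) hs c hc (fun S T => Ez G U k (2 * r) (S ∪ T))
  have hB := Grp_gen (G := G) (U := U) hs c hc (fun _ _ => (1 : ℝ))
  simp only [mul_one] at hB
  rw [hA, hB, ← mul_add, ← sum_add_distrib, mul_sum]
  refine sum_congr rfl fun R hR => ?_
  rw [← sum_add_distrib, mul_sum]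
  refine sum_congr rfl fun S hS => ?_
  rw [← sum_add_distrib, mul_sum]
  refine sum_congr rfl fun T hT => ?_
  by_cases hd : Disjoint S T
  · rw [if_pos hd, if_pos hd]
    have hu : (R ∪ S) ∪ (R ∪ T) = R ∪ S ∪ T := by
      ext v
      simp only [mem_union]
      tauto
    show c (R ∪ S) * c (R ∪ T) * Ez G U k (2 * r) ((R ∪ S) ∪ (R ∪ T)) = _
    rw [hu, Sga_E H s hs.le R S T hR hS hT hd]
    have he : ez G U n p r s R S T = gz G U n p r s R S T - 1 := by
      unfold ez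
      rw [if_pos hd]
    rw [he]
    ring
  · rw [if_neg hd, if_neg hd]
    have he : ez G U n p r s R S T = 0 := by
      unfold ez
      rw [if_neg hd]
    rw [he]
    ring

end Pool.Agent.H9.SQ
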