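import Pool.Agent.H9.SQ.Defs

/-!
Module Grq.  `Grp_sq`: every `S ∈ Cl G U r` contains `C(r,s)` sets `R` of size `s`, and `(R, S') ↦ (R ∪ S', R)` is injective on the pairs `R ∈ Cl G U s`, `S' ∈ Cl G (nb G U R) (r-s)` (`S' = (R ∪ S') \ R`), with `R ∪ S' ∈ Cl G U r`;
so the left side is at most `∑ S ∈ Cl G U r, ∑ R ∈ S.powersetCard s, c S ^ 2`.
-/

set_option autoImplicit false
set_option linter.unusedSectionVars false

open Finset

namespace Pool.Agent.H9.SQ

open Pool.Agent.H9.KR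

variable {V : Type} [Fintype V] [DecidableEq V]

theorem Grq_dis (G : SimpleGraph V) (U R S : Finset V) (hS : S ⊆ nb G U R) : Disjoint R S := by
  classical
  rw [Finset.disjoint_left]
  intro v hR hv
  have h := hS hv
  unfold nb at h
  rw [Finset.mem_filter] at h
  exact G.irrefl (h.2 v hR)

theorem Grq_mem (G : SimpleGraph V) (U R S : Finset V) (r s : ℕ) (hs : s ≤ r) (hR : R ∈ Cl G U s)
    (hS : S ∈ Cl G (nb G U R) (r - s)) : R ∪ S ∈ Cl G U r := by
  classical
  unfold Cl at hR hS ⊢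
  rw [Finset.mem_filter, Finset.mem_powersetCard] at hR hS ⊢
  obtain ⟨⟨hRU, hRc⟩, hRcl⟩ := hR
  obtain ⟨⟨hSU, hSc⟩, hScl⟩ := hS
  have hd := Grq_dis G U R S hSU
  have hadj : ∀ v ∈ S, v ∈ U ∧ ∀ u ∈ R, G.Adj u v := by
    intro v hv
    have h := hSU hv
    unfold nb at h
    rw [Finset.mem_filter] at h
    exact h
  refine ⟨⟨?_, ?_⟩, ?_⟩
  · intro v hv
    rcases Finset.mem_union.1 hv with h | h
    · exact hRU h
    · exact (hadj v h).1
  · rw [Finset.card_union_of_disjoint hd, hRc, hSc]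
    omega
  · intro u hu v hv huv
    rcases Finset.mem_union.1 hu with h1 | h1 <;> rcases Finset.mem_union.1 hv with h2 | h2
    · exact hRcl u h1 v h2 huv
    · exact (hadj v h2).2 u h1
    · exact ((hadj u h1).2 v h2).symm
    · exact hScl u h1 v h2 huv

theorem Grp_sq (G : SimpleGraph V) (U : Finset V) (r s : ℕ) (hs : s ≤ r) (c : Finset V → ℝ)
    (hc : ∀ S, S ∉ Cl G U r → c S = 0) :
    ∑ R ∈ Cl G U s, ∑ S ∈ Cl G (nb G U R) (r - s), c (R ∪ S) ^ 2 ≤ (r.choose s : ℝ) * ∑ S, c S ^ 2 := by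
  classical
  have hsub : ∀ R S : Finset V, S ∈ Cl G (nb G U R) (r - s) → S ⊆ nb G U R := by
    intro R S hS
    unfold Cl at hS
    rw [Finset.mem_filter, Finset.mem_powersetCard] at hS
    exact hS.1.1
  have h1 : ∑ R ∈ Cl G U s, ∑ S ∈ Cl G (nb G U R) (r - s), c (R ∪ S) ^ 2
      = ∑ x ∈ (Cl G U s).sigma (fun R => Cl G (nb G U R) (r - s)), c (x.1 ∪ x.2) ^ 2 :=
    (Finset.sum_sigma (Cl G U s) (fun R => Cl G (nb G U R) (r - s))
      (fun x => c (x.1 ∪ x.2) ^ 2)).symm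
  let f : (Σ _ : Finset V, Finset V) → (Σ _ : Finset V, Finset V) := fun x => ⟨x.1 ∪ x.2, x.1⟩
  have hinj : Set.InjOn f (((Cl G U s).sigma (fun R => Cl G (nb G U R) (r - s)) :
      Finset (Σ _ : Finset V, Finset V)) : Set (Σ _ : Finset V, Finset V)) := by
    rintro ⟨R, S⟩ hx ⟨R', S'⟩ hy h
    rw [Finset.mem_coe, Finset.mem_sigma] at hx hy
    simp only [f, Sigma.mk.injEq] at h
    obtain ⟨h1, h2⟩ := h
    have h2' : R = R' := eq_of_heq h2
    subst h2'
    have d1 := Grq_dis G U R S (hsub R S hx.2)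
    have d2 := Grq_dis G U R S' (hsub R S' hy.2)
    have e1 : (R ∪ S) \ R = S := by
      rw [Finset.union_sdiff_left]
      exact Finset.sdiff_eq_self_of_disjoint d1.symm
    have e2 : (R ∪ S') \ R = S' := by
      rw [Finset.union_sdiff_left]
      exact Finset.sdiff_eq_self_of_disjoint d2.symm
    have : S = S' := by rw [← e1, ← e2, h1]
    rw [this]
  have h2 : ∑ x ∈ (Cl G U s).sigma (fun R => Cl G (nb G U R) (r - s)), c (x.1 ∪ x.2) ^ 2
      = ∑ y ∈ ((Cl G U s).sigma (fun R => Cl G (nb G U R) (r - s))).image f, c y.1 ^ 2 := by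
    rw [Finset.sum_image hinj]
  have h3 : ((Cl G U s).sigma (fun R => Cl G (nb G U R) (r - s))).image f ⊆
      (Cl G U r).sigma (fun T => T.powersetCard s) := by
    intro y hy
    rw [Finset.mem_image] at hy
    obtain ⟨⟨R, S⟩, hx, rfl⟩ := hy
    rw [Finset.mem_sigma] at hx
    rw [Finset.mem_sigma]
    refine ⟨Grq_mem G U R S r s hs hx.1 hx.2, ?_⟩
    rw [Finset.mem_powersetCard]
    refine ⟨Finset.subset_union_left, ?_⟩
    have hR := hx.1
    unfold Cl at hR
    rw [Finset.mem_filter, Finset.mem_powersetCard] at hR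
    exact hR.1.2
  have h4 : ∑ y ∈ (Cl G U r).sigma (fun T => T.powersetCard s), c y.1 ^ 2
      = ∑ T ∈ Cl G U r, (r.choose s : ℝ) * c T ^ 2 := by
    rw [Finset.sum_sigma]
    refine Finset.sum_congr rfl (fun T hT => ?_)
    have hTc : T.card = r := by
      unfold Cl at hT
      rw [Finset.mem_filter, Finset.mem_powersetCard] at hT
      exact hT.1.2
    simp only [Finset.sum_const, Finset.card_powersetCard, hTc, nsmul_eq_mul]
  rw [h1, h2]
  calc ∑ y ∈ ((Cl G U s).sigma (fun R => Cl G (nb G U R) (r - s))).image f, c y.1 ^ 2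
      ≤ ∑ y ∈ (Cl G U r).sigma (fun T => T.powersetCard s), c y.1 ^ 2 :=
        Finset.sum_le_sum_of_subset_of_nonneg h3 (fun _ _ _ => sq_nonneg _)
    _ = ∑ T ∈ Cl G U r, (r.choose s : ℝ) * c T ^ 2 := h4
    _ = (r.choose s : ℝ) * ∑ T ∈ Cl G U r, c T ^ 2 := by rw [Finset.mul_sum]
    _ ≤ (r.choose s : ℝ) * ∑ S, c S ^ 2 := by
        refine mul_le_mul_of_nonneg_left ?_ (Nat.cast_nonneg _)
        exact Finset.sum_le_sum_of_subset_of_nonneg (Finset.subset_univ _)
          (fun _ _ _ => sq_nonneg _)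

end Pool.Agent.H9.SQ
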