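import Pool.Agent.H9.SQ.Defs

/-!
Module Inc.  Inclusion matrices (abstract).
`Z_s := ∑ S, ∑ T, [|S ∩ T| = s] c S c T`, `Q_t := ∑_{|R| = t} (∑_{S ⊇ R} c S)^2 = ∑ S, ∑ T, C(|S ∩ T|, t) c S c T ≥ 0`, `Q_r = ∑ c^2`.
Binomial inversion for `j = |S ∩ T| ≤ r`: `[j = s] = ∑ t ∈ [s, r], (-1)^(t-s) C(t,s) C(j,t)`  (`C(j,t) C(t,s) = C(j,s) C(j-s,t-s)` and the alternating sum).
So `∑_{s<r} b_s Z_s = ∑_{t≤r} γ_t Q_t`, `γ_t = ∑_{s ≤ t, s < r} (-1)^(t-s) C(t,s) b_s`; `b_s ≤ ρ^(t-s) b_t`, `∑_{s<t} C(t,s) ρ^(t-s) = (1+ρ)^t - 1 ≤ 1/4` (as `(1+ρ)^r ≤ exp (r ρ)`);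
hence `γ_t ≥ 0` for `t < r` and `γ_r ≥ - b_r / 4`.
(Alternative without inversion: remove `s = 0, 1, 2, ...` one after the other: `Z_s = Q_s - ∑_{u>s} C(u,s) Z_u`.)
-/

set_option autoImplicit false
set_option linter.unusedSectionVars false

open Finset

namespace Pool.Agent.H9.SQ

open Pool.Agent.H9.KR

variable {V : Type} [Fintype V] [DecidableEq V]

/-- Binomial inversion. -/
private theorem Inc_inv (j s r : ℕ) (hj : j ≤ r) :
    ∑ t ∈ range (r + 1), (-1 : ℝ) ^ (s + t) * (t.choose s : ℝ) * (j.choose t : ℝ) =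
      if j = s then 1 else 0 := by
  by_cases hs : s ≤ j
  · obtain ⟨n, rfl⟩ := Nat.exists_eq_add_of_le hs
    have h1 : ∑ t ∈ range (r + 1), (-1 : ℝ) ^ (s + t) * (t.choose s : ℝ) * ((s + n).choose t : ℝ) =
        ∑ t ∈ range (s + (n + 1)), (-1 : ℝ) ^ (s + t) * (t.choose s : ℝ) * ((s + n).choose t : ℝ) := by
      symm
      apply Finset.sum_subset
      · intro t ht
        rw [Finset.mem_range] at ht ⊢
        omega
      · intro t _ ht
        rw [Finset.mem_range, not_lt] at ht
        rw [Nat.choose_eq_zero_of_lt (show s + n < t by omega)]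
        simp
    rw [h1, Finset.sum_range_add]
    have h2 : ∑ x ∈ range s, (-1 : ℝ) ^ (s + x) * (x.choose s : ℝ) * ((s + n).choose x : ℝ) = 0 := by
      apply Finset.sum_eq_zero
      intro t ht
      rw [Finset.mem_range] at ht
      rw [Nat.choose_eq_zero_of_lt ht]
      simp
    rw [h2, zero_add]
    have h3 : ∀ m ∈ range (n + 1), (-1 : ℝ) ^ (s + (s + m)) * ((s + m).choose s : ℝ) *
        ((s + n).choose (s + m) : ℝ) = ((s + n).choose s : ℝ) * ((-1 : ℝ) ^ m * (n.choose m : ℝ)) := by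
      intro m hm
      rw [Finset.mem_range] at hm
      have h4 : (s + n).choose (s + m) * (s + m).choose s = (s + n).choose s * n.choose m := by
        have h5 := Nat.choose_mul (n := s + n) (k := s + m) (s := s) (by omega)
        rw [Nat.add_sub_cancel_left, Nat.add_sub_cancel_left] at h5
        exact h5
      have h6 : ((s + n).choose (s + m) : ℝ) * ((s + m).choose s : ℝ) =
          ((s + n).choose s : ℝ) * (n.choose m : ℝ) := by exact_mod_cast h4
      have h7 : (-1 : ℝ) ^ (s + (s + m)) = (-1) ^ m := by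
        rw [← add_assoc, pow_add, ← two_mul, pow_mul]
        norm_num
      rw [h7]
      linear_combination (-1 : ℝ) ^ m * h6
    rw [Finset.sum_congr rfl h3, ← Finset.mul_sum]
    have h8 : ∑ m ∈ range (n + 1), ((-1 : ℝ) ^ m * (n.choose m : ℝ)) = if n = 0 then 1 else 0 := by
      have h9 := Int.alternating_sum_range_choose (n := n)
      have h10 : ((∑ m ∈ range (n + 1), ((-1 : ℤ) ^ m * (n.choose m : ℤ)) : ℤ) : ℝ) =
          ((if n = 0 then 1 else 0 : ℤ) : ℝ) := by rw [h9]
      push_cast at h10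
      exact h10
    rw [h8]
    by_cases hn : n = 0
    · subst hn
      simp
    · rw [if_neg hn, if_neg (by omega)]
      simp
  · rw [if_neg (by omega)]
    apply Finset.sum_eq_zero
    intro t _
    by_cases ht : t < s
    · rw [Nat.choose_eq_zero_of_lt ht]
      simp
    · rw [Nat.choose_eq_zero_of_lt (show j < t by omega)]
      simp

/-- The quadratic forms. -/
private noncomputable def IncQ (c : Finset V → ℝ) (t : ℕ) : ℝ :=
  ∑ S, ∑ T, (((S ∩ T).card.choose t : ℕ) : ℝ) * (c S * c T)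

private theorem Inc_Q_nonneg (c : Finset V → ℝ) (t : ℕ) : 0 ≤ IncQ c t := by
  have h1 : IncQ c t = ∑ R ∈ (univ : Finset V).powersetCard t, (∑ S, if R ⊆ S then c S else 0) ^ 2 := by
    unfold IncQ
    have h2 : ∀ S T : Finset V, (((S ∩ T).card.choose t : ℕ) : ℝ) * (c S * c T) =
        ∑ R ∈ (univ : Finset V).powersetCard t,
          (if R ⊆ S then c S else 0) * (if R ⊆ T then c T else 0) := by
      intro S T
      have h3 : (S ∩ T).powersetCard t =
          ((univ : Finset V).powersetCard t).filter (fun R => R ⊆ S ∩ T) := by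
        ext R
        simp only [Finset.mem_powersetCard, Finset.mem_filter, Finset.subset_univ, true_and]
        tauto
      rw [← Finset.card_powersetCard, h3, Finset.card_filter, Nat.cast_sum, Finset.sum_mul]
      apply Finset.sum_congr rfl
      intro R _
      by_cases hS : R ⊆ S
      · by_cases hT : R ⊆ T
        · rw [if_pos (Finset.subset_inter hS hT), if_pos hS, if_pos hT, Nat.cast_one, one_mul]
        · rw [if_neg (fun h => hT (h.trans Finset.inter_subset_right)), if_neg hT, Nat.cast_zero,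
            zero_mul, mul_zero]
      · rw [if_neg (fun h => hS (h.trans Finset.inter_subset_left)), if_neg hS, Nat.cast_zero,
          zero_mul, zero_mul]
    calc ∑ S, ∑ T, (((S ∩ T).card.choose t : ℕ) : ℝ) * (c S * c T)
        = ∑ S, ∑ T, ∑ R ∈ (univ : Finset V).powersetCard t,
          (if R ⊆ S then c S else 0) * (if R ⊆ T then c T else 0) := by
          apply Finset.sum_congr rfl
          intro S _
          apply Finset.sum_congr rfl
          intro T _
          exact h2 S T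
      _ = ∑ S, ∑ R ∈ (univ : Finset V).powersetCard t, ∑ T,
          (if R ⊆ S then c S else 0) * (if R ⊆ T then c T else 0) := by
          apply Finset.sum_congr rfl
          intro S _
          exact Finset.sum_comm
      _ = ∑ R ∈ (univ : Finset V).powersetCard t, ∑ S, ∑ T,
          (if R ⊆ S then c S else 0) * (if R ⊆ T then c T else 0) := Finset.sum_comm
      _ = _ := by
          apply Finset.sum_congr rfl
          intro R _
          rw [sq, Finset.sum_mul_sum]
  rw [h1]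
  exact Finset.sum_nonneg fun R _ => sq_nonneg _

private theorem Inc_Q_top (c : Finset V → ℝ) (r : ℕ) (hc : ∀ S, S.card ≠ r → c S = 0) :
    IncQ c r = ∑ S, c S ^ 2 := by
  unfold IncQ
  apply Finset.sum_congr rfl
  intro S _
  by_cases hS : S.card = r
  · rw [Finset.sum_eq_single S]
    · rw [Finset.inter_self, hS, Nat.choose_self]
      push_cast
      ring
    · intro T _ hT
      by_cases hTr : T.card = r
      · have h1 : (S ∩ T).card < r := by
          by_contra h2
          rw [not_lt] at h2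
          have h3 : S ∩ T = S := Finset.eq_of_subset_of_card_le Finset.inter_subset_left (by omega)
          have h4 : S ∩ T = T := Finset.eq_of_subset_of_card_le Finset.inter_subset_right (by omega)
          exact hT (h4.symm.trans h3)
        rw [Nat.choose_eq_zero_of_lt h1]
        simp
      · rw [hc T hTr]
        simp
    · intro h
      exact absurd (Finset.mem_univ S) h
  · rw [hc S hS]
    simp

private theorem Inc_Z (c : Finset V → ℝ) (r : ℕ) (hc : ∀ S, S.card ≠ r → c S = 0) (s : ℕ) :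
    ∑ S, ∑ T, (if (S ∩ T).card = s then c S * c T else 0) =
      ∑ t ∈ range (r + 1), (-1 : ℝ) ^ (s + t) * (t.choose s : ℝ) * IncQ c t := by
  have h1 : ∀ S T : Finset V, (if (S ∩ T).card = s then c S * c T else 0) =
      ∑ t ∈ range (r + 1), (-1 : ℝ) ^ (s + t) * (t.choose s : ℝ) *
        ((((S ∩ T).card.choose t : ℕ) : ℝ) * (c S * c T)) := by
    intro S T
    by_cases hS : S.card = r
    · have h2 := Inc_inv (S ∩ T).card s r (by
        rw [← hS]
        exact Finset.card_le_card Finset.inter_subset_left)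
      have h3 : ∑ t ∈ range (r + 1), (-1 : ℝ) ^ (s + t) * (t.choose s : ℝ) *
        ((((S ∩ T).card.choose t : ℕ) : ℝ) * (c S * c T)) =
        (∑ t ∈ range (r + 1), (-1 : ℝ) ^ (s + t) * (t.choose s : ℝ) * ((S ∩ T).card.choose t : ℝ)) *
          (c S * c T) := by
        rw [Finset.sum_mul]
        apply Finset.sum_congr rfl
        intro t _
        ring
      rw [h3, h2]
      by_cases h : (S ∩ T).card = s
      · rw [if_pos h, if_pos h, one_mul]
      · rw [if_neg h, if_neg h, zero_mul]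
    · rw [hc S hS]
      simp
  calc ∑ S, ∑ T, (if (S ∩ T).card = s then c S * c T else 0)
      = ∑ S, ∑ T, ∑ t ∈ range (r + 1), (-1 : ℝ) ^ (s + t) * (t.choose s : ℝ) *
        ((((S ∩ T).card.choose t : ℕ) : ℝ) * (c S * c T)) := by
        apply Finset.sum_congr rfl
        intro S _
        apply Finset.sum_congr rfl
        intro T _
        exact h1 S T
    _ = ∑ S, ∑ t ∈ range (r + 1), ∑ T, (-1 : ℝ) ^ (s + t) * (t.choose s : ℝ) *
        ((((S ∩ T).card.choose t : ℕ) : ℝ) * (c S * c T)) := by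
        apply Finset.sum_congr rfl
        intro S _
        exact Finset.sum_comm
    _ = ∑ t ∈ range (r + 1), ∑ S, ∑ T, (-1 : ℝ) ^ (s + t) * (t.choose s : ℝ) *
        ((((S ∩ T).card.choose t : ℕ) : ℝ) * (c S * c T)) := Finset.sum_comm
    _ = _ := by
        apply Finset.sum_congr rfl
        intro t _
        unfold IncQ
        rw [Finset.mul_sum]
        apply Finset.sum_congr rfl
        intro S _
        rw [Finset.mul_sum]

/-- The geometric decay. -/
private theorem Inc_geo (r : ℕ) (b : ℕ → ℝ) (ρ : ℝ) (hρ0 : 0 ≤ ρ)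
    (hρ : ∀ s < r, b s ≤ ρ * b (s + 1)) (s m : ℕ) (h : s + m ≤ r) : b s ≤ ρ ^ m * b (s + m) := by
  induction m with
  | zero => simp
  | succ m ih =>
    have h1 := ih (by omega)
    have h2 := hρ (s + m) (by omega)
    calc b s ≤ ρ ^ m * b (s + m) := h1
      _ ≤ ρ ^ m * (ρ * b (s + m + 1)) := mul_le_mul_of_nonneg_left h2 (pow_nonneg hρ0 m)
      _ = ρ ^ (m + 1) * b (s + (m + 1)) := by
        rw [pow_succ, ← add_assoc]
        ring

private theorem Inc_sum (r : ℕ) (b : ℕ → ℝ) (hb : ∀ s ≤ r, 0 ≤ b s) (ρ : ℝ) (hρ0 : 0 ≤ ρ)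
    (hρ : ∀ s < r, b s ≤ ρ * b (s + 1)) (hρr : (r : ℝ) * ρ ≤ 1 / 16) (t : ℕ) (ht : t ≤ r) :
    ∑ s ∈ range t, (t.choose s : ℝ) * b s ≤ 1 / 4 * b t := by
  have h1 : ∀ s ∈ range t, (t.choose s : ℝ) * b s ≤ ((t.choose s : ℝ) * ρ ^ (t - s)) * b t := by
    intro s hs
    rw [Finset.mem_range] at hs
    have h2 := Inc_geo r b ρ hρ0 hρ s (t - s) (by omega)
    rw [show s + (t - s) = t by omega] at h2
    rw [mul_assoc]
    exact mul_le_mul_of_nonneg_left h2 (Nat.cast_nonneg _)
  have h3 : ∑ s ∈ range t, (t.choose s : ℝ) * ρ ^ (t - s) = (1 + ρ) ^ t - 1 := by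
    have h4 := add_pow (1 : ℝ) ρ t
    rw [Finset.sum_range_succ] at h4
    have h5 : ∑ m ∈ range t, (1 : ℝ) ^ m * ρ ^ (t - m) * (t.choose m : ℝ) =
        ∑ s ∈ range t, (t.choose s : ℝ) * ρ ^ (t - s) := by
      apply Finset.sum_congr rfl
      intro s _
      rw [one_pow]
      ring
    rw [h5] at h4
    rw [h4]
    simp
  have h6 : (1 + ρ) ^ t ≤ 5 / 4 := by
    have h7 : 1 + ρ ≤ Real.exp ρ := by
      have := Real.add_one_le_exp ρ
      linarith
    have h8 : (1 + ρ) ^ t ≤ Real.exp ρ ^ t := pow_le_pow_left₀ (by linarith) h7 t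
    rw [← Real.exp_nat_mul] at h8
    have h9 : (t : ℝ) * ρ ≤ 1 / 16 := by
      refine le_trans (mul_le_mul_of_nonneg_right ?_ hρ0) hρr
      exact_mod_cast ht
    have h10 : Real.exp ((t : ℝ) * ρ) ≤ Real.exp (1 / 16) := Real.exp_le_exp.mpr h9
    have h11 : Real.exp (1 / 16) ≤ 5 / 4 := by
      have h12 := Real.add_one_le_exp (-(1 / 16) : ℝ)
      have h13 : Real.exp (-(1 / 16) : ℝ) * Real.exp (1 / 16) = 1 := by
        rw [← Real.exp_add]
        norm_num
      have h14 := Real.exp_pos (1 / 16 : ℝ)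
      nlinarith
    linarith
  calc ∑ s ∈ range t, (t.choose s : ℝ) * b s
      ≤ ∑ s ∈ range t, ((t.choose s : ℝ) * ρ ^ (t - s)) * b t := Finset.sum_le_sum h1
    _ = ((1 + ρ) ^ t - 1) * b t := by rw [← Finset.sum_mul, h3]
    _ ≤ 1 / 4 * b t := mul_le_mul_of_nonneg_right (by linarith) (hb t ht)

private theorem Inc_sign (n : ℕ) (x : ℝ) (hx : 0 ≤ x) : -x ≤ (-1 : ℝ) ^ n * x := by
  rcases neg_one_pow_eq_or ℝ n with h | h
  · rw [h]
    linarith
  · rw [h]
    linarith

theorem Inc_main (c : Finset V → ℝ) (r : ℕ) (hc : ∀ S, S.card ≠ r → c S = 0) (b : ℕ → ℝ)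
    (hb : ∀ s ≤ r, 0 ≤ b s) (ρ : ℝ) (hρ0 : 0 ≤ ρ) (hρ : ∀ s < r, b s ≤ ρ * b (s + 1))
    (hρr : (r : ℝ) * ρ ≤ 1 / 16) :
    -(1 / 4) * b r * ∑ S, c S ^ 2 ≤
      ∑ s ∈ range r, b s * ∑ S, ∑ T, (if (S ∩ T).card = s then c S * c T else 0) := by
  have h1 : ∑ s ∈ range r, b s * ∑ S, ∑ T, (if (S ∩ T).card = s then c S * c T else 0) =
      ∑ t ∈ range (r + 1), (∑ s ∈ range r, (-1 : ℝ) ^ (s + t) * ((t.choose s : ℝ) * b s)) * IncQ c t := by
    calc ∑ s ∈ range r, b s * ∑ S, ∑ T, (if (S ∩ T).card = s then c S * c T else 0)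
        = ∑ s ∈ range r, ∑ t ∈ range (r + 1),
            ((-1 : ℝ) ^ (s + t) * ((t.choose s : ℝ) * b s)) * IncQ c t := by
          apply Finset.sum_congr rfl
          intro s _
          rw [Inc_Z c r hc s, Finset.mul_sum]
          apply Finset.sum_congr rfl
          intro t _
          ring
      _ = ∑ t ∈ range (r + 1), ∑ s ∈ range r,
            ((-1 : ℝ) ^ (s + t) * ((t.choose s : ℝ) * b s)) * IncQ c t := Finset.sum_comm
      _ = _ := by
          apply Finset.sum_congr rfl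
          intro t _
          rw [Finset.sum_mul]
  rw [h1, Finset.sum_range_succ, Inc_Q_top c r hc]
  have h2 : 0 ≤ ∑ t ∈ range r,
      (∑ s ∈ range r, (-1 : ℝ) ^ (s + t) * ((t.choose s : ℝ) * b s)) * IncQ c t := by
    apply Finset.sum_nonneg
    intro t ht
    rw [Finset.mem_range] at ht
    apply mul_nonneg _ (Inc_Q_nonneg c t)
    have h3 : ∑ s ∈ range r, (-1 : ℝ) ^ (s + t) * ((t.choose s : ℝ) * b s) =
        ∑ s ∈ range (t + 1), (-1 : ℝ) ^ (s + t) * ((t.choose s : ℝ) * b s) := by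
      symm
      apply Finset.sum_subset
      · intro s hs
        rw [Finset.mem_range] at hs ⊢
        omega
      · intro s _ hs
        rw [Finset.mem_range, not_lt] at hs
        rw [Nat.choose_eq_zero_of_lt (show t < s by omega)]
        simp
    rw [h3, Finset.sum_range_succ, Nat.choose_self, ← two_mul, pow_mul]
    have h4 : ∀ s ∈ range t, -((t.choose s : ℝ) * b s) ≤ (-1 : ℝ) ^ (s + t) * ((t.choose s : ℝ) * b s) := by
      intro s hs
      rw [Finset.mem_range] at hs
      exact Inc_sign _ _ (mul_nonneg (Nat.cast_nonneg _) (hb s (by omega)))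
    have h5 := Finset.sum_le_sum h4
    rw [Finset.sum_neg_distrib] at h5
    have h6 := Inc_sum r b hb ρ hρ0 hρ hρr t ht.le
    have h7 := hb t ht.le
    norm_num
    linarith
  have h8 : ∀ s ∈ range r, -((r.choose s : ℝ) * b s) ≤ (-1 : ℝ) ^ (s + r) * ((r.choose s : ℝ) * b s) := by
    intro s hs
    rw [Finset.mem_range] at hs
    exact Inc_sign _ _ (mul_nonneg (Nat.cast_nonneg _) (hb s hs.le))
  have h9 := Finset.sum_le_sum h8
  rw [Finset.sum_neg_distrib] at h9
  have h10 := Inc_sum r b hb ρ hρ0 hρ hρr r le_rfl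
  have h11 : 0 ≤ ∑ S : Finset V, c S ^ 2 := Finset.sum_nonneg fun S _ => sq_nonneg _
  have h12 : -(1 / 4) * b r * ∑ S : Finset V, c S ^ 2 ≤
      (∑ s ∈ range r, (-1 : ℝ) ^ (s + r) * ((r.choose s : ℝ) * b s)) * ∑ S : Finset V, c S ^ 2 := by
    apply mul_le_mul_of_nonneg_right _ h11
    linarith
  linarith

end Pool.Agent.H9.SQ
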