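import Pool.Agent.H9.SQ.Defs

/-!
Module Nmb.  The numbers.  `A = C(k,r)`, `(e A)^(100 e) ≤ N`, `1 ≤ N p^(100 e r)`, `2 r ≤ k`, `1 ≤ r`, `1 ≤ e`.
Put `M = N^(1/(100 e))` (real), so `M^(100 e) = N`, `2 ≤ A ≤ M` (`A ≥ 2`), `e ≤ M`, `r ≤ A`, `k ≤ A` (`C(2r,r) ≥ 2^r`, `C(k,r) ≥ k` as `1 ≤ r ≤ k-1`), `p^r ≥ 1/M` (from `(M p^r)^(100 e) ≥ 1`).
`n` = the largest number with `n^(2e) ≤ N` (`Nat.findGreatest`, or `⌊N^(1/(2e))⌋`), so `M^50 < n + 1`, `M^50 / 2 ≤ n` and `n ≤ M^50`;  `ε = 1/M^12`, `τ = 8 r ε`, `χ = r²/(n p^(3r))`.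
`cut`: `ε n p^(4r) ≥ M^(50-12-4)/2 ≥ 4 M`.  `τ ≤ 8/M^11 ≤ 1/64`.  `χ ≤ 2 M^(2-50+3) ≤ 1/64`.  `r k/(n p^r) ≤ 2 M^(2-50+1)`.  `big`: `M^4 * 16 * (100 * 64 M^(-22) + 60 M^(-45)) ≤ 102401 M^(-18) ≤ 1` as `2^18 = 262144`.
Last claim: the exponent is at least `M^(50-24-4)/64 = M^22/64`, and `log (2 (n+1)^(4r) * 2N) ≤ 2 + 4 M (1 + 50 log M) + 100 e log M ≤ 2 + 4 M + 300 M² ≤ M^22/64` for `M ≥ 2` (`log M ≤ M`, `e ≤ M`).
-/

set_option autoImplicit false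
set_option linter.unusedSectionVars false

open Finset

namespace Pool.Agent.H9.SQ

open Pool.Agent.H9.KR

theorem Nmb_choose {k r : ℕ} (hr : 1 ≤ r) (hk : 2 * r ≤ k) : k ≤ k.choose r := by
  have h1 : k.choose 1 ≤ k.choose r := by
    induction r, hr using Nat.le_induction with
    | base => exact le_rfl
    | succ m hm ih => exact (ih (by omega)).trans (Nat.choose_le_succ_of_lt_half_left (by omega))
  simpa using h1

/-- Real-number form: everything in terms of `M`. -/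
theorem Nmb_main (N e r k : ℕ) (p : ℝ) (he : 1 ≤ e) (hr : 1 ≤ r) (hk : 2 * r ≤ k)
    (hA : (e * k.choose r) ^ (100 * e) ≤ N) (hp0 : 0 ≤ p) (hp1 : p ≤ 1) (hp : 1 ≤ N * p ^ (100 * e * r)) :
    ∃ (n : ℕ) (ε τ χ : ℝ), Num n r k p ε τ χ ∧ n ^ (2 * e) ≤ N ∧ 2 ^ (4 * e) < N ∧ ε ≤ 1 ∧
      2 * ((4 * r : ℕ) : ℝ) ≤ ε * n ∧
      2 * ((n : ℝ) + 1) ^ (4 * r) * Real.exp (-(ε ^ 2 * (n * p ^ (4 * r)) / 32)) ≤ 1 / (2 * N) := by
  have hkA : k ≤ k.choose r := Nmb_choose hr hk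
  have hA2 : 2 ≤ k.choose r := by omega
  have hE : 100 * e ≠ 0 := by omega
  have hE' : ((100 * e : ℕ) : ℝ) ≠ 0 := by exact_mod_cast hE
  have hN0 : (0 : ℝ) ≤ (N : ℝ) := Nat.cast_nonneg _
  obtain ⟨M, hMdef⟩ : ∃ M : ℝ, M = (N : ℝ) ^ (((100 * e : ℕ) : ℝ)⁻¹) := ⟨_, rfl⟩
  have hM0 : 0 ≤ M := by rw [hMdef]; exact Real.rpow_nonneg hN0 _
  have hMN : M ^ (100 * e) = N := by
    rw [hMdef]; exact Real.rpow_inv_natCast_pow hN0 hE
  have heA : ((e * k.choose r : ℕ) : ℝ) ≤ M := by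
    by_contra hcon
    push Not at hcon
    have h1 : M ^ (100 * e) < ((e * k.choose r : ℕ) : ℝ) ^ (100 * e) := pow_lt_pow_left₀ hcon hM0 hE
    rw [hMN] at h1
    have h2 : (((e * k.choose r) ^ (100 * e) : ℕ) : ℝ) ≤ N := by exact_mod_cast hA
    push_cast at h1 h2
    linarith
  have hAM : (k.choose r : ℝ) ≤ M := by
    refine le_trans ?_ heA
    have : k.choose r ≤ e * k.choose r := Nat.le_mul_of_pos_left _ he
    exact_mod_cast this
  have heM : (e : ℝ) ≤ M := by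
    refine le_trans ?_ heA
    have : e ≤ e * k.choose r := Nat.le_mul_of_pos_right _ (by omega)
    exact_mod_cast this
  have hkM : (k : ℝ) ≤ M := le_trans (by exact_mod_cast hkA) hAM
  have hrM : (r : ℝ) ≤ M := le_trans (by exact_mod_cast (by omega : r ≤ k)) hkM
  have hM2 : (2 : ℝ) ≤ M := le_trans (by exact_mod_cast hA2) hAM
  have hMpos : 0 < M := by linarith
  have hr1 : (1 : ℝ) ≤ r := by exact_mod_cast hr
  have he1 : (1 : ℝ) ≤ e := by exact_mod_cast he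
  have hNpos : (0 : ℝ) < N := by rw [← hMN]; positivity
  -- q = p ^ r
  obtain ⟨q, hq⟩ : ∃ q : ℝ, q = p ^ r := ⟨_, rfl⟩
  have hq0 : 0 ≤ q := by rw [hq]; exact pow_nonneg hp0 _
  have hq1 : q ≤ 1 := by rw [hq]; exact pow_le_one₀ hp0 hp1
  have hMq : 1 ≤ M * q := by
    by_contra hcon
    push Not at hcon
    have h1 : (M * q) ^ (100 * e) < 1 := pow_lt_one₀ (by positivity) hcon hE
    rw [mul_pow, hMN, hq, ← pow_mul, mul_comm r (100 * e)] at h1
    linarith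
  have hqpos : 0 < q := by
    rcases hq0.lt_or_eq with h | h
    · exact h
    · rw [← h] at hMq; simp at hMq; linarith
  have hqM : 1 / M ≤ q := by rw [div_le_iff₀ hMpos]; linarith [mul_comm M q]
  have hppos : 0 < p := by
    rcases hp0.lt_or_eq with h | h
    · exact h
    · exfalso; rw [← h, zero_pow (by omega)] at hq; linarith
  have hq4 : p ^ (4 * r) = q ^ 4 := by rw [hq, ← pow_mul, mul_comm]
  have hq3 : p ^ (3 * r) = q ^ 3 := by rw [hq, ← pow_mul, mul_comm]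
  -- n
  obtain ⟨n, hn⟩ : ∃ n : ℕ, n = ⌊M ^ 50⌋₊ := ⟨_, rfl⟩
  have hnle : (n : ℝ) ≤ M ^ 50 := by rw [hn]; exact Nat.floor_le (by positivity)
  have hnlt : M ^ 50 < (n : ℝ) + 1 := by rw [hn]; exact Nat.lt_floor_add_one _
  have hM50 : (2 : ℝ) ^ 50 ≤ M ^ 50 := pow_le_pow_left₀ (by norm_num) hM2 50
  have hnhalf : M ^ 50 / 2 ≤ (n : ℝ) := by norm_num at hM50; linarith
  have hnpos : (0 : ℝ) < n := by
    have : 0 < M ^ 50 / 2 := by positivity
    linarith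
  have hn1 : 1 ≤ n := by
    have : 0 < n := by exact_mod_cast hnpos
    omega
  have hq4M : 1 / M ^ 4 ≤ q ^ 4 := by
    have := pow_le_pow_left₀ (by positivity) hqM 4
    rwa [div_pow, one_pow] at this
  have hq3M : 1 / M ^ 3 ≤ q ^ 3 := by
    have := pow_le_pow_left₀ (by positivity) hqM 3
    rwa [div_pow, one_pow] at this
  have hpw : ∀ j : ℕ, (2 : ℝ) ^ j ≤ M ^ j := fun j => pow_le_pow_left₀ (by norm_num) hM2 j
  -- lower bounds for n q^j
  have hnq4 : M ^ 46 / 2 ≤ n * q ^ 4 := by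
    calc M ^ 46 / 2 = (M ^ 50 / 2) * (1 / M ^ 4) := by field_simp
      _ ≤ n * q ^ 4 := mul_le_mul hnhalf hq4M (by positivity) hnpos.le
  have hnq3 : M ^ 47 / 2 ≤ n * q ^ 3 := by
    calc M ^ 47 / 2 = (M ^ 50 / 2) * (1 / M ^ 3) := by field_simp
      _ ≤ n * q ^ 3 := mul_le_mul hnhalf hq3M (by positivity) hnpos.le
  have hnq1 : M ^ 49 / 2 ≤ n * q := by
    calc M ^ 49 / 2 = (M ^ 50 / 2) * (1 / M) := by field_simp
      _ ≤ n * q := mul_le_mul hnhalf hqM (by positivity) hnpos.le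
  have hχ : (r : ℝ) ^ 2 / (n * p ^ (3 * r)) ≤ 2 / M ^ 45 := by
    rw [hq3, div_le_div_iff₀ (by positivity) (by positivity)]
    have h1 : (r : ℝ) ^ 2 ≤ M ^ 2 := pow_le_pow_left₀ (by positivity) hrM 2
    calc (r : ℝ) ^ 2 * M ^ 45 ≤ M ^ 2 * M ^ 45 := by gcongr
      _ = 2 * (M ^ 47 / 2) := by ring
      _ ≤ 2 * (n * q ^ 3) := by gcongr
  have hε12 : (0 : ℝ) < 1 / M ^ 12 := by positivity
  refine ⟨n, 1 / M ^ 12, 8 * r * (1 / M ^ 12), (r : ℝ) ^ 2 / (n * p ^ (3 * r)), ?_, ?_, ?_, ?_, ?_, ?_⟩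
  · have hτ : 8 * (r : ℝ) * (1 / M ^ 12) ≤ 8 / M ^ 11 := by
      calc 8 * (r : ℝ) * (1 / M ^ 12) ≤ 8 * M * (1 / M ^ 12) := by gcongr
        _ = 8 / M ^ 11 := by field_simp
    have hτ0 : 0 ≤ 8 * (r : ℝ) * (1 / M ^ 12) := by positivity
    refine ⟨hppos, hp1, hr, hk, hn1, hε12, ?_, le_rfl, ?_, le_rfl, ?_, ?_, ?_⟩
    · rw [hq4]
      have h33 := hpw 33
      calc 4 * (r : ℝ) ≤ 4 * M := by gcongr
        _ ≤ M ^ 34 / 2 := by
          have : (8 : ℝ) ≤ M ^ 33 := le_trans (by norm_num) h33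
          nlinarith
        _ = 1 / M ^ 12 * (M ^ 46 / 2) := by field_simp
        _ ≤ 1 / M ^ 12 * (n * q ^ 4) := by gcongr
    · refine hτ.trans ?_
      rw [div_le_div_iff₀ (by positivity) (by norm_num)]
      have := hpw 11
      norm_num at this
      linarith
    · refine hχ.trans ?_
      rw [div_le_div_iff₀ (by positivity) (by norm_num)]
      have := hpw 45
      norm_num at this
      linarith
    · rw [← hq, ← mul_div_assoc, div_le_div_iff₀ (by positivity) (by norm_num)]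
      have h47 := hpw 47
      have h1 : (r : ℝ) * k ≤ M * M := mul_le_mul hrM hkM (by positivity) hM0
      calc (r : ℝ) * k * 16 ≤ M * M * 16 := by gcongr
        _ ≤ M ^ 49 / 2 := by
          have : (32 : ℝ) ≤ M ^ 47 := le_trans (by norm_num) h47
          nlinarith [mul_pos hMpos hMpos]
        _ ≤ n * q := hnq1
        _ = 1 * (n * q) := (one_mul _).symm
    · have h1 : (8 * (r : ℝ) * (1 / M ^ 12)) ^ 2 ≤ (8 / M ^ 11) ^ 2 := pow_le_pow_left₀ hτ0 hτ 2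
      have h2 : (k.choose r : ℝ) ^ 4 ≤ M ^ 4 := pow_le_pow_left₀ (by positivity) hAM 4
      have h18 := hpw 18
      have h41 := hpw 41
      have h3 : (102400 : ℝ) / M ^ 18 ≤ 1 / 2 := by
        rw [div_le_div_iff₀ (by positivity) (by norm_num)]
        norm_num at h18
        linarith
      have h4 : (960 : ℝ) / M ^ 41 ≤ 1 / 2 := by
        rw [div_le_div_iff₀ (by positivity) (by norm_num)]
        norm_num at h41
        linarith
      calc (k.choose r : ℝ) ^ 4 * (16 * (100 * (8 * (r : ℝ) * (1 / M ^ 12)) ^ 2 +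
            30 * ((r : ℝ) ^ 2 / (n * p ^ (3 * r)))))
          ≤ M ^ 4 * (16 * (100 * (8 / M ^ 11) ^ 2 + 30 * (2 / M ^ 45))) := by
            refine mul_le_mul h2 ?_ (by positivity) (by positivity)
            gcongr
        _ = 102400 / M ^ 18 + 960 / M ^ 41 := by field_simp; ring
        _ ≤ 1 := by linarith
  · have h1 : ((n : ℝ)) ^ (2 * e) ≤ N := by
      rw [← hMN, show M ^ (100 * e) = (M ^ 50) ^ (2 * e) by rw [← pow_mul]; ring_nf]
      exact pow_le_pow_left₀ hnpos.le hnle _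
    exact_mod_cast h1
  · have h1 : 2 ^ (100 * e) ≤ N := le_trans (Nat.pow_le_pow_left (by nlinarith) _) hA
    exact lt_of_lt_of_le (Nat.pow_lt_pow_right (by norm_num) (by omega)) h1
  · rw [div_le_one (by positivity)]
    exact one_le_pow₀ (by linarith)
  · push_cast
    have h37 := hpw 37
    calc 2 * (4 * (r : ℝ)) ≤ 8 * M := by linarith
      _ ≤ M ^ 38 / 2 := by
        have : (16 : ℝ) ≤ M ^ 37 := le_trans (by norm_num) h37
        nlinarith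
      _ = 1 / M ^ 12 * (M ^ 50 / 2) := by field_simp
      _ ≤ 1 / M ^ 12 * n := by gcongr
  · rw [hq4]
    have hX : M ^ 22 / 64 ≤ (1 / M ^ 12) ^ 2 * (n * q ^ 4) / 32 := by
      calc M ^ 22 / 64 = (1 / M ^ 12) ^ 2 * (M ^ 46 / 2) / 32 := by field_simp; norm_num
        _ ≤ (1 / M ^ 12) ^ 2 * (n * q ^ 4) / 32 := by gcongr
    have h51 : (n : ℝ) + 1 ≤ M ^ 51 := by
      have h1 : (1 : ℝ) ≤ M ^ 50 := one_le_pow₀ (by linarith)
      calc (n : ℝ) + 1 ≤ M ^ 50 + M ^ 50 := by linarith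
        _ = 2 * M ^ 50 := by ring
        _ ≤ M * M ^ 50 := by gcongr
        _ = M ^ 51 := by ring
    have hbig : 4 * (N : ℝ) * ((n : ℝ) + 1) ^ (4 * r) ≤ Real.exp (M ^ 22 / 64) := by
      have h1 : 4 * (N : ℝ) * ((n : ℝ) + 1) ^ (4 * r) ≤ M ^ (2 + 100 * e + 204 * r) := by
        have h4 : (4 : ℝ) ≤ M ^ 2 := by nlinarith
        calc 4 * (N : ℝ) * ((n : ℝ) + 1) ^ (4 * r) ≤ M ^ 2 * M ^ (100 * e) * (M ^ 51) ^ (4 * r) := by
              rw [← hMN]; gcongr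
          _ = M ^ (2 + 100 * e + 204 * r) := by rw [← pow_mul, ← pow_add, ← pow_add]; ring_nf
      have h2 : M ^ (2 + 100 * e + 204 * r) ≤ Real.exp M ^ (2 + 100 * e + 204 * r) :=
        pow_le_pow_left₀ hM0 (by linarith [Real.add_one_le_exp M]) _
      rw [← Real.exp_nat_mul] at h2
      refine h1.trans (h2.trans (Real.exp_le_exp.2 ?_))
      push_cast
      have h20 := hpw 20
      norm_num at h20
      have h3 : (2 : ℝ) + 100 * e + 204 * r ≤ 305 * M := by linarith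
      calc ((2 : ℝ) + 100 * e + 204 * r) * M ≤ 305 * M * M := by gcongr
        _ = 19520 * (M * M) / 64 := by ring
        _ ≤ M ^ 20 * (M * M) / 64 := by
          have : (19520 : ℝ) ≤ M ^ 20 := by linarith
          gcongr
        _ = M ^ 22 / 64 := by ring
    have hexp := Real.exp_le_exp.2 hX
    have hE2 : Real.exp (-((1 / M ^ 12) ^ 2 * (n * q ^ 4) / 32)) ≤ (Real.exp (M ^ 22 / 64))⁻¹ := by
      rw [Real.exp_neg]
      exact inv_anti₀ (Real.exp_pos _) hexp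
    calc 2 * ((n : ℝ) + 1) ^ (4 * r) * Real.exp (-((1 / M ^ 12) ^ 2 * (n * q ^ 4) / 32))
        ≤ 2 * ((n : ℝ) + 1) ^ (4 * r) * (Real.exp (M ^ 22 / 64))⁻¹ := by gcongr
      _ ≤ 1 / (2 * N) := by
        rw [← div_eq_mul_inv, div_le_div_iff₀ (Real.exp_pos _) (by positivity)]
        linarith

end Pool.Agent.H9.SQ
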