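import Pool.Agent.H9.SQ.Cou
import Pool.Agent.H9.SQ.Defs

/-!
Module Pin.  Use only the STATEMENTS of Cou.
`Pic_one`: `P ⊆ W`, `r ≤ |P ∪ (Q ∩ W)|`: if `|P| ≥ r` use `Cou_sup` for `S = P` (`1 ≤ B`); otherwise `W ⊇ P ∪ J` for some `J ⊆ Q \ P` with `|J| = r - |P|`; there are at most `C(|Q|, r-|P|) ≤ |Q|^(r-|P|) ≤ B^r` such `J`, and `Cou_sup` for `S = P ∪ J`.
-/

set_option autoImplicit false
set_option linter.unusedSectionVars false

open Finset

namespace Pool.Agent.H9.SQ

open Pool.Agent.H9.KR

theorem Pic_one {N : ℕ} (n r B : ℕ) (hn : n ≤ N) (hB : 1 ≤ B) (P Q : Finset (Fin N)) (hQ : Q.card ≤ B) :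
    ((powersetCard n (univ : Finset (Fin N))).filter
      (fun W => P ⊆ W ∧ r ≤ (P ∪ (Q ∩ W)).card)).card * N ^ r ≤ N.choose n * (B ^ r * n ^ r) := by
  classical
  have h1 : 1 ≤ B ^ r := Nat.one_le_pow _ _ hB
  by_cases hP : r ≤ P.card
  · have hsub : ((powersetCard n (univ : Finset (Fin N))).filter
        (fun W => P ⊆ W ∧ r ≤ (P ∪ (Q ∩ W)).card)) ⊆
        ((powersetCard n (univ : Finset (Fin N))).filter (fun W => P ⊆ W)) := by
      intro W hW
      rw [mem_filter] at hW ⊢
      exact ⟨hW.1, hW.2.1⟩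
    calc _ ≤ ((powersetCard n (univ : Finset (Fin N))).filter (fun W => P ⊆ W)).card * N ^ r :=
          Nat.mul_le_mul_right _ (card_le_card hsub)
      _ ≤ N.choose n * n ^ r := Cou_sup n r hn P hP
      _ ≤ N.choose n * (B ^ r * n ^ r) := by
          apply Nat.mul_le_mul_left
          calc n ^ r = 1 * n ^ r := (one_mul _).symm
            _ ≤ B ^ r * n ^ r := Nat.mul_le_mul_right _ h1
  · push Not at hP
    set t := r - P.card with ht
    have hsub : ((powersetCard n (univ : Finset (Fin N))).filter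
        (fun W => P ⊆ W ∧ r ≤ (P ∪ (Q ∩ W)).card)) ⊆
        (powersetCard t (Q \ P)).biUnion (fun J => (powersetCard n (univ : Finset (Fin N))).filter
          (fun W => P ∪ J ⊆ W)) := by
      intro W hW
      rw [mem_filter] at hW
      obtain ⟨hWn, hPW, hr⟩ := hW
      have hu : P ∪ (Q ∩ W) = P ∪ ((Q ∩ W) \ P) := by
        rw [union_sdiff_self_eq_union]
      have hc : (P ∪ (Q ∩ W)).card = P.card + ((Q ∩ W) \ P).card := by
        rw [hu, card_union_of_disjoint disjoint_sdiff]
      have hle : t ≤ ((Q ∩ W) \ P).card := by omega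
      obtain ⟨J, hJ, hJc⟩ := exists_subset_card_eq hle
      rw [mem_biUnion]
      refine ⟨J, ?_, ?_⟩
      · rw [mem_powersetCard]
        refine ⟨fun x hx => ?_, hJc⟩
        have := hJ hx
        rw [mem_sdiff, mem_inter] at this
        rw [mem_sdiff]
        exact ⟨this.1.1, this.2⟩
      · rw [mem_filter]
        refine ⟨hWn, union_subset hPW (fun x hx => ?_)⟩
        have := hJ hx
        rw [mem_sdiff, mem_inter] at this
        exact this.1.2
    have hone : ∀ J ∈ powersetCard t (Q \ P),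
        ((powersetCard n (univ : Finset (Fin N))).filter (fun W => P ∪ J ⊆ W)).card * N ^ r ≤
          N.choose n * n ^ r := by
      intro J hJ
      rw [mem_powersetCard] at hJ
      apply Cou_sup n r hn (P ∪ J)
      have hd : Disjoint P J := by
        rw [disjoint_left]
        intro x hx hxJ
        exact (mem_sdiff.1 (hJ.1 hxJ)).2 hx
      rw [card_union_of_disjoint hd]
      omega
    have hnum : (powersetCard t (Q \ P)).card ≤ B ^ r := by
      rw [card_powersetCard]
      calc (Q \ P).card.choose t ≤ (Q \ P).card ^ t := Nat.choose_le_pow _ _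
        _ ≤ B ^ t := Nat.pow_le_pow_left ((card_le_card sdiff_subset).trans hQ) _
        _ ≤ B ^ r := Nat.pow_le_pow_right hB (by omega)
    calc _ ≤ ((powersetCard t (Q \ P)).biUnion (fun J => (powersetCard n (univ : Finset (Fin N))).filter
          (fun W => P ∪ J ⊆ W))).card * N ^ r := Nat.mul_le_mul_right _ (card_le_card hsub)
      _ ≤ (∑ J ∈ powersetCard t (Q \ P), ((powersetCard n (univ : Finset (Fin N))).filter
          (fun W => P ∪ J ⊆ W)).card) * N ^ r := Nat.mul_le_mul_right _ card_biUnion_le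
      _ = ∑ J ∈ powersetCard t (Q \ P), ((powersetCard n (univ : Finset (Fin N))).filter
          (fun W => P ∪ J ⊆ W)).card * N ^ r := sum_mul _ _ _
      _ ≤ ∑ J ∈ powersetCard t (Q \ P), N.choose n * n ^ r := sum_le_sum hone
      _ = (powersetCard t (Q \ P)).card * (N.choose n * n ^ r) := by rw [sum_const, smul_eq_mul]
      _ ≤ B ^ r * (N.choose n * n ^ r) := Nat.mul_le_mul_right _ hnum
      _ = N.choose n * (B ^ r * n ^ r) := by ring

end Pool.Agent.H9.SQ
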