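import Pool.Agent.H9.SQ.Defs

/-!
Module Pla.  The linear functional `Lf E` on polynomials with `Lf E (monomial t x) = x * E t.support`.   (`X_S := ∏ v ∈ S, X v`.)
`Lf_gen`: `X_S * X_T * X^t` is a monomial with support `S ∪ T ∪ t.support`; linearity in `g` (`MvPolynomial.as_sum`/`support_sum_monomial_coeff`).
`Lf_bool`: `X^t * X v ^ 2` and `X^t * X v` have the same support; linearity in `c`.
-/

set_option autoImplicit false
set_option linter.unusedSectionVars false

open Finset MvPolynomial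

namespace Pool.Agent.H9.SQ

open Pool.Agent.H9.KR

open Classical in
/-- The linear functional with the value `E t.support` at the monomial `X^t`. -/
noncomputable def Lf {N : ℕ} (E : Finset (Fin N) → ℝ) (q : MvPolynomial (Fin N) ℝ) : ℝ :=
  ∑ t ∈ q.support, q.coeff t * E t.support

theorem Lf_mono {N : ℕ} (E : Finset (Fin N) → ℝ) (t : Fin N →₀ ℕ) (x : ℝ) :
    Lf E (monomial t x) = x * E t.support := by
  sorry

theorem Lf_add {N : ℕ} (E : Finset (Fin N) → ℝ) (q q' : MvPolynomial (Fin N) ℝ) :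
    Lf E (q + q') = Lf E q + Lf E q' := by
  sorry

theorem Lf_smul {N : ℕ} (E : Finset (Fin N) → ℝ) (x : ℝ) (q : MvPolynomial (Fin N) ℝ) :
    Lf E (C x * q) = x * Lf E q := by
  sorry

theorem Lf_sum {N : ℕ} (E : Finset (Fin N) → ℝ) {ι : Type} (I : Finset ι) (q : ι → MvPolynomial (Fin N) ℝ) :
    Lf E (∑ i ∈ I, q i) = ∑ i ∈ I, Lf E (q i) := by
  sorry

theorem Lf_prod {N : ℕ} (E : Finset (Fin N) → ℝ) (S T : Finset (Fin N)) :
    Lf E ((∏ v ∈ S, X v) * ∏ v ∈ T, X v) = E (S ∪ T) := by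
  sorry

theorem Lf_gen {N : ℕ} (E : Finset (Fin N) → ℝ) (S T : Finset (Fin N)) (g : MvPolynomial (Fin N) ℝ) :
    Lf E ((∏ v ∈ S, X v) * (∏ v ∈ T, X v) * g) = ∑ t ∈ g.support, g.coeff t * E (S ∪ T ∪ t.support) := by
  sorry

theorem Lf_bool {N : ℕ} (E : Finset (Fin N) → ℝ) (c : MvPolynomial (Fin N) ℝ) (v : Fin N) :
    Lf E (c * (X v ^ 2 - X v)) = 0 := by
  sorry

end Pool.Agent.H9.SQ
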