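import Pool.Agent.H9.SQ.Pla

/-!
Module Plb.   Use only the STATEMENTS of Pla.
`Lf_eq`: `mon (P, Q) = ∑ J ⊆ Q, (-1)^|J| X_P X_J` (`Finset.prod_sub`/`Finset.prod_one_sub`/`prod_add`), so `Lf (mon (P,Q) g) = ∑ J ⊆ Q, (-1)^|J| Lf (X_P X_J g)`, and (`g` a sum of monomials `C x * X^t`) every term is a combination of the values `E (P ∪ J ∪ t.support)`,
which are `0` unless `P ⊆ U` and `J ⊆ U` (`hout`).  `X_P X_J g` and `X_(P ∪ J) g` have the same value (`Lf_gen`).  So with
`c S = ∑ t ∈ M, if t.1 ⊆ U then α t * ∑ J ∈ (t.2 ∩ U).powerset, (if t.1 ∪ J = S then (-1)^|J| else 0) else 0`: `Lf (lin M α * g) = ∑ S, c S * Lf (X_S * g)`; and `c S = 0` if `r ≤ |S|` by `hM`.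
-/

set_option autoImplicit false
set_option linter.unusedSectionVars false

open Finset MvPolynomial

namespace Pool.Agent.H9.SQ

open Pool.Agent.H9.KR

theorem Plb_union {N : ℕ} (E : Finset (Fin N) → ℝ) (P J : Finset (Fin N)) (g : MvPolynomial (Fin N) ℝ) :
    Lf E ((∏ v ∈ P, X v) * (∏ v ∈ J, X v) * g) = Lf E ((∏ v ∈ P ∪ J, X v) * g) := by
  classical
  have h := Lf_gen E (P ∪ J) ∅ g
  rw [Finset.prod_empty, mul_one, Finset.union_empty] at h
  rw [Lf_gen, h]

theorem Plb_zero {N : ℕ} (U : Finset (Fin N)) (E : Finset (Fin N) → ℝ)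
    (hout : ∀ S : Finset (Fin N), ¬ S ⊆ U → E S = 0) (P : Finset (Fin N)) (hP : ¬ P ⊆ U)
    (g : MvPolynomial (Fin N) ℝ) : Lf E ((∏ v ∈ P, X v) * g) = 0 := by
  classical
  have h := Lf_gen E P ∅ g
  rw [Finset.prod_empty, mul_one, Finset.union_empty] at h
  rw [h]
  apply Finset.sum_eq_zero
  intro t _
  rw [hout _ (fun hh => hP (Finset.subset_union_left.trans hh)), mul_zero]

theorem Plb_mon {N : ℕ} (E : Finset (Fin N) → ℝ) (t : Finset (Fin N) × Finset (Fin N))
    (g : MvPolynomial (Fin N) ℝ) :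
    Lf E (mon t * g) = ∑ J ∈ t.2.powerset, (-1 : ℝ) ^ J.card * Lf E ((∏ v ∈ t.1 ∪ J, X v) * g) := by
  classical
  have h1 : ∏ v ∈ t.2, (1 - X v : MvPolynomial (Fin N) ℝ) =
      ∑ J ∈ t.2.powerset, C ((-1 : ℝ) ^ J.card) * ∏ v ∈ J, X v := by
    have h2 : ∀ v : Fin N, (1 - X v : MvPolynomial (Fin N) ℝ) = 1 + (-1) * X v := by
      intro v
      ring
    rw [Finset.prod_congr rfl (fun v _ => h2 v), Finset.prod_one_add]
    refine Finset.sum_congr rfl (fun J _ => ?_)
    rw [Finset.prod_mul_distrib, Finset.prod_const]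
    congr 1
    rw [map_pow, map_neg, map_one]
  have h3 : mon t * g = ∑ J ∈ t.2.powerset,
      C ((-1 : ℝ) ^ J.card) * ((∏ v ∈ t.1, X v) * (∏ v ∈ J, X v) * g) := by
    rw [mon, h1, Finset.mul_sum, Finset.sum_mul]
    refine Finset.sum_congr rfl (fun J _ => ?_)
    ring
  rw [h3, Lf_sum]
  refine Finset.sum_congr rfl (fun J _ => ?_)
  rw [Lf_smul, Plb_union]

theorem Plb_mon2 {N : ℕ} (U : Finset (Fin N)) (E : Finset (Fin N) → ℝ)
    (hout : ∀ S : Finset (Fin N), ¬ S ⊆ U → E S = 0) (t : Finset (Fin N) × Finset (Fin N))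
    (g : MvPolynomial (Fin N) ℝ) :
    Lf E (mon t * g) = if t.1 ⊆ U then
      ∑ J ∈ (t.2 ∩ U).powerset, (-1 : ℝ) ^ J.card * Lf E ((∏ v ∈ t.1 ∪ J, X v) * g) else 0 := by
  classical
  rw [Plb_mon]
  split_ifs with h
  · symm
    apply Finset.sum_subset
    · exact Finset.powerset_mono.2 Finset.inter_subset_left
    · intro J hJ hJ2
      rw [Finset.mem_powerset] at hJ hJ2
      rw [Plb_zero U E hout _ _ g, mul_zero]
      intro hh
      exact hJ2 (Finset.subset_inter hJ (Finset.subset_union_right.trans hh))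
  · apply Finset.sum_eq_zero
    intro J _
    rw [Plb_zero U E hout _ _ g, mul_zero]
    intro hh
    exact h (Finset.subset_union_left.trans hh)

theorem Lf_eq {N : ℕ} (r : ℕ) (U : Finset (Fin N)) (E : Finset (Fin N) → ℝ)
    (hout : ∀ S : Finset (Fin N), ¬ S ⊆ U → E S = 0)
    (M : Finset (Finset (Fin N) × Finset (Fin N)))
    (hM : ∀ t ∈ M, t.1 ⊆ U → (t.1 ∪ (t.2 ∩ U)).card < r) (α : Finset (Fin N) × Finset (Fin N) → ℝ) :
    ∃ c : Finset (Fin N) → ℝ, (∀ S, r ≤ S.card → c S = 0) ∧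
      ∀ g : MvPolynomial (Fin N) ℝ, Lf E (lin M α * g) = ∑ S, c S * Lf E ((∏ v ∈ S, X v) * g) := by
  classical
  refine ⟨fun S => ∑ t ∈ M, if t.1 ⊆ U then
    α t * ∑ J ∈ (t.2 ∩ U).powerset, (if t.1 ∪ J = S then (-1 : ℝ) ^ J.card else 0) else 0, ?_, ?_⟩
  · intro S hS
    apply Finset.sum_eq_zero
    intro t ht
    split_ifs with h
    · rw [Finset.sum_eq_zero, mul_zero]
      intro J hJ
      rw [Finset.mem_powerset] at hJ
      rw [if_neg]
      intro hh
      have h1 := hM t ht h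
      have h2 : S.card ≤ (t.1 ∪ (t.2 ∩ U)).card := by
        rw [← hh]
        exact Finset.card_le_card (Finset.union_subset_union_right hJ)
      omega
    · rfl
  · intro g
    have h1 : lin M α * g = ∑ t ∈ M, C (α t) * (mon t * g) := by
      rw [lin, Finset.sum_mul]
      refine Finset.sum_congr rfl (fun t _ => ?_)
      ring
    rw [h1, Lf_sum]
    simp only [Finset.sum_mul]
    rw [Finset.sum_comm]
    refine Finset.sum_congr rfl (fun t _ => ?_)
    rw [Lf_smul, Plb_mon2 U E hout]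
    split_ifs with h
    · rw [Finset.mul_sum]
      have h2 : ∀ S : Finset (Fin N), (α t * ∑ J ∈ (t.2 ∩ U).powerset,
          (if t.1 ∪ J = S then (-1 : ℝ) ^ J.card else 0)) * Lf E ((∏ v ∈ S, X v) * g) =
          ∑ J ∈ (t.2 ∩ U).powerset, (if t.1 ∪ J = S then
            α t * ((-1 : ℝ) ^ J.card * Lf E ((∏ v ∈ t.1 ∪ J, X v) * g)) else 0) := by
        intro S
        rw [mul_assoc, Finset.sum_mul, Finset.mul_sum]
        refine Finset.sum_congr rfl (fun J _ => ?_)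
        split_ifs with h3
        · rw [h3]
        · ring
      rw [Finset.sum_congr rfl (fun S _ => h2 S), Finset.sum_comm]
      refine Finset.sum_congr rfl (fun J _ => ?_)
      rw [Finset.sum_ite_eq]
      simp
    · simp

end Pool.Agent.H9.SQ
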