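import Pool.Agent.H9.SQ.Sge
import Pool.Agent.H9.SQ.Grp
import Pool.Agent.H9.SQ.Grq
import Pool.Agent.H9.SQ.Inc
import Pool.Agent.H9.SQ.Bzn
import Pool.Agent.H9.SQ.Cnt

/-!
Module Psc.  Use only the STATEMENTS of the imported modules.   `Psd_pos`: `Cnt_ge` with `Z = ∅`, `X = ∅`, `a = 2 r` (`nb G U ∅ = U`), `Fz_pos`.
`Psd_cl`: split `∑ S, ∑ T` by `s = |S ∩ T| ≤ r`.  `s = r`: `S = T`, `Ez S = kap r * card (Cl (nb S) r) ≥ (1-τ) bz r` (`Cnt_ge`, `Z = S`, `a = r`; `bz r = kap r * Fz r r`).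
`s < r`: `Grp_sum`; the first terms: `Inc_main` with `ρ = k/(n p^r)` (`bz_le`, `H.ρ_le`, `bz_pos`); the second terms: `Sge_bil` for every `R` with `y S = c (R ∪ S)`, `Grp_sq`, `bz_mul`:
absolute value `≤ C(r,s) C(k-r,r-s) bz_r / (2 C(k,r)) ∑ c²`, summed over `s < r` at most `bz_r / 2 ∑ c²` by Vandermonde (`Nat.add_choose_eq`: `∑_{s ≤ r} C(r,s) C(k-r,r-s) = C(k,r)`).
Total `≥ (1 - τ - 1/4 - 1/2) bz_r ∑ c² ≥ 0`.
-/

set_option autoImplicit false
set_option linter.unusedSectionVars false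

open Finset

namespace Pool.Agent.H9.SQ

open Pool.Agent.H9.KR

variable {V : Type} [Fintype V] [DecidableEq V]

theorem Psc_mem {G : SimpleGraph V} {U : Finset V} {r : ℕ} (S : Finset V) :
    S ∈ Cl G U r ↔ S ⊆ U ∧ S.card = r ∧ IsCl G S := by
  classical
  unfold Cl
  rw [Finset.mem_filter, Finset.mem_powersetCard, and_assoc]

theorem Psd_pos {G : SimpleGraph V} {U : Finset V} {n r k : ℕ} {p ε τ χ : ℝ} (H : Num n r k p ε τ χ)
    (h : Reg G U n p ε (4 * r)) : 0 < (Cl G U (2 * r)).card := by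
  have h1 := Cnt_ge H h ∅ ∅ (by simp) (Finset.empty_subset _) (2 * r) (by simp; omega)
  have h2 : nb G U ∅ \ ∅ = U := by
    ext v
    simp [nb]
  rw [h2, Finset.card_empty] at h1
  have h3 : 0 < Fz n p (2 * r) 0 := Fz_pos H.n_pos H.p_pos _ _
  have h4 : 0 < (1 - τ) * Fz n p (2 * r) 0 := mul_pos (by linarith [H.τ_le]) h3
  exact_mod_cast h4.trans_le h1

theorem Psd_van (k r : ℕ) (hk : r ≤ k) :
    ∑ s ∈ range r, ((r.choose s : ℝ) * ((k - r).choose (r - s) : ℝ)) ≤ (k.choose r : ℝ) := by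
  have h1 : k.choose r = ∑ s ∈ range (r + 1), r.choose s * (k - r).choose (r - s) := by
    have h := Nat.add_choose_eq r (k - r) r
    rw [Nat.add_sub_cancel' hk] at h
    rw [h, Finset.Nat.sum_antidiagonal_eq_sum_range_succ (fun i j => r.choose i * (k - r).choose j) r]
  have h2 : (k.choose r : ℝ) = ∑ s ∈ range (r + 1), ((r.choose s : ℝ) * ((k - r).choose (r - s) : ℝ)) := by
    rw [h1]
    push_cast
    rfl
  rw [h2]
  exact Finset.sum_le_sum_of_subset_of_nonneg (Finset.range_subset_range.2 (Nat.le_succ r)) (fun s _ _ => by positivity)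

theorem Psd_cl {G : SimpleGraph V} {U : Finset V} {n r k : ℕ} {p ε τ χ : ℝ} (H : Num n r k p ε τ χ)
    (h : Reg G U n p ε (4 * r)) (c : Finset V → ℝ) (hc : ∀ S, S ∉ Cl G U r → c S = 0) :
    0 ≤ ∑ S, ∑ T, c S * c T * Ez G U k (2 * r) (S ∪ T) := by
  set Nd : ℝ := ((Cl G U (2 * r)).card : ℝ) with hNd
  have hN : 0 < Nd := by
    rw [hNd]
    exact_mod_cast Psd_pos H h
  set C2 : ℝ := ∑ S, c S ^ 2 with hC2
  have hC2' : 0 ≤ C2 := Finset.sum_nonneg fun S _ => sq_nonneg _
  have hbr : 0 < bz n p k r Nd r := bz_pos H.n_pos H.p_pos H.k_ge hN r le_rfl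
  have hrk : r ≤ k := by have := H.k_ge; omega
  have hC : (0 : ℝ) < (k.choose r : ℝ) := by exact_mod_cast Nat.choose_pos hrk
  -- the splitting
  have hsplit : ∑ S, ∑ T, c S * c T * Ez G U k (2 * r) (S ∪ T) =
      ∑ s ∈ range (r + 1), ∑ S, ∑ T, (if (S ∩ T).card = s then c S * c T * Ez G U k (2 * r) (S ∪ T) else 0) := by
    symm
    rw [Finset.sum_comm]
    refine Finset.sum_congr rfl fun S _ => ?_
    rw [Finset.sum_comm]
    refine Finset.sum_congr rfl fun T _ => ?_
    by_cases hS : S ∈ Cl G U r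
    · have hle : (S ∩ T).card < r + 1 := by
        have h1 := Finset.card_le_card (Finset.inter_subset_left (s₁ := S) (s₂ := T))
        rw [((Psc_mem S).1 hS).2.1] at h1
        omega
      rw [Finset.sum_ite_eq, if_pos (Finset.mem_range.2 hle)]
    · rw [hc S hS]
      simp
  rw [hsplit, Finset.sum_range_succ]
  -- the diagonal
  have hdiag : (1 - τ) * bz n p k r Nd r * C2 ≤
      ∑ S, ∑ T, (if (S ∩ T).card = r then c S * c T * Ez G U k (2 * r) (S ∪ T) else 0) := by
    have e1 : ∀ S : Finset V, ∑ T, (if (S ∩ T).card = r then c S * c T * Ez G U k (2 * r) (S ∪ T) else 0) =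
        c S * c S * Ez G U k (2 * r) S := by
      intro S
      by_cases hS : S ∈ Cl G U r
      · rw [Finset.sum_eq_single S]
        · rw [Finset.inter_self, Finset.union_self, if_pos ((Psc_mem S).1 hS).2.1]
        · intro T _ hTS
          split_ifs with hcard
          · by_cases hT : T ∈ Cl G U r
            · exfalso
              apply hTS
              have h1 : S ∩ T = S := Finset.eq_of_subset_of_card_le Finset.inter_subset_left
                (by rw [hcard, ((Psc_mem S).1 hS).2.1])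
              have h2 : S ∩ T = T := Finset.eq_of_subset_of_card_le Finset.inter_subset_right
                (by rw [hcard, ((Psc_mem T).1 hT).2.1])
              rw [← h2, h1]
            · rw [hc T hT]
              ring
          · rfl
        · intro hS'
          exact absurd (Finset.mem_univ S) hS'
      · rw [hc S hS]
        simp
    rw [Finset.sum_congr rfl fun S _ => e1 S, hC2, Finset.mul_sum]
    refine Finset.sum_le_sum fun S _ => ?_
    by_cases hS : S ∈ Cl G U r
    · obtain ⟨hSU, hScard, hScl⟩ := (Psc_mem S).1 hS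
      have h1 := Cnt_ge H h ∅ S (by simp) hSU r (by rw [hScard]; omega)
      rw [Finset.sdiff_empty, hScard] at h1
      have h2 : Ez G U k (2 * r) S = kap k (2 * r) Nd r * ((Cl G (nb G U S) r).card : ℝ) := by
        unfold Ez
        rw [if_pos ⟨hSU, hScl, by rw [hScard]; omega⟩, hScard, show 2 * r - r = r by omega]
      have h3 : bz n p k r Nd r = kap k (2 * r) Nd r * Fz n p r r := by
        unfold bz
        rw [show 2 * r - r = r by omega, Nat.sub_self]
        simp
      have h4 : 0 ≤ kap k (2 * r) Nd r := by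
        unfold kap
        positivity
      rw [h2, h3]
      have h5 := mul_le_mul_of_nonneg_left h1 h4
      have h6 := mul_le_mul_of_nonneg_left h5 (mul_self_nonneg (c S))
      calc (1 - τ) * (kap k (2 * r) Nd r * Fz n p r r) * c S ^ 2
          = c S * c S * (kap k (2 * r) Nd r * ((1 - τ) * Fz n p r r)) := by ring
        _ ≤ _ := h6
    · rw [hc S hS]
      simp
  -- the first terms
  have hfirst := Inc_main c r (fun S hS => hc S fun hS' => hS ((Psc_mem S).1 hS').2.1)
    (fun s => bz n p k r Nd s) (fun s hs => (bz_pos H.n_pos H.p_pos H.k_ge hN s hs).le)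
    (k / (n * p ^ r)) (by have := H.p_pos; positivity)
    (fun s hs => bz_le H.n_pos H.p_pos H.p_le H.k_ge hN s hs) H.ρ_le
  rw [← hC2] at hfirst
  -- the second terms
  have hsecond : ∀ s ∈ range r,
      -((r.choose s : ℝ) * ((k - r).choose (r - s) : ℝ)) * (C2 * bz n p k r Nd r / (2 * (k.choose r : ℝ))) ≤
      bz n p k r Nd s * ∑ R ∈ Cl G U s, ∑ S ∈ Cl G (nb G U R) (r - s),
        ∑ T ∈ Cl G (nb G U R) (r - s), c (R ∪ S) * c (R ∪ T) * ez G U n p r s R S T := by
    intro s hs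
    have hsr : s < r := Finset.mem_range.1 hs
    set F : ℝ := Fz n p (r - s) s / (2 * (k.choose r : ℝ)) with hF
    have hF0 : 0 ≤ F := div_nonneg (Fz_nonneg H.p_pos.le _ _) (by positivity)
    have h1 : |∑ R ∈ Cl G U s, ∑ S ∈ Cl G (nb G U R) (r - s),
        ∑ T ∈ Cl G (nb G U R) (r - s), c (R ∪ S) * c (R ∪ T) * ez G U n p r s R S T| ≤
        (r.choose s : ℝ) * C2 * F := by
      calc _ ≤ ∑ R ∈ Cl G U s, |∑ S ∈ Cl G (nb G U R) (r - s),
            ∑ T ∈ Cl G (nb G U R) (r - s), c (R ∪ S) * c (R ∪ T) * ez G U n p r s R S T| :=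
            Finset.abs_sum_le_sum_abs _ _
        _ ≤ ∑ R ∈ Cl G U s, (∑ S ∈ Cl G (nb G U R) (r - s), c (R ∪ S) ^ 2) * F :=
            Finset.sum_le_sum fun R hR => Sge_bil H h s hsr R hR (fun S => c (R ∪ S))
        _ = (∑ R ∈ Cl G U s, ∑ S ∈ Cl G (nb G U R) (r - s), c (R ∪ S) ^ 2) * F := by
            rw [Finset.sum_mul]
        _ ≤ _ := mul_le_mul_of_nonneg_right (Grp_sq G U r s hsr.le c hc) hF0
    have h2 := (abs_le.1 h1).1
    have hb : 0 ≤ bz n p k r Nd s := (bz_pos H.n_pos H.p_pos H.k_ge hN s hsr.le).le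
    have h3 := mul_le_mul_of_nonneg_left h2 hb
    have h4 := bz_mul H.n_pos H.p_pos H.k_ge hN s hsr.le
    refine le_trans (le_of_eq ?_) h3
    rw [hF]
    field_simp
    linear_combination (C2 * (r.choose s : ℝ)) * h4
  have hsum2 := Finset.sum_le_sum hsecond
  rw [← Finset.sum_mul, Finset.sum_neg_distrib] at hsum2
  have hvan := Psd_van k r hrk
  have hB : 0 ≤ C2 * bz n p k r Nd r / (2 * (k.choose r : ℝ)) := by positivity
  have hsum3 : -(1 / 2) * (bz n p k r Nd r * C2) ≤
      -(∑ s ∈ range r, ((r.choose s : ℝ) * ((k - r).choose (r - s) : ℝ))) *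
        (C2 * bz n p k r Nd r / (2 * (k.choose r : ℝ))) := by
    have h1 := mul_le_mul_of_nonneg_right hvan hB
    have h2 : (k.choose r : ℝ) * (C2 * bz n p k r Nd r / (2 * (k.choose r : ℝ))) =
        1 / 2 * (bz n p k r Nd r * C2) := by
      field_simp
    rw [h2] at h1
    linarith
  have hmid : ∑ s ∈ range r, ∑ S, ∑ T, (if (S ∩ T).card = s then c S * c T * Ez G U k (2 * r) (S ∪ T) else 0) =
      ∑ s ∈ range r, bz n p k r Nd s * (∑ S, ∑ T, (if (S ∩ T).card = s then c S * c T else 0)) +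
      ∑ s ∈ range r, bz n p k r Nd s * ∑ R ∈ Cl G U s, ∑ S ∈ Cl G (nb G U R) (r - s),
        ∑ T ∈ Cl G (nb G U R) (r - s), c (R ∪ S) * c (R ∪ T) * ez G U n p r s R S T := by
    rw [← Finset.sum_add_distrib]
    exact Finset.sum_congr rfl fun s hs => Grp_sum H s (Finset.mem_range.1 hs) c hc
  rw [hmid]
  have hτ := H.τ_le
  have hbC : 0 ≤ bz n p k r Nd r * C2 := mul_nonneg hbr.le hC2'
  have hτ2 := mul_le_mul_of_nonneg_right hτ hbC
  nlinarith [hdiag, hfirst, hsum2, hsum3, hτ2, hbC]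

end Pool.Agent.H9.SQ
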