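import Pool.Agent.H9.SQ.Cnt

/-!
Module Sga.  The normalised moments `gz`.   (`R ∈ Cl G U s`, `S, T ∈ Cl G (nb G U R) (r-s)`, `Disjoint S T`: `|R ∪ S ∪ T| = 2r - s`, as `R` is disjoint from `nb G U R`.)
`Sga_E`: unfold `Ez`, `bz`, `gz`: `Ez = kap (2r-s) * card (Cl (nb (R∪S∪T)) s)` if `R∪S∪T` is a clique, `0` otherwise; `bz = kap (2r-s) * Fz s (2r-s) * p^((r-s)^2)`.
`Sga_hi`, `Sga_low`: `Cnt_le`, `Cnt_ge` with `X = ∅`, `Z = R ∪ S ∪ T`, `a = s`.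
-/

set_option autoImplicit false
set_option linter.unusedSectionVars false

open Finset

namespace Pool.Agent.H9.SQ

open Pool.Agent.H9.KR

variable {V : Type} [Fintype V] [DecidableEq V]

theorem Sga_card {G : SimpleGraph V} {U : Finset V} {r : ℕ} (s : ℕ) (hs : s ≤ r) (R S T : Finset V)
    (hR : R ∈ Cl G U s) (hS : S ∈ Cl G (nb G U R) (r - s)) (hT : T ∈ Cl G (nb G U R) (r - s))
    (hST : Disjoint S T) : R ∪ S ∪ T ⊆ U ∧ (R ∪ S ∪ T).card = 2 * r - s := by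
  rw [Cnt_mem_Cl] at hR hS hT
  obtain ⟨⟨hRU, hRc⟩, -⟩ := hR
  obtain ⟨⟨hSU, hSc⟩, -⟩ := hS
  obtain ⟨⟨hTU, hTc⟩, -⟩ := hT
  have hRnb : Disjoint R (nb G U R) := by
    rw [Finset.disjoint_left]
    intro v hv hv'
    exact G.loopless.irrefl v ((Cnt_mem_nb.1 hv').2 v hv)
  have hRS : Disjoint R S := Finset.disjoint_of_subset_right hSU hRnb
  have hRT : Disjoint R T := Finset.disjoint_of_subset_right hTU hRnb
  refine ⟨?_, ?_⟩
  · intro v hv
    rcases Finset.mem_union.1 hv with hv | hv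
    · rcases Finset.mem_union.1 hv with hv | hv
      · exact hRU hv
      · exact (Cnt_mem_nb.1 (hSU hv)).1
    · exact (Cnt_mem_nb.1 (hTU hv)).1
  · rw [Finset.card_union_of_disjoint (Finset.disjoint_union_left.2 ⟨hRT, hST⟩),
      Finset.card_union_of_disjoint hRS, hRc, hSc, hTc]
    omega

theorem Sga_E {G : SimpleGraph V} {U : Finset V} {n r k : ℕ} {p ε τ χ : ℝ} (H : Num n r k p ε τ χ)
    (s : ℕ) (hs : s ≤ r) (R S T : Finset V) (hR : R ∈ Cl G U s) (hS : S ∈ Cl G (nb G U R) (r - s))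
    (hT : T ∈ Cl G (nb G U R) (r - s)) (hST : Disjoint S T) :
    Ez G U k (2 * r) (R ∪ S ∪ T) =
      bz n p k r ((Cl G U (2 * r)).card : ℝ) s * gz G U n p r s R S T := by
  obtain ⟨h1, h2⟩ := Sga_card s hs R S T hR hS hT hST
  unfold Ez bz gz
  by_cases hc : IsCl G (R ∪ S ∪ T)
  · rw [if_pos ⟨h1, hc, by omega⟩, if_pos hc, h2]
    have h3 : 2 * r - (2 * r - s) = s := by omega
    rw [h3]
    have h4 : Fz n p s (2 * r - s) ≠ 0 := (Fz_pos H.n_pos H.p_pos _ _).ne'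
    have h5 : p ^ ((r - s) ^ 2) ≠ 0 := (pow_pos H.p_pos _).ne'
    field_simp
  · rw [if_neg (fun h => hc h.2.1), if_neg hc, mul_zero]

theorem Sga_nonneg {G : SimpleGraph V} {U : Finset V} {n r k : ℕ} {p ε τ χ : ℝ} (H : Num n r k p ε τ χ)
    (s : ℕ) (R S T : Finset V) : 0 ≤ gz G U n p r s R S T := by
  unfold gz
  split_ifs
  · exact div_nonneg (Nat.cast_nonneg _)
      (mul_nonneg (Fz_nonneg H.p_pos.le _ _) (pow_nonneg H.p_pos.le _))
  · exact le_rfl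

theorem Sga_hi {G : SimpleGraph V} {U : Finset V} {n r k : ℕ} {p ε τ χ : ℝ} (H : Num n r k p ε τ χ)
    (h : Reg G U n p ε (4 * r)) (s : ℕ) (hs : s ≤ r) (R S T : Finset V) (hR : R ∈ Cl G U s)
    (hS : S ∈ Cl G (nb G U R) (r - s)) (hT : T ∈ Cl G (nb G U R) (r - s)) (hST : Disjoint S T) :
    gz G U n p r s R S T ≤ (1 + τ) / p ^ ((r - s) ^ 2) := by
  obtain ⟨h1, h2⟩ := Sga_card s hs R S T hR hS hT hST
  have hP : 0 < p ^ ((r - s) ^ 2) := pow_pos H.p_pos _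
  have hF : 0 < Fz n p s (2 * r - s) := Fz_pos H.n_pos H.p_pos _ _
  have hτ : 0 ≤ τ := by
    have h3 := H.τ_ge
    have h4 := H.ε_pos
    have h5 : (0 : ℝ) ≤ r := Nat.cast_nonneg _
    have h6 : 0 ≤ 8 * (r : ℝ) * ε := by positivity
    linarith
  unfold gz
  split_ifs
  · have h3 := Cnt_le H h ∅ (R ∪ S ∪ T) h1 s (by rw [h2]; omega)
    rw [Finset.sdiff_empty, h2] at h3
    rw [div_le_div_iff₀ (mul_pos hF hP) hP]
    have h4 := mul_le_mul_of_nonneg_right h3 hP.le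
    linarith
  · positivity

theorem Sga_low {G : SimpleGraph V} {U : Finset V} {n r k : ℕ} {p ε τ χ : ℝ} (H : Num n r k p ε τ χ)
    (h : Reg G U n p ε (4 * r)) (s : ℕ) (hs : s ≤ r) (R S T : Finset V) (hR : R ∈ Cl G U s)
    (hS : S ∈ Cl G (nb G U R) (r - s)) (hT : T ∈ Cl G (nb G U R) (r - s)) (hST : Disjoint S T)
    (hcl : IsCl G (R ∪ S ∪ T)) :
    (1 - τ) / p ^ ((r - s) ^ 2) ≤ gz G U n p r s R S T := by
  obtain ⟨h1, h2⟩ := Sga_card s hs R S T hR hS hT hST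
  have hP : 0 < p ^ ((r - s) ^ 2) := pow_pos H.p_pos _
  have hF : 0 < Fz n p s (2 * r - s) := Fz_pos H.n_pos H.p_pos _ _
  unfold gz
  rw [if_pos hcl]
  have h3 := Cnt_ge H h ∅ (R ∪ S ∪ T) (by simp) h1 s (by rw [h2]; omega)
  rw [Finset.sdiff_empty, h2] at h3
  rw [div_le_div_iff₀ hP (mul_pos hF hP)]
  have h4 := mul_le_mul_of_nonneg_right h3 hP.le
  linarith

end Pool.Agent.H9.SQ
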