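import Pool.Agent.H9.SQ.Sga

/-!
Module Sgb.  Sums of `gz` over `T` (`a = r - s`, `F = Fz n p a s`, `X = S₁ ∪ S₂`).
The `T ∈ Cl G (nb G U R \ X) a` with `IsCl G (R ∪ S₁ ∪ T)` are the `T ∈ Cl G (nb G U (R ∪ S₁) \ X) a`; for the others `gz = 0`.
`Sgb_1`: `(1-τ)/p^(a²) * (1-τ) Fz a (s+a) ≤ ∑ ≤ (1+τ)/p^(a²) * (1+τ) Fz a (s+a)`, `Fz a (s+a) = F p^(a²)` (`Fz_shift`).  It is stated for `S₁`; `Sgb_1'` is the same for `S₂`.
`Sgb_2`: the product is nonzero iff `T ∈ Cl G (nb G U (R ∪ S₁ ∪ S₂) \ X) a`, `|R ∪ S₁ ∪ S₂| = s + 2a - t`, `t = |S₁ ∩ S₂|`, and `Fz a (s+2a-t) = F p^(a(2a-t))`.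
-/

set_option autoImplicit false
set_option linter.unusedSectionVars false

open Finset

namespace Pool.Agent.H9.SQ

open Pool.Agent.H9.KR

variable {V : Type} [Fintype V] [DecidableEq V]

theorem Sgb_X {G : SimpleGraph V} {U : Finset V} {r : ℕ} (s : ℕ) (R S₁ S₂ : Finset V)
    (h₁ : S₁ ∈ Cl G (nb G U R) (r - s)) (h₂ : S₂ ∈ Cl G (nb G U R) (r - s)) :
    (S₁ ∪ S₂).card ≤ 4 * r := by
  rw [Cnt_mem_Cl] at h₁ h₂
  have h3 := Finset.card_union_le S₁ S₂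
  rw [h₁.1.2, h₂.1.2] at h3
  omega

theorem Sgb_0 {G : SimpleGraph V} {U : Finset V} {n r k : ℕ} {p ε τ χ : ℝ} (H : Num n r k p ε τ χ)
    (h : Reg G U n p ε (4 * r)) (s : ℕ) (hs : s ≤ r) (R S₁ S₂ : Finset V) (hR : R ∈ Cl G U s)
    (h₁ : S₁ ∈ Cl G (nb G U R) (r - s)) (h₂ : S₂ ∈ Cl G (nb G U R) (r - s)) :
    (1 - τ) * Fz n p (r - s) s ≤ ((Cl G (nb G U R \ (S₁ ∪ S₂)) (r - s)).card : ℝ) ∧
    ((Cl G (nb G U R \ (S₁ ∪ S₂)) (r - s)).card : ℝ) ≤ (1 + τ) * Fz n p (r - s) s := by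
  have hX := Sgb_X s R S₁ S₂ h₁ h₂
  rw [Cnt_mem_Cl] at hR
  obtain ⟨⟨hRU, hRc⟩, -⟩ := hR
  have h3 := Cnt_ge H h (S₁ ∪ S₂) R hX hRU (r - s) (by omega)
  have h4 := Cnt_le H h (S₁ ∪ S₂) R hRU (r - s) (by omega)
  rw [hRc] at h3 h4
  exact ⟨h3, h4⟩

theorem Sgb_fil {G : SimpleGraph V} {U : Finset V} {r : ℕ} (s : ℕ) (R S₁ S₂ : Finset V)
    (hR : R ∈ Cl G U s) (h₁ : S₁ ∈ Cl G (nb G U R) (r - s)) (T : Finset V) :
    (T ∈ Cl G (nb G U R \ (S₁ ∪ S₂)) (r - s) ∧ IsCl G (R ∪ S₁ ∪ T)) ↔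
      T ∈ Cl G (nb G U (R ∪ S₁) \ (S₁ ∪ S₂)) (r - s) := by
  rw [Cnt_mem_Cl] at hR h₁
  obtain ⟨⟨hRU, hRc⟩, hRcl⟩ := hR
  obtain ⟨⟨hSU, hSc⟩, hScl⟩ := h₁
  rw [Cnt_mem_Cl, Cnt_mem_Cl]
  constructor
  · rintro ⟨⟨⟨hT, hTc⟩, hTcl⟩, hcl⟩
    refine ⟨⟨?_, hTc⟩, hTcl⟩
    intro v hv
    have h3 := hT hv
    rw [Finset.mem_sdiff, Cnt_mem_nb] at h3
    rw [Finset.mem_sdiff, Cnt_mem_nb]
    refine ⟨⟨h3.1.1, fun u hu => ?_⟩, h3.2⟩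
    apply hcl u (Finset.mem_union_left _ hu) v (Finset.mem_union_right _ hv)
    rintro rfl
    rcases Finset.mem_union.1 hu with hu | hu
    · exact G.loopless.irrefl u (h3.1.2 u hu)
    · exact h3.2 (Finset.mem_union_left _ hu)
  · rintro ⟨⟨hT, hTc⟩, hTcl⟩
    have hTR : ∀ u ∈ R ∪ S₁, ∀ v ∈ T, G.Adj u v := by
      intro u hu v hv
      have h3 := hT hv
      rw [Finset.mem_sdiff, Cnt_mem_nb] at h3
      exact h3.1.2 u hu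
    have hRS : ∀ u ∈ R, ∀ v ∈ S₁, G.Adj u v := fun u hu v hv => (Cnt_mem_nb.1 (hSU hv)).2 u hu
    refine ⟨⟨⟨?_, hTc⟩, hTcl⟩, ?_⟩
    · intro v hv
      have h3 := hT hv
      rw [Finset.mem_sdiff, Cnt_mem_nb] at h3
      rw [Finset.mem_sdiff, Cnt_mem_nb]
      exact ⟨⟨h3.1.1, fun u hu => h3.1.2 u (Finset.mem_union_left _ hu)⟩, h3.2⟩
    · intro u hu v hv huv
      rcases Finset.mem_union.1 hu with hu1 | hu1
      · rcases Finset.mem_union.1 hv with hv1 | hv1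
        · rcases Finset.mem_union.1 hu1 with hu2 | hu2
          · rcases Finset.mem_union.1 hv1 with hv2 | hv2
            · exact hRcl u hu2 v hv2 huv
            · exact hRS u hu2 v hv2
          · rcases Finset.mem_union.1 hv1 with hv2 | hv2
            · exact (hRS v hv2 u hu2).symm
            · exact hScl u hu2 v hv2 huv
        · exact hTR u hu1 v hv1
      · rcases Finset.mem_union.1 hv with hv1 | hv1
        · exact (hTR v hv1 u hu1).symm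
        · exact hTcl u hu1 v hv1 huv

theorem Sgb_sum {G : SimpleGraph V} {U : Finset V} (n : ℕ) {r : ℕ} (p : ℝ) (s : ℕ) (R S₁ S₂ : Finset V)
    (hR : R ∈ Cl G U s) (h₁ : S₁ ∈ Cl G (nb G U R) (r - s)) :
    ∑ T ∈ Cl G (nb G U R \ (S₁ ∪ S₂)) (r - s), gz G U n p r s R S₁ T =
      ∑ T ∈ Cl G (nb G U (R ∪ S₁) \ (S₁ ∪ S₂)) (r - s), gz G U n p r s R S₁ T := by
  symm
  apply Finset.sum_subset
  · intro T hT
    exact ((Sgb_fil s R S₁ S₂ hR h₁ T).2 hT).1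
  · intro T hT hT'
    unfold gz
    rw [if_neg]
    intro hcl
    exact hT' ((Sgb_fil s R S₁ S₂ hR h₁ T).1 ⟨hT, hcl⟩)

theorem Sgb_1 {G : SimpleGraph V} {U : Finset V} {n r k : ℕ} {p ε τ χ : ℝ} (H : Num n r k p ε τ χ)
    (h : Reg G U n p ε (4 * r)) (s : ℕ) (hs : s ≤ r) (R S₁ S₂ : Finset V) (hR : R ∈ Cl G U s)
    (h₁ : S₁ ∈ Cl G (nb G U R) (r - s)) (h₂ : S₂ ∈ Cl G (nb G U R) (r - s)) :
    (1 - τ) ^ 2 * Fz n p (r - s) s ≤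
      ∑ T ∈ Cl G (nb G U R \ (S₁ ∪ S₂)) (r - s), gz G U n p r s R S₁ T ∧
    ∑ T ∈ Cl G (nb G U R \ (S₁ ∪ S₂)) (r - s), gz G U n p r s R S₁ T ≤
      (1 + τ) ^ 2 * Fz n p (r - s) s := by
  have hX := Sgb_X s R S₁ S₂ h₁ h₂
  rw [Sgb_sum n p s R S₁ S₂ hR h₁]
  have hP : 0 < p ^ ((r - s) ^ 2) := pow_pos H.p_pos _
  have hτ : 0 ≤ τ := by
    have h3 := H.τ_ge
    have h4 := H.ε_pos
    have h5 : (0 : ℝ) ≤ r := Nat.cast_nonneg _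
    have h6 : 0 ≤ 8 * (r : ℝ) * ε := by positivity
    linarith
  have hτ1 := H.τ_le
  have hZ : R ∪ S₁ ⊆ U ∧ (R ∪ S₁).card = s + (r - s) := by
    have hR' := hR
    have h₁' := h₁
    rw [Cnt_mem_Cl] at hR' h₁'
    refine ⟨?_, ?_⟩
    · intro v hv
      rcases Finset.mem_union.1 hv with hv | hv
      · exact hR'.1.1 hv
      · exact (Cnt_mem_nb.1 (h₁'.1.1 hv)).1
    · have hd : Disjoint R S₁ := by
        rw [Finset.disjoint_left]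
        intro v hv hv'
        exact G.loopless.irrefl v ((Cnt_mem_nb.1 (h₁'.1.1 hv')).2 v hv)
      rw [Finset.card_union_of_disjoint hd, hR'.1.2, h₁'.1.2]
  have hge := Cnt_ge H h (S₁ ∪ S₂) (R ∪ S₁) hX hZ.1 (r - s) (by rw [hZ.2]; omega)
  have hle := Cnt_le H h (S₁ ∪ S₂) (R ∪ S₁) hZ.1 (r - s) (by rw [hZ.2]; omega)
  rw [hZ.2, Fz_shift] at hge hle
  have hsq : (r - s) * (r - s) = (r - s) ^ 2 := by ring
  rw [hsq] at hge hle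
  have hmem : ∀ T ∈ Cl G (nb G U (R ∪ S₁) \ (S₁ ∪ S₂)) (r - s),
      T ∈ Cl G (nb G U R) (r - s) ∧ Disjoint S₁ T ∧ IsCl G (R ∪ S₁ ∪ T) := by
    intro T hT
    obtain ⟨h3, h4⟩ := (Sgb_fil s R S₁ S₂ hR h₁ T).2 hT
    rw [Cnt_mem_Cl] at h3
    refine ⟨?_, ?_, h4⟩
    · rw [Cnt_mem_Cl]
      exact ⟨⟨fun v hv => (Finset.mem_sdiff.1 (h3.1.1 hv)).1, h3.1.2⟩, h3.2⟩
    · rw [Finset.disjoint_left]
      intro v hv hv'
      exact (Finset.mem_sdiff.1 (h3.1.1 hv')).2 (Finset.mem_union_left _ hv)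
  constructor
  · have h5 : ∑ T ∈ Cl G (nb G U (R ∪ S₁) \ (S₁ ∪ S₂)) (r - s), (1 - τ) / p ^ ((r - s) ^ 2) ≤
        ∑ T ∈ Cl G (nb G U (R ∪ S₁) \ (S₁ ∪ S₂)) (r - s), gz G U n p r s R S₁ T :=
      Finset.sum_le_sum (fun T hT =>
        Sga_low H h s hs R S₁ T hR h₁ (hmem T hT).1 (hmem T hT).2.1 (hmem T hT).2.2)
    rw [Finset.sum_const, nsmul_eq_mul] at h5
    refine le_trans ?_ h5
    have h6 : 0 ≤ (1 - τ) / p ^ ((r - s) ^ 2) := div_nonneg (by linarith) hP.le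
    have h7 := mul_le_mul_of_nonneg_right hge h6
    refine le_trans (le_of_eq ?_) h7
    field_simp
  · have h5 : ∑ T ∈ Cl G (nb G U (R ∪ S₁) \ (S₁ ∪ S₂)) (r - s), gz G U n p r s R S₁ T ≤
        ∑ T ∈ Cl G (nb G U (R ∪ S₁) \ (S₁ ∪ S₂)) (r - s), (1 + τ) / p ^ ((r - s) ^ 2) :=
      Finset.sum_le_sum (fun T hT =>
        Sga_hi H h s hs R S₁ T hR h₁ (hmem T hT).1 (hmem T hT).2.1)
    rw [Finset.sum_const, nsmul_eq_mul] at h5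
    refine le_trans h5 ?_
    have h6 : 0 ≤ (1 + τ) / p ^ ((r - s) ^ 2) := div_nonneg (by linarith) hP.le
    have h7 := mul_le_mul_of_nonneg_right hle h6
    refine le_trans h7 (le_of_eq ?_)
    field_simp

end Pool.Agent.H9.SQ
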