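import Pool.Agent.H9.SQ.Sga

/-!
Module Sgb2.  Sums of `gz` over `T` (`a = r - s`, `F = Fz n p a s`, `X = S₁ ∪ S₂`).
The `T ∈ Cl G (nb G U R \ X) a` with `IsCl G (R ∪ S₁ ∪ T)` are the `T ∈ Cl G (nb G U (R ∪ S₁) \ X) a`; for the others `gz = 0`.
`Sgb_1`: `(1-τ)/p^(a²) * (1-τ) Fz a (s+a) ≤ ∑ ≤ (1+τ)/p^(a²) * (1+τ) Fz a (s+a)`, `Fz a (s+a) = F p^(a²)` (`Fz_shift`).  It is stated for `S₁`; `Sgb_1'` is the same for `S₂`.
`Sgb_2`: the product is nonzero iff `T ∈ Cl G (nb G U (R ∪ S₁ ∪ S₂) \ X) a`, `|R ∪ S₁ ∪ S₂| = s + 2a - t`, `t = |S₁ ∩ S₂|`, and `Fz a (s+2a-t) = F p^(a(2a-t))`.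
-/

set_option autoImplicit false
set_option linter.unusedSectionVars false

open Finset

namespace Pool.Agent.H9.SQ

open Pool.Agent.H9.KR

variable {V : Type} [Fintype V] [DecidableEq V]

theorem Sgb2_Cl {G : SimpleGraph V} {D C : Finset V} {a : ℕ} :
    C ∈ Cl G D a ↔ C ⊆ D ∧ C.card = a ∧ IsCl G C := by
  simp only [Cl, Finset.mem_filter, Finset.mem_powersetCard, and_assoc]

theorem Sgb2_isCl {G : SimpleGraph V} {U R S₁ S₂ T : Finset V} {s a : ℕ} (hR : R ∈ Cl G U s)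
    (h₁ : S₁ ∈ Cl G (nb G U R) a) (hT : T ∈ Cl G (nb G U (R ∪ S₁ ∪ S₂) \ (S₁ ∪ S₂)) a) :
    IsCl G (R ∪ S₁ ∪ T) := by
  rw [Sgb2_Cl] at hR h₁ hT
  have e1 : ∀ v ∈ S₁, ∀ u ∈ R, G.Adj u v := fun v hv u hu => (mem_nb.1 (h₁.1 hv)).2 u hu
  have e2 : ∀ v ∈ T, ∀ u ∈ R ∪ S₁ ∪ S₂, G.Adj u v :=
    fun v hv u hu => (mem_nb.1 (Finset.mem_sdiff.1 (hT.1 hv)).1).2 u hu
  have e2R : ∀ v ∈ T, ∀ u ∈ R, G.Adj u v := fun v hv u hu => e2 v hv u (by simp [hu])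
  have e2S : ∀ v ∈ T, ∀ u ∈ S₁, G.Adj u v := fun v hv u hu => e2 v hv u (by simp [hu])
  intro u hu v hv huv
  simp only [Finset.mem_union] at hu hv
  rcases hu with (hu | hu) | hu <;> rcases hv with (hv | hv) | hv
  · exact hR.2.2 u hu v hv huv
  · exact e1 v hv u hu
  · exact e2R v hv u hu
  · exact (e1 u hu v hv).symm
  · exact h₁.2.2 u hu v hv huv
  · exact e2S v hv u hu
  · exact (e2R u hu v hv).symm
  · exact (e2S u hu v hv).symm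
  · exact hT.2.2 u hu v hv huv

theorem Sgb_2 {G : SimpleGraph V} {U : Finset V} {n r k : ℕ} {p ε τ χ : ℝ} (H : Num n r k p ε τ χ)
    (h : Reg G U n p ε (4 * r)) (s : ℕ) (hs : s ≤ r) (R S₁ S₂ : Finset V) (hR : R ∈ Cl G U s)
    (h₁ : S₁ ∈ Cl G (nb G U R) (r - s)) (h₂ : S₂ ∈ Cl G (nb G U R) (r - s)) :
    (1 - τ) ^ 3 * Fz n p (r - s) s ≤
      ∑ T ∈ Cl G (nb G U R \ (S₁ ∪ S₂)) (r - s), gz G U n p r s R S₁ T * gz G U n p r s R S₂ T ∧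
    ∑ T ∈ Cl G (nb G U R \ (S₁ ∪ S₂)) (r - s), gz G U n p r s R S₁ T * gz G U n p r s R S₂ T ≤
      (1 + τ) ^ 3 * Fz n p (r - s) s / p ^ ((r - s) * (S₁ ∩ S₂).card) := by
  classical
  obtain ⟨a, ha⟩ : ∃ a, a = r - s := ⟨_, rfl⟩
  obtain ⟨t, ht⟩ : ∃ t, t = (S₁ ∩ S₂).card := ⟨_, rfl⟩
  have hR' := Sgb2_Cl.1 hR
  have h₁' := Sgb2_Cl.1 h₁
  have h₂' := Sgb2_Cl.1 h₂
  have hp := H.p_pos
  have hp1 := H.p_le
  have hε : 0 ≤ τ := le_trans (by have := H.ε_pos; positivity) H.τ_ge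
  have hτ1 : τ ≤ 1 / 64 := H.τ_le
  have hcardX : (S₁ ∪ S₂).card + t = 2 * a := by
    rw [ht, Finset.card_union_add_card_inter, h₁'.2.1, h₂'.2.1, ← ha]; ring
  have hdisj : Disjoint R (S₁ ∪ S₂) := by
    rw [Finset.disjoint_left]
    intro v hv hv'
    have : v ∈ nb G U R := by
      rcases Finset.mem_union.1 hv' with h' | h'
      · exact h₁'.1 h'
      · exact h₂'.1 h'
    exact G.loopless.irrefl v ((mem_nb.1 this).2 v hv)
  have hcardZ : (R ∪ S₁ ∪ S₂).card = s + (2 * a - t) := by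
    rw [Finset.union_assoc, Finset.card_union_of_disjoint hdisj, hR'.2.1]
    omega
  have hZU : R ∪ S₁ ∪ S₂ ⊆ U := by
    intro v hv
    simp only [Finset.mem_union] at hv
    rcases hv with (hv | hv) | hv
    · exact hR'.1 hv
    · exact nb_sub G U R (h₁'.1 hv)
    · exact nb_sub G U R (h₂'.1 hv)
  have hZa : (R ∪ S₁ ∪ S₂).card + a ≤ 4 * r := by rw [hcardZ]; omega
  have hX4 : (S₁ ∪ S₂).card ≤ 4 * r := by omega
  have hsub : Cl G (nb G U (R ∪ S₁ ∪ S₂) \ (S₁ ∪ S₂)) (r - s) ⊆ Cl G (nb G U R \ (S₁ ∪ S₂)) (r - s) := by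
    intro T hT
    rw [Sgb2_Cl] at hT ⊢
    refine ⟨hT.1.trans (Finset.sdiff_subset_sdiff (nb_mono G (Finset.Subset.refl _) ?_)
      (Finset.Subset.refl _)), hT.2⟩
    intro v hv
    simp [hv]
  have hsum : ∑ T ∈ Cl G (nb G U R \ (S₁ ∪ S₂)) (r - s), gz G U n p r s R S₁ T * gz G U n p r s R S₂ T =
      ∑ T ∈ Cl G (nb G U (R ∪ S₁ ∪ S₂) \ (S₁ ∪ S₂)) (r - s),
        gz G U n p r s R S₁ T * gz G U n p r s R S₂ T := by
    symm
    apply Finset.sum_subset hsub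
    intro T hT hT'
    rw [Sgb2_Cl] at hT hT'
    by_contra hne
    apply hT'
    refine ⟨?_, hT.2⟩
    intro v hv
    have hv' := Finset.mem_sdiff.1 (hT.1 hv)
    rw [Finset.mem_sdiff]
    refine ⟨mem_nb.2 ⟨(mem_nb.1 hv'.1).1, ?_⟩, hv'.2⟩
    have hc1 : IsCl G (R ∪ S₁ ∪ T) := by
      by_contra hcc
      exact hne (by rw [gz, if_neg hcc, zero_mul])
    have hc2 : IsCl G (R ∪ S₂ ∪ T) := by
      by_contra hcc
      exact hne (by rw [show gz G U n p r s R S₂ T = 0 by rw [gz, if_neg hcc], mul_zero])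
    intro u hu
    simp only [Finset.mem_union] at hu
    rcases hu with (hu | hu) | hu
    · exact (mem_nb.1 hv'.1).2 u hu
    · refine hc1 u (by simp [hu]) v (by simp [hv]) ?_
      rintro rfl
      exact hv'.2 (by simp [hu])
    · refine hc2 u (by simp [hu]) v (by simp [hv]) ?_
      rintro rfl
      exact hv'.2 (by simp [hu])
  have hterm : ∀ T ∈ Cl G (nb G U (R ∪ S₁ ∪ S₂) \ (S₁ ∪ S₂)) (r - s),
      ((1 - τ) / p ^ (a ^ 2)) ^ 2 ≤ gz G U n p r s R S₁ T * gz G U n p r s R S₂ T ∧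
      gz G U n p r s R S₁ T * gz G U n p r s R S₂ T ≤ ((1 + τ) / p ^ (a ^ 2)) ^ 2 := by
    intro T hT
    have hTt := hsub hT
    have hT1 := Sgb2_Cl.1 hTt
    have hTR : T ∈ Cl G (nb G U R) (r - s) :=
      Sgb2_Cl.2 ⟨hT1.1.trans Finset.sdiff_subset, hT1.2⟩
    have d1 : Disjoint S₁ T := by
      rw [Finset.disjoint_right]
      intro v hv hv'
      exact (Finset.mem_sdiff.1 (hT1.1 hv)).2 (by simp [hv'])
    have d2 : Disjoint S₂ T := by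
      rw [Finset.disjoint_right]
      intro v hv hv'
      exact (Finset.mem_sdiff.1 (hT1.1 hv)).2 (by simp [hv'])
    have c1 : IsCl G (R ∪ S₁ ∪ T) := Sgb2_isCl hR h₁ hT
    have c2 : IsCl G (R ∪ S₂ ∪ T) := by
      have hT' : T ∈ Cl G (nb G U (R ∪ S₂ ∪ S₁) \ (S₂ ∪ S₁)) (r - s) := by
        have e : R ∪ S₂ ∪ S₁ = R ∪ S₁ ∪ S₂ := by
          rw [Finset.union_assoc, Finset.union_comm S₂ S₁, ← Finset.union_assoc]
        rw [e, Finset.union_comm S₂ S₁]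
        exact hT
      exact Sgb2_isCl hR h₂ hT'
    have l1 := Sga_low H h s hs R S₁ T hR h₁ hTR d1 c1
    have l2 := Sga_low H h s hs R S₂ T hR h₂ hTR d2 c2
    have u1 := Sga_hi H h s hs R S₁ T hR h₁ hTR d1
    have u2 := Sga_hi H h s hs R S₂ T hR h₂ hTR d2
    rw [← ha] at l1 l2 u1 u2
    have hlow : 0 ≤ (1 - τ) / p ^ (a ^ 2) := div_nonneg (by linarith) (by positivity)
    have g1 : 0 ≤ gz G U n p r s R S₁ T := hlow.trans l1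
    have g2 : 0 ≤ gz G U n p r s R S₂ T := hlow.trans l2
    constructor
    · rw [sq]; exact mul_le_mul l1 l2 hlow g1
    · rw [sq]; exact mul_le_mul u1 u2 g2 (g1.trans u1)
  have hup := Cnt_le H h (S₁ ∪ S₂) (R ∪ S₁ ∪ S₂) hZU a hZa
  have hlo := Cnt_ge H h (S₁ ∪ S₂) (R ∪ S₁ ∪ S₂) hX4 hZU a hZa
  rw [hcardZ, Fz_shift] at hup hlo
  have hF : 0 ≤ Fz n p a s := Fz_nonneg hp.le a s
  have hpp : p ^ (a * (2 * a - t)) * p ^ (a * t) = (p ^ (a ^ 2)) ^ 2 := by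
    rw [← pow_add, ← pow_mul]
    congr 1
    rw [← mul_add, Nat.sub_add_cancel (by omega)]
    ring
  have hP : 0 < p ^ (a ^ 2) := by positivity
  have hQ : 0 < p ^ (a * t) := by positivity
  have hQ1 : p ^ (a * t) ≤ 1 := pow_le_one₀ hp.le hp1
  rw [hsum]
  constructor
  · have hs1 : ((Cl G (nb G U (R ∪ S₁ ∪ S₂) \ (S₁ ∪ S₂)) (r - s)).card : ℝ) * ((1 - τ) / p ^ (a ^ 2)) ^ 2 ≤
        ∑ T ∈ Cl G (nb G U (R ∪ S₁ ∪ S₂) \ (S₁ ∪ S₂)) (r - s),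
          gz G U n p r s R S₁ T * gz G U n p r s R S₂ T := by
      rw [← nsmul_eq_mul]
      exact Finset.card_nsmul_le_sum _ _ _ (fun T hT => (hterm T hT).1)
    refine le_trans ?_ hs1
    rw [← ha]
    have h3 : (1 - τ) * (Fz n p a s * p ^ (a * (2 * a - t))) * ((1 - τ) / p ^ (a ^ 2)) ^ 2 ≤
        ((Cl G (nb G U (R ∪ S₁ ∪ S₂) \ (S₁ ∪ S₂)) a).card : ℝ) * ((1 - τ) / p ^ (a ^ 2)) ^ 2 :=
      mul_le_mul_of_nonneg_right hlo (by positivity)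
    refine le_trans ?_ h3
    have h4 : (1 - τ) * (Fz n p a s * p ^ (a * (2 * a - t))) * ((1 - τ) / p ^ (a ^ 2)) ^ 2 =
        (1 - τ) ^ 3 * Fz n p a s / p ^ (a * t) := by
      rw [div_pow, eq_div_iff hQ.ne', ← hpp]
      have : p ^ (a * (2 * a - t)) ≠ 0 := by positivity
      field_simp
    rw [h4, le_div_iff₀ hQ]
    have h5 : 0 ≤ (1 - τ) ^ 3 * Fz n p a s := mul_nonneg (pow_nonneg (by linarith) 3) hF
    nlinarith
  · have hs1 : ∑ T ∈ Cl G (nb G U (R ∪ S₁ ∪ S₂) \ (S₁ ∪ S₂)) (r - s),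
          gz G U n p r s R S₁ T * gz G U n p r s R S₂ T ≤
        ((Cl G (nb G U (R ∪ S₁ ∪ S₂) \ (S₁ ∪ S₂)) (r - s)).card : ℝ) * ((1 + τ) / p ^ (a ^ 2)) ^ 2 := by
      rw [← nsmul_eq_mul]
      exact Finset.sum_le_card_nsmul _ _ _ (fun T hT => (hterm T hT).2)
    refine le_trans hs1 ?_
    rw [← ha, ← ht]
    have h3 : ((Cl G (nb G U (R ∪ S₁ ∪ S₂) \ (S₁ ∪ S₂)) a).card : ℝ) * ((1 + τ) / p ^ (a ^ 2)) ^ 2 ≤
        (1 + τ) * (Fz n p a s * p ^ (a * (2 * a - t))) * ((1 + τ) / p ^ (a ^ 2)) ^ 2 :=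
      mul_le_mul_of_nonneg_right hup (by positivity)
    refine le_trans h3 (le_of_eq ?_)
    rw [div_pow, eq_div_iff hQ.ne', ← hpp]
    have : p ^ (a * (2 * a - t)) ≠ 0 := by positivity
    field_simp

end Pool.Agent.H9.SQ
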