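import Pool.Agent.H9.SQ.Sgb
import Pool.Agent.H9.SQ.Sgb2

/-!
Module Sgc.  `K(S₁,S₂) = ∑ T, ez(S₁,T) ez(S₂,T)`.   Use only the STATEMENTS of Sgb, Sgb2.
Only `T` disjoint from `S₁` and `S₂` contribute, i.e. `T ∈ Cl G (nb G U R \ (S₁ ∪ S₂)) (r-s)`; there the term is `g₁ g₂ - g₁ - g₂ + 1`, so `K = H₁₂ - H₁ - H₂ + H₀` (`Sgb_2`, `Sgb_1` for `(S₁,S₂)` and for `(S₂,S₁)` -
note `S₂ ∪ S₁ = S₁ ∪ S₂` -, `Sgb_0`).  `Sgc_dis`: `|S₁ ∩ S₂| = 0`, `8τ + τ² + τ³ ≤ 9τ`.  `Sgc_all`: `(1+τ)³ + (1+τ) ≤ 3`, `2(1+τ)² ≤ 3`, `1 ≤ 1/p^(..)`.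
-/

set_option autoImplicit false
set_option linter.unusedSectionVars false

open Finset

namespace Pool.Agent.H9.SQ

open Pool.Agent.H9.KR

variable {V : Type} [Fintype V] [DecidableEq V]

lemma Sgc_mem (G : SimpleGraph V) (D : Finset V) (a : ℕ) (S₁ S₂ T : Finset V) :
    T ∈ Cl G (D \ (S₁ ∪ S₂)) a ↔ T ∈ Cl G D a ∧ Disjoint S₁ T ∧ Disjoint S₂ T := by
  classical
  simp only [Cl, mem_filter, mem_powersetCard]
  constructor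
  · rintro ⟨⟨hs, hc⟩, hq⟩
    refine ⟨⟨⟨fun v hv => (mem_sdiff.1 (hs hv)).1, hc⟩, hq⟩, ?_, ?_⟩
    · rw [Finset.disjoint_left]
      intro v h1 h2
      exact (mem_sdiff.1 (hs h2)).2 (mem_union_left _ h1)
    · rw [Finset.disjoint_left]
      intro v h1 h2
      exact (mem_sdiff.1 (hs h2)).2 (mem_union_right _ h1)
  · rintro ⟨⟨⟨hs, hc⟩, hq⟩, h1, h2⟩
    refine ⟨⟨fun v hv => mem_sdiff.2 ⟨hs hv, fun hx => ?_⟩, hc⟩, hq⟩
    rcases mem_union.1 hx with hx | hx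
    · exact (Finset.disjoint_left.1 h1 hx) hv
    · exact (Finset.disjoint_left.1 h2 hx) hv

lemma Sgc_sum (G : SimpleGraph V) (U : Finset V) (n r : ℕ) (p : ℝ) (s : ℕ) (R S₁ S₂ : Finset V) :
    ∑ T ∈ Cl G (nb G U R) (r - s), ez G U n p r s R S₁ T * ez G U n p r s R S₂ T =
      ∑ T ∈ Cl G (nb G U R \ (S₁ ∪ S₂)) (r - s), gz G U n p r s R S₁ T * gz G U n p r s R S₂ T -
      ∑ T ∈ Cl G (nb G U R \ (S₁ ∪ S₂)) (r - s), gz G U n p r s R S₁ T -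
      ∑ T ∈ Cl G (nb G U R \ (S₁ ∪ S₂)) (r - s), gz G U n p r s R S₂ T +
      ((Cl G (nb G U R \ (S₁ ∪ S₂)) (r - s)).card : ℝ) := by
  classical
  have hsub : Cl G (nb G U R \ (S₁ ∪ S₂)) (r - s) ⊆ Cl G (nb G U R) (r - s) :=
    fun T hT => ((Sgc_mem G _ _ S₁ S₂ T).1 hT).1
  rw [← Finset.sum_subset hsub]
  · rw [Finset.card_eq_sum_ones, Nat.cast_sum, ← Finset.sum_sub_distrib, ← Finset.sum_sub_distrib,
      ← Finset.sum_add_distrib]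
    refine Finset.sum_congr rfl fun T hT => ?_
    obtain ⟨_, h1, h2⟩ := (Sgc_mem G _ _ S₁ S₂ T).1 hT
    simp only [ez, if_pos h1, if_pos h2]
    push_cast
    ring
  · intro T hT hT'
    have : ¬ (Disjoint S₁ T ∧ Disjoint S₂ T) := fun hh =>
      hT' ((Sgc_mem G _ _ S₁ S₂ T).2 ⟨hT, hh.1, hh.2⟩)
    by_cases h1 : Disjoint S₁ T
    · have h2 : ¬ Disjoint S₂ T := fun h2 => this ⟨h1, h2⟩
      simp [ez, h2]
    · simp [ez, h1]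

lemma Sgc_Fz_nonneg {n : ℕ} {p : ℝ} (hp : 0 < p) (a z : ℕ) : 0 ≤ Fz n p a z := by
  unfold Fz
  positivity

lemma Sgc_τ {n r k : ℕ} {p ε τ χ : ℝ} (H : Num n r k p ε τ χ) : 0 ≤ τ := by
  have h1 := H.τ_ge
  have h2 := H.ε_pos
  have : 0 ≤ 8 * (r : ℝ) * ε := by positivity
  linarith

theorem Sgc_dis {G : SimpleGraph V} {U : Finset V} {n r k : ℕ} {p ε τ χ : ℝ} (H : Num n r k p ε τ χ)
    (h : Reg G U n p ε (4 * r)) (s : ℕ) (hs : s ≤ r) (R S₁ S₂ : Finset V) (hR : R ∈ Cl G U s)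
    (h₁ : S₁ ∈ Cl G (nb G U R) (r - s)) (h₂ : S₂ ∈ Cl G (nb G U R) (r - s)) (hd : Disjoint S₁ S₂) :
    |∑ T ∈ Cl G (nb G U R) (r - s), ez G U n p r s R S₁ T * ez G U n p r s R S₂ T| ≤
      9 * τ * Fz n p (r - s) s := by
  rw [Sgc_sum]
  obtain ⟨a0, b0⟩ := Sgb_0 H h s hs R S₁ S₂ hR h₁ h₂
  obtain ⟨a1, b1⟩ := Sgb_1 H h s hs R S₁ S₂ hR h₁ h₂
  obtain ⟨a2, b2⟩ := Sgb_1 H h s hs R S₂ S₁ hR h₂ h₁
  obtain ⟨a3, b3⟩ := Sgb_2 H h s hs R S₁ S₂ hR h₁ h₂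
  rw [Finset.union_comm S₂ S₁] at a2 b2
  have hz : (S₁ ∩ S₂).card = 0 := by
    rw [Finset.card_eq_zero]
    exact Finset.disjoint_iff_inter_eq_empty.1 hd
  rw [hz, Nat.mul_zero, pow_zero, div_one] at b3
  have hF := Sgc_Fz_nonneg (n := n) H.p_pos (r - s) s
  have hτ := Sgc_τ H
  have hτ' := H.τ_le
  set F := Fz n p (r - s) s
  have e1 : τ ^ 2 * F ≤ (1 / 64) * τ * F := by
    have : τ ^ 2 ≤ (1 / 64) * τ := by nlinarith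
    exact mul_le_mul_of_nonneg_right this hF
  have e2 : τ ^ 3 * F ≤ (1 / 64) * τ * F := by
    have h3 : τ ^ 2 ≤ 1 / 64 := by nlinarith
    have : τ ^ 3 ≤ (1 / 64) * τ := by
      have : τ ^ 3 = τ ^ 2 * τ := by ring
      rw [this]
      exact mul_le_mul_of_nonneg_right h3 hτ
    exact mul_le_mul_of_nonneg_right this hF
  have e3 : 0 ≤ τ ^ 2 * F := by positivity
  have e4 : 0 ≤ τ ^ 3 * F := by positivity
  have e5 : 0 ≤ τ * F := by positivity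
  rw [abs_le]
  constructor
  · have : (1 - τ) ^ 3 * F + (1 - τ) * F - (1 + τ) ^ 2 * F - (1 + τ) ^ 2 * F =
        -(8 * (τ * F)) + τ ^ 2 * F - τ ^ 3 * F := by ring
    nlinarith
  · have : (1 + τ) ^ 3 * F + (1 + τ) * F - (1 - τ) ^ 2 * F - (1 - τ) ^ 2 * F =
        8 * (τ * F) + τ ^ 2 * F + τ ^ 3 * F := by ring
    nlinarith

theorem Sgc_all {G : SimpleGraph V} {U : Finset V} {n r k : ℕ} {p ε τ χ : ℝ} (H : Num n r k p ε τ χ)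
    (h : Reg G U n p ε (4 * r)) (s : ℕ) (hs : s ≤ r) (R S₁ S₂ : Finset V) (hR : R ∈ Cl G U s)
    (h₁ : S₁ ∈ Cl G (nb G U R) (r - s)) (h₂ : S₂ ∈ Cl G (nb G U R) (r - s)) :
    |∑ T ∈ Cl G (nb G U R) (r - s), ez G U n p r s R S₁ T * ez G U n p r s R S₂ T| ≤
      3 * Fz n p (r - s) s / p ^ ((r - s) * (S₁ ∩ S₂).card) := by
  rw [Sgc_sum]
  obtain ⟨a0, b0⟩ := Sgb_0 H h s hs R S₁ S₂ hR h₁ h₂
  obtain ⟨a1, b1⟩ := Sgb_1 H h s hs R S₁ S₂ hR h₁ h₂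
  obtain ⟨a2, b2⟩ := Sgb_1 H h s hs R S₂ S₁ hR h₂ h₁
  obtain ⟨a3, b3⟩ := Sgb_2 H h s hs R S₁ S₂ hR h₁ h₂
  rw [Finset.union_comm S₂ S₁] at a2 b2
  have hF := Sgc_Fz_nonneg (n := n) H.p_pos (r - s) s
  have hτ := Sgc_τ H
  have hτ' := H.τ_le
  have hp := H.p_pos
  have hp1 := H.p_le
  set F := Fz n p (r - s) s
  set q := p ^ ((r - s) * (S₁ ∩ S₂).card) with hq
  have hq0 : 0 < q := by positivity
  have hq1 : q ≤ 1 := pow_le_one₀ hp.le hp1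
  have hFq : F ≤ F / q := by
    rw [le_div_iff₀ hq0]
    nlinarith
  have hFq0 : 0 ≤ F / q := by positivity
  have e1 : (1 + τ) ^ 3 * F / q ≤ (3 / 2) * (F / q) := by
    rw [mul_div_assoc]
    refine mul_le_mul_of_nonneg_right ?_ hFq0
    have : (1 + τ) ^ 3 ≤ (1 + 1 / 64) ^ 3 := pow_le_pow_left₀ (by linarith) (by linarith) 3
    norm_num at this
    linarith
  have e2 : (1 + τ) * F ≤ (3 / 2) * F := mul_le_mul_of_nonneg_right (by linarith) hF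
  have e3 : (1 + τ) ^ 2 * F ≤ (3 / 2) * F := by
    refine mul_le_mul_of_nonneg_right ?_ hF
    nlinarith
  have e4 : 0 ≤ (1 - τ) ^ 3 * F := by
    have : 0 ≤ 1 - τ := by linarith
    positivity
  have e5 : 0 ≤ (1 - τ) ^ 2 * F := by positivity
  have e6 : 0 ≤ (1 - τ) * F := by
    have : 0 ≤ 1 - τ := by linarith
    positivity
  have e7 : 3 * F / q = 3 * (F / q) := by ring
  rw [e7, abs_le]
  constructor
  · linarith
  · linarith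

end Pool.Agent.H9.SQ
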