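import Pool.Agent.H9.SQ.Cnt

/-!
Module Sgd.  Pairs `S₁, S₂` that meet (`a = r - s`, `F = Fz n p a s`).
`Sgd_ext`: `S₂ ⊇ X` in `Cl (nb R) a`: `S₂ \ X ∈ Cl (nb (R ∪ X)) (a - |X|)`; `Cnt_le` and `Fz_drop` (`z = s`, `t = |X|`).
`Sgd_main`: `∑_{S₂ meets S₁} w(|S₁ ∩ S₂|) ≤ ∑_{∅ ≠ X ⊆ S₁} w(|X|) #{S₂ ⊇ X}` (take `X = S₁ ∩ S₂`), `w(t) = (1/p^(a t))²`; with `Sgd_ext` this is
`≤ (1+τ) F ∑_{t ≥ 1} C(a,t) (a / (n p^r p^(2a)))^t = (1+τ) F ((1+x)^a - 1)`, `x = a/(n p^(r+2a))`, `a x ≤ r²/(n p^(3r)) ≤ χ ≤ 1/64`, `(1+x)^a ≤ exp(a x) ≤ 1 + 2χ`.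
(`Finset.sum_powerset_apply_card` / `Finset.sum_powersetCard`, `add_pow`.)
-/

set_option autoImplicit false
set_option linter.unusedSectionVars false

open Finset

namespace Pool.Agent.H9.SQ

open Pool.Agent.H9.KR

variable {V : Type} [Fintype V] [DecidableEq V]

theorem Sgd_ext {G : SimpleGraph V} {U : Finset V} {n r k : ℕ} {p ε τ χ : ℝ} (H : Num n r k p ε τ χ)
    (h : Reg G U n p ε (4 * r)) (s : ℕ) (hs : s ≤ r) (R X : Finset V) (hR : R ∈ Cl G U s)
    (hX : X ⊆ nb G U R) (hXc : X.card ≤ r - s) :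
    (((Cl G (nb G U R) (r - s)).filter (fun S => X ⊆ S)).card : ℝ) ≤
      (1 + τ) * (Fz n p (r - s) s * (((r - s : ℕ) : ℝ) / (n * p ^ r)) ^ X.card) := by
  classical
  have hRU : R ⊆ U := (mem_powersetCard.1 (mem_filter.1 hR).1).1
  have hRc : R.card = s := (mem_powersetCard.1 (mem_filter.1 hR).1).2
  have hXU : X ⊆ U := fun v hv => (mem_filter.1 (hX hv)).1
  have hXR : ∀ v ∈ X, ∀ u ∈ R, G.Adj u v := fun v hv => (mem_filter.1 (hX hv)).2
  have hdis : Disjoint R X := by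
    rw [Finset.disjoint_left]
    intro v hvR hvX
    exact G.loopless.irrefl v (hXR v hvX v hvR)
  have hZ : R ∪ X ⊆ U := union_subset hRU hXU
  have hZc : (R ∪ X).card = s + X.card := by
    rw [card_union_of_disjoint hdis, hRc]
  have hinj : ((Cl G (nb G U R) (r - s)).filter (fun S => X ⊆ S)).card ≤
      (Cl G (nb G U (R ∪ X) \ ∅) (r - s - X.card)).card := by
    refine card_le_card_of_injOn (fun S => S \ X) ?_ ?_
    · intro S hS
      have hS1 := (mem_filter.1 (mem_coe.1 hS)).1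
      have hXS := (mem_filter.1 (mem_coe.1 hS)).2
      have hSc := (mem_filter.1 hS1).2
      have hSD := (mem_powersetCard.1 (mem_filter.1 hS1).1).1
      have hSa := (mem_powersetCard.1 (mem_filter.1 hS1).1).2
      rw [mem_coe]
      refine mem_filter.2 ⟨mem_powersetCard.2 ⟨?_, ?_⟩, ?_⟩
      · intro v hv
        rw [sdiff_empty]
        have hvS := (mem_sdiff.1 hv).1
        have hvX := (mem_sdiff.1 hv).2
        have hvD := mem_filter.1 (hSD hvS)
        refine mem_filter.2 ⟨hvD.1, ?_⟩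
        intro u hu
        rcases mem_union.1 hu with hu | hu
        · exact hvD.2 u hu
        · exact hSc u (hXS hu) v hvS (fun e => hvX (e ▸ hu))
      · rw [card_sdiff_of_subset hXS, hSa]
      · intro u hu v hv huv
        exact hSc u (mem_sdiff.1 hu).1 v (mem_sdiff.1 hv).1 huv
    · intro S hS T hT hST
      have hXS := (mem_filter.1 (mem_coe.1 hS)).2
      have hXT := (mem_filter.1 (mem_coe.1 hT)).2
      rw [← sdiff_union_of_subset hXS, ← sdiff_union_of_subset hXT]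
      exact congrArg (fun A => A ∪ X) hST
  have h1 : ((Cl G (nb G U (R ∪ X) \ ∅) (r - s - X.card)).card : ℝ) ≤
      (1 + τ) * Fz n p (r - s - X.card) (R ∪ X).card :=
    Cnt_le H h ∅ (R ∪ X) hZ _ (by rw [hZc]; omega)
  have h2 := Fz_drop H.n_pos H.p_pos H.p_le (r - s) s X.card r hXc (by omega)
  have hτ : 0 ≤ 1 + τ := by
    have h3 : 0 ≤ 8 * (r : ℝ) * ε := by
      have := H.ε_pos
      positivity
    linarith [H.τ_ge]
  calc (((Cl G (nb G U R) (r - s)).filter (fun S => X ⊆ S)).card : ℝ)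
      ≤ ((Cl G (nb G U (R ∪ X) \ ∅) (r - s - X.card)).card : ℝ) := by exact_mod_cast hinj
    _ ≤ (1 + τ) * Fz n p (r - s - X.card) (R ∪ X).card := h1
    _ ≤ _ := by
      rw [hZc]
      exact mul_le_mul_of_nonneg_left h2 hτ

theorem Sgd_main {G : SimpleGraph V} {U : Finset V} {n r k : ℕ} {p ε τ χ : ℝ} (H : Num n r k p ε τ χ)
    (h : Reg G U n p ε (4 * r)) (s : ℕ) (hs : s ≤ r) (R S₁ : Finset V) (hR : R ∈ Cl G U s)
    (h₁ : S₁ ∈ Cl G (nb G U R) (r - s)) :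
    ∑ S₂ ∈ (Cl G (nb G U R) (r - s)).filter (fun S₂ => (S₁ ∩ S₂).Nonempty),
      (1 / p ^ ((r - s) * (S₁ ∩ S₂).card)) ^ 2 ≤ 3 * χ * Fz n p (r - s) s := by
  classical
  have hp := H.p_pos
  have hp1 := H.p_le
  have hn : (0 : ℝ) < n := by exact_mod_cast H.n_pos
  have hS1 : S₁.card = r - s := (mem_powersetCard.1 (mem_filter.1 h₁).1).2
  have hS1D : S₁ ⊆ nb G U R := (mem_powersetCard.1 (mem_filter.1 h₁).1).1
  have hF : 0 ≤ Fz n p (r - s) s := Fz_nonneg hp.le _ _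
  have hτ0 : 0 ≤ τ := by
    have h3 : 0 ≤ 8 * (r : ℝ) * ε := by
      have := H.ε_pos
      positivity
    linarith [H.τ_ge]
  have h1 : ∑ S₂ ∈ (Cl G (nb G U R) (r - s)).filter (fun S₂ => (S₁ ∩ S₂).Nonempty),
      (1 / p ^ ((r - s) * (S₁ ∩ S₂).card)) ^ 2 ≤
      ∑ S₂ ∈ Cl G (nb G U R) (r - s), ∑ X ∈ (S₁.powerset.erase ∅).filter (fun X => X ⊆ S₂),
        (1 / p ^ ((r - s) * X.card)) ^ 2 := by
    calc ∑ S₂ ∈ (Cl G (nb G U R) (r - s)).filter (fun S₂ => (S₁ ∩ S₂).Nonempty),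
          (1 / p ^ ((r - s) * (S₁ ∩ S₂).card)) ^ 2
        ≤ ∑ S₂ ∈ (Cl G (nb G U R) (r - s)).filter (fun S₂ => (S₁ ∩ S₂).Nonempty),
          ∑ X ∈ (S₁.powerset.erase ∅).filter (fun X => X ⊆ S₂),
            (1 / p ^ ((r - s) * X.card)) ^ 2 := by
          refine sum_le_sum fun S₂ h2 => ?_
          refine single_le_sum (f := fun X : Finset V => (1 / p ^ ((r - s) * X.card)) ^ 2)
            (fun X _ => by positivity) ?_
          refine mem_filter.2 ⟨mem_erase.2 ⟨?_, ?_⟩, inter_subset_right⟩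
          · exact (mem_filter.1 h2).2.ne_empty
          · exact mem_powerset.2 inter_subset_left
      _ ≤ _ := sum_le_sum_of_subset_of_nonneg (filter_subset _ _)
          (fun _ _ _ => sum_nonneg fun _ _ => by positivity)
  have h2 : ∑ S₂ ∈ Cl G (nb G U R) (r - s), ∑ X ∈ (S₁.powerset.erase ∅).filter (fun X => X ⊆ S₂),
        (1 / p ^ ((r - s) * X.card)) ^ 2 =
      ∑ X ∈ S₁.powerset.erase ∅, (1 / p ^ ((r - s) * X.card)) ^ 2 *
        (((Cl G (nb G U R) (r - s)).filter (fun S => X ⊆ S)).card : ℝ) := by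
    simp_rw [sum_filter]
    rw [sum_comm]
    refine sum_congr rfl fun X _ => ?_
    rw [← sum_filter, sum_const, nsmul_eq_mul, mul_comm]
  set x : ℝ := ((r - s : ℕ) : ℝ) / (n * p ^ (r + 2 * (r - s))) with hx
  have hx0 : 0 ≤ x := by positivity
  have h3 : ∑ X ∈ S₁.powerset.erase ∅, (1 / p ^ ((r - s) * X.card)) ^ 2 *
        (((Cl G (nb G U R) (r - s)).filter (fun S => X ⊆ S)).card : ℝ) ≤
      ∑ X ∈ S₁.powerset.erase ∅, (1 + τ) * Fz n p (r - s) s * x ^ X.card := by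
    refine sum_le_sum fun X hX => ?_
    have hXS : X ⊆ S₁ := mem_powerset.1 (mem_erase.1 hX).2
    have hXc : X.card ≤ r - s := hS1 ▸ card_le_card hXS
    have h4 := Sgd_ext H h s hs R X hR (hXS.trans hS1D) hXc
    have e : (1 + τ) * Fz n p (r - s) s * x ^ X.card = (1 / p ^ ((r - s) * X.card)) ^ 2 *
        ((1 + τ) * (Fz n p (r - s) s * (((r - s : ℕ) : ℝ) / (n * p ^ r)) ^ X.card)) := by
      have e1 : x ^ X.card = (1 / p ^ ((r - s) * X.card)) ^ 2 *
          (((r - s : ℕ) : ℝ) / (n * p ^ r)) ^ X.card := by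
        rw [hx, pow_mul, ← one_div_pow, ← pow_mul, mul_comm X.card 2, pow_mul (1 / p ^ (r - s)) 2 X.card,
          ← mul_pow]
        congr 1
        rw [pow_add, mul_comm 2 (r - s), pow_mul]
        field_simp
      rw [e1]
      ring
    rw [e]
    exact mul_le_mul_of_nonneg_left h4 (by positivity)
  have h5 : ∑ X ∈ S₁.powerset.erase ∅, (1 + τ) * Fz n p (r - s) s * x ^ X.card =
      (1 + τ) * Fz n p (r - s) s * ((1 + x) ^ (r - s) - 1) := by
    rw [← mul_sum]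
    congr 1
    have h6 := Finset.sum_pow_mul_eq_add_pow x 1 S₁
    simp only [one_pow, mul_one] at h6
    rw [hS1] at h6
    rw [← Finset.add_sum_erase _ _ (empty_mem_powerset S₁), card_empty, pow_zero] at h6
    rw [add_comm 1 x, ← h6]
    ring
  have hax : ((r - s : ℕ) : ℝ) * x ≤ χ := by
    refine le_trans ?_ H.χ_ge
    rw [hx, mul_div_assoc']
    have hrs : ((r - s : ℕ) : ℝ) ≤ r := by exact_mod_cast Nat.sub_le r s
    have h7 : p ^ (3 * r) ≤ p ^ (r + 2 * (r - s)) :=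
      pow_le_pow_of_le_one hp.le hp1 (by omega)
    have h8 : ((r - s : ℕ) : ℝ) * ((r - s : ℕ) : ℝ) ≤ (r : ℝ) ^ 2 := by
      rw [sq]
      exact mul_le_mul hrs hrs (by positivity) (by positivity)
    exact div_le_div₀ (by positivity) h8 (by positivity) (mul_le_mul_of_nonneg_left h7 hn.le)
  have hχ : χ ≤ 1 / 64 := H.χ_le
  have hax0 : 0 ≤ ((r - s : ℕ) : ℝ) * x := by positivity
  have hpow : (1 + x) ^ (r - s) - 1 ≤ 2 * χ := by
    have h9 : (1 + x) ^ (r - s) ≤ Real.exp (((r - s : ℕ) : ℝ) * x) := by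
      rw [Real.exp_nat_mul]
      refine pow_le_pow_left₀ (by positivity) ?_ _
      rw [add_comm]
      exact Real.add_one_le_exp x
    have h10 : Real.exp (((r - s : ℕ) : ℝ) * x) ≤ 1 / (1 - ((r - s : ℕ) : ℝ) * x) :=
      Real.exp_bound_div_one_sub_of_interval hax0 (by linarith)
    have h11 : 1 / (1 - ((r - s : ℕ) : ℝ) * x) ≤ 1 + 2 * χ := by
      rw [div_le_iff₀ (by linarith)]
      nlinarith
    linarith
  have hχ0 : 0 ≤ χ := hax0.trans hax
  calc _ ≤ _ := h1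
    _ = _ := h2
    _ ≤ _ := h3
    _ = _ := h5
    _ ≤ (1 + τ) * Fz n p (r - s) s * (2 * χ) :=
        mul_le_mul_of_nonneg_left hpow (by positivity)
    _ ≤ 3 * χ * Fz n p (r - s) s := by
        have hτ1 := H.τ_le
        have h12 : (1 + τ) * (2 * χ) ≤ 3 * χ := by nlinarith
        calc (1 + τ) * Fz n p (r - s) s * (2 * χ) = ((1 + τ) * (2 * χ)) * Fz n p (r - s) s := by ring
          _ ≤ 3 * χ * Fz n p (r - s) s := mul_le_mul_of_nonneg_right h12 hF

end Pool.Agent.H9.SQ
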