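import Pool.Agent.H9.SQ.Sgc
import Pool.Agent.H9.SQ.Sgd
import Pool.Agent.H9.SQ.Csz

/-!
Module Sge.  Use only the STATEMENTS of Sgc, Sgd, Csz.
`Sge_sum`: split the pairs: disjoint ones: at most `((1+τ)F)²` pairs (`Cnt_le` with `X = ∅`, `Z = R`), each `≤ (9τF)²`; the others: `≤ 9 F² (1/p^..)²`, summed with `Sgd_main`.  `81 (1+τ)² ≤ 100`, `27 (1+τ) ≤ 30`.
`Sge_bil`: `Csz_main`, `Sge_sum` and `H.big`: `X⁴ ≤ (∑y²)⁴ F⁴ (100τ²+30χ) ≤ ((∑y²) F / (2 C(k,r)))⁴` (`C(k,r) ≥ 1`), then `abs_le_of_pow_le`-like (`pow_le_pow_left₀`, `abs_le_of_sq_le_sq`).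
-/

set_option autoImplicit false
set_option linter.unusedSectionVars false

open Finset

namespace Pool.Agent.H9.SQ

open Pool.Agent.H9.KR

variable {V : Type} [Fintype V] [DecidableEq V]

lemma Sge_basic {n r k : ℕ} {p ε τ χ : ℝ} (H : Num n r k p ε τ χ) : 0 ≤ τ ∧ 0 ≤ χ := by
  have h1 := H.τ_ge
  have h2 := H.ε_pos
  have h3 : 0 ≤ 8 * (r : ℝ) * ε := by positivity
  have h4 := H.χ_ge
  have h5 : 0 ≤ (r : ℝ) ^ 2 / (n * p ^ (3 * r)) := by
    have := H.p_pos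
    positivity
  exact ⟨by linarith, by linarith⟩

theorem Sge_sum {G : SimpleGraph V} {U : Finset V} {n r k : ℕ} {p ε τ χ : ℝ} (H : Num n r k p ε τ χ)
    (h : Reg G U n p ε (4 * r)) (s : ℕ) (hs : s < r) (R : Finset V) (hR : R ∈ Cl G U s) :
    ∑ S₁ ∈ Cl G (nb G U R) (r - s), ∑ S₂ ∈ Cl G (nb G U R) (r - s),
      (∑ T ∈ Cl G (nb G U R) (r - s), ez G U n p r s R S₁ T * ez G U n p r s R S₂ T) ^ 2 ≤
      Fz n p (r - s) s ^ 4 * (100 * τ ^ 2 + 30 * χ) := by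
  classical
  obtain ⟨hτ, hχ⟩ := Sge_basic H
  have hτ' := H.τ_le
  have hp := H.p_pos
  have hRU : R ⊆ U := (mem_powersetCard.1 (mem_filter.1 hR).1).1
  have hRc : R.card = s := (mem_powersetCard.1 (mem_filter.1 hR).1).2
  have hF : 0 ≤ Fz n p (r - s) s := Fz_nonneg hp.le _ _
  have hN : ((Cl G (nb G U R) (r - s)).card : ℝ) ≤ (1 + τ) * Fz n p (r - s) s := by
    have h1 := Cnt_le H h ∅ R hRU (r - s) (by rw [hRc]; omega)
    rw [hRc, sdiff_empty] at h1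
    exact h1
  have key : ∀ S₁ ∈ Cl G (nb G U R) (r - s), ∑ S₂ ∈ Cl G (nb G U R) (r - s),
      (∑ T ∈ Cl G (nb G U R) (r - s), ez G U n p r s R S₁ T * ez G U n p r s R S₂ T) ^ 2 ≤
      (1 + τ) * Fz n p (r - s) s * (9 * τ * Fz n p (r - s) s) ^ 2 +
        9 * Fz n p (r - s) s ^ 2 * (3 * χ * Fz n p (r - s) s) := by
    intro S₁ h₁
    rw [← Finset.sum_filter_add_sum_filter_not (Cl G (nb G U R) (r - s))
      (fun S₂ => (S₁ ∩ S₂).Nonempty), add_comm]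
    apply add_le_add
    · calc ∑ S₂ ∈ (Cl G (nb G U R) (r - s)).filter (fun S₂ => ¬ (S₁ ∩ S₂).Nonempty),
            (∑ T ∈ Cl G (nb G U R) (r - s),
              ez G U n p r s R S₁ T * ez G U n p r s R S₂ T) ^ 2
          ≤ ∑ S₂ ∈ (Cl G (nb G U R) (r - s)).filter (fun S₂ => ¬ (S₁ ∩ S₂).Nonempty),
              (9 * τ * Fz n p (r - s) s) ^ 2 := by
            refine sum_le_sum fun S₂ h₂ => ?_
            obtain ⟨h₂, hn⟩ := mem_filter.1 h₂
            have hd : Disjoint S₁ S₂ := by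
              rw [Finset.disjoint_iff_inter_eq_empty]
              exact Finset.not_nonempty_iff_eq_empty.1 hn
            have h3 := Sgc_dis H h s hs.le R S₁ S₂ hR h₁ h₂ hd
            exact sq_le_sq' (by linarith [(abs_le.1 h3).1]) (abs_le.1 h3).2
        _ = (((Cl G (nb G U R) (r - s)).filter
              (fun S₂ => ¬ (S₁ ∩ S₂).Nonempty)).card : ℝ) * (9 * τ * Fz n p (r - s) s) ^ 2 := by
            rw [sum_const, nsmul_eq_mul]
        _ ≤ (1 + τ) * Fz n p (r - s) s * (9 * τ * Fz n p (r - s) s) ^ 2 := by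
            refine mul_le_mul_of_nonneg_right (le_trans ?_ hN) (sq_nonneg _)
            exact_mod_cast card_le_card (filter_subset _ _)
    · calc ∑ S₂ ∈ (Cl G (nb G U R) (r - s)).filter (fun S₂ => (S₁ ∩ S₂).Nonempty),
            (∑ T ∈ Cl G (nb G U R) (r - s),
              ez G U n p r s R S₁ T * ez G U n p r s R S₂ T) ^ 2
          ≤ ∑ S₂ ∈ (Cl G (nb G U R) (r - s)).filter (fun S₂ => (S₁ ∩ S₂).Nonempty),
              9 * Fz n p (r - s) s ^ 2 * (1 / p ^ ((r - s) * (S₁ ∩ S₂).card)) ^ 2 := by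
            refine sum_le_sum fun S₂ h₂ => ?_
            obtain ⟨h₂, hn⟩ := mem_filter.1 h₂
            have h3 := Sgc_all H h s hs.le R S₁ S₂ hR h₁ h₂
            have e : 9 * Fz n p (r - s) s ^ 2 * (1 / p ^ ((r - s) * (S₁ ∩ S₂).card)) ^ 2 =
                (3 * Fz n p (r - s) s / p ^ ((r - s) * (S₁ ∩ S₂).card)) ^ 2 := by
              rw [div_pow, div_pow, mul_pow]
              ring
            rw [e]
            exact sq_le_sq' (by linarith [(abs_le.1 h3).1]) (abs_le.1 h3).2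
        _ = 9 * Fz n p (r - s) s ^ 2 *
            ∑ S₂ ∈ (Cl G (nb G U R) (r - s)).filter (fun S₂ => (S₁ ∩ S₂).Nonempty),
              (1 / p ^ ((r - s) * (S₁ ∩ S₂).card)) ^ 2 := by
            rw [← mul_sum]
        _ ≤ 9 * Fz n p (r - s) s ^ 2 * (3 * χ * Fz n p (r - s) s) :=
            mul_le_mul_of_nonneg_left (Sgd_main H h s hs.le R S₁ hR h₁) (by positivity)
  calc ∑ S₁ ∈ Cl G (nb G U R) (r - s), ∑ S₂ ∈ Cl G (nb G U R) (r - s),
      (∑ T ∈ Cl G (nb G U R) (r - s), ez G U n p r s R S₁ T * ez G U n p r s R S₂ T) ^ 2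
      ≤ ∑ S₁ ∈ Cl G (nb G U R) (r - s), ((1 + τ) * Fz n p (r - s) s *
          (9 * τ * Fz n p (r - s) s) ^ 2 +
          9 * Fz n p (r - s) s ^ 2 * (3 * χ * Fz n p (r - s) s)) := sum_le_sum key
    _ = ((Cl G (nb G U R) (r - s)).card : ℝ) * ((1 + τ) * Fz n p (r - s) s *
          (9 * τ * Fz n p (r - s) s) ^ 2 +
          9 * Fz n p (r - s) s ^ 2 * (3 * χ * Fz n p (r - s) s)) := by
        rw [sum_const, nsmul_eq_mul]
    _ ≤ ((1 + τ) * Fz n p (r - s) s) * ((1 + τ) * Fz n p (r - s) s *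
          (9 * τ * Fz n p (r - s) s) ^ 2 +
          9 * Fz n p (r - s) s ^ 2 * (3 * χ * Fz n p (r - s) s)) := by
        refine mul_le_mul_of_nonneg_right hN ?_
        positivity
    _ = Fz n p (r - s) s ^ 4 * (81 * (1 + τ) ^ 2 * τ ^ 2 + 27 * (1 + τ) * χ) := by ring
    _ ≤ Fz n p (r - s) s ^ 4 * (100 * τ ^ 2 + 30 * χ) := by
        refine mul_le_mul_of_nonneg_left ?_ (by positivity)
        have e1 : 81 * (1 + τ) ^ 2 ≤ 100 := by nlinarith
        have e2 : 27 * (1 + τ) ≤ 30 := by linarith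
        have e3 := mul_le_mul_of_nonneg_right e1 (sq_nonneg τ)
        have e4 := mul_le_mul_of_nonneg_right e2 hχ
        linarith

theorem Sge_bil {G : SimpleGraph V} {U : Finset V} {n r k : ℕ} {p ε τ χ : ℝ} (H : Num n r k p ε τ χ)
    (h : Reg G U n p ε (4 * r)) (s : ℕ) (hs : s < r) (R : Finset V) (hR : R ∈ Cl G U s)
    (y : Finset V → ℝ) :
    |∑ S ∈ Cl G (nb G U R) (r - s), ∑ T ∈ Cl G (nb G U R) (r - s), y S * y T * ez G U n p r s R S T| ≤
      (∑ S ∈ Cl G (nb G U R) (r - s), y S ^ 2) * (Fz n p (r - s) s / (2 * (k.choose r : ℝ))) := by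
  obtain ⟨hτ, hχ⟩ := Sge_basic H
  have hp := H.p_pos
  have hF : 0 ≤ Fz n p (r - s) s := Fz_nonneg hp.le _ _
  have hC : (0 : ℝ) < (k.choose r : ℝ) := by
    have := H.k_ge
    exact_mod_cast Nat.choose_pos (by omega)
  have hP : 0 ≤ ∑ S ∈ Cl G (nb G U R) (r - s), y S ^ 2 := sum_nonneg fun S _ => sq_nonneg _
  have h1 := Csz_main (Cl G (nb G U R) (r - s)) y (fun S T => ez G U n p r s R S T)
  have h2 := Sge_sum H h s hs R hR
  have h3 : 100 * τ ^ 2 + 30 * χ ≤ (1 / (2 * (k.choose r : ℝ))) ^ 4 := by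
    have h4 := H.big
    rw [div_pow, one_pow, le_div_iff₀ (by positivity)]
    calc (100 * τ ^ 2 + 30 * χ) * (2 * (k.choose r : ℝ)) ^ 4
        = (k.choose r : ℝ) ^ 4 * (16 * (100 * τ ^ 2 + 30 * χ)) := by ring
      _ ≤ 1 := h4
  have hB : 0 ≤ (∑ S ∈ Cl G (nb G U R) (r - s), y S ^ 2) *
      (Fz n p (r - s) s / (2 * (k.choose r : ℝ))) := by positivity
  refine (pow_le_pow_iff_left₀ (abs_nonneg _) hB (by norm_num : (4 : ℕ) ≠ 0)).1 ?_
  have h5 : Even 4 := by decide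
  rw [h5.pow_abs]
  refine h1.trans ?_
  calc (∑ S ∈ Cl G (nb G U R) (r - s), y S ^ 2) ^ 4 *
        ∑ S₁ ∈ Cl G (nb G U R) (r - s), ∑ S₂ ∈ Cl G (nb G U R) (r - s),
          (∑ T ∈ Cl G (nb G U R) (r - s), ez G U n p r s R S₁ T * ez G U n p r s R S₂ T) ^ 2
      ≤ (∑ S ∈ Cl G (nb G U R) (r - s), y S ^ 2) ^ 4 *
          (Fz n p (r - s) s ^ 4 * (1 / (2 * (k.choose r : ℝ))) ^ 4) := by
        refine mul_le_mul_of_nonneg_left (h2.trans ?_) (by positivity)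
        exact mul_le_mul_of_nonneg_left h3 (by positivity)
    _ = ((∑ S ∈ Cl G (nb G U R) (r - s), y S ^ 2) *
          (Fz n p (r - s) s / (2 * (k.choose r : ℝ)))) ^ 4 := by
        rw [mul_pow, div_pow, div_pow]
        ring

end Pool.Agent.H9.SQ
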