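import Mathlib

/-!
# Sum-of-squares refutations of the statement that a graph has a clique with `k` vertices

A set `K` of vertices is a 0/1 point (the variable of the vertex `v` is `1` if `v ∈ K`).
-/

set_option autoImplicit false

open Finset

namespace Pool.Agent.H9.SQ

open Classical in
/-- The value at `K` of the monomial `t = (P, Q)`, the product of the variables of the vertices in `P` and of the negated
variables of the vertices in `Q`: it is `1` if `P ⊆ K` and `Q ∩ K = ∅`, and `0` otherwise. -/
noncomputable def val {N : ℕ} (t : Finset (Fin N) × Finset (Fin N)) (K : Finset (Fin N)) : ℝ :=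
  if t.1 ⊆ K ∧ Disjoint t.2 K then 1 else 0

/-- A sum-of-squares refutation, with the monomials in `M`, of the statement that `G` has a clique with `k` vertices:
there are linear combinations `q i` and `a` of the monomials in `M`, with real coefficients, such that
`∑ i, q i ^ 2 + a * (∑ v, x v - k) = -1` at every clique `K` of `G` (that is, the identity holds modulo all multiples of the
polynomials `x v ^ 2 - x v`, and `x u * x v` for non-adjacent `u ≠ v`, which are free of charge). -/
def SumOfSquares {N : ℕ} (G : SimpleGraph (Fin N)) (k : ℕ) (M : Finset (Finset (Fin N) × Finset (Fin N))) :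
    Prop :=
  ∃ (m : ℕ) (q : Fin m → Finset (Fin N) × Finset (Fin N) → ℝ) (a : Finset (Fin N) × Finset (Fin N) → ℝ),
    ∀ K : Finset (Fin N), G.IsClique (K : Set (Fin N)) →
      ∑ i, (∑ t ∈ M, q i t * val t K) ^ 2 + (∑ t ∈ M, a t * val t K) * ((K.card : ℝ) - k) = -1

end Pool.Agent.H9.SQ
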